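import Pool.Agent.Run7.h860.Hd.Opt

/-!
Piece HI: the height of an integral vector
-/

set_option autoImplicit false

open Polynomial Finset
open Pool.Agent.Helper259.AbsHt Pool.Agent.Helper259.HtPoly

namespace Pool.Agent.Run7.h860.Hd

theorem t_HI : S_HI := by
  intro n c hc
  obtain ⟨g, hg, hg1⟩ := Finset.extract_gcd c (s := Finset.univ) ⟨0, Finset.mem_univ _⟩
  set G : ℤ := Finset.univ.gcd c with hG
  have hcg : ∀ j, c j = G * g j := fun j => hg j (Finset.mem_univ j)
  have hG0 : G ≠ 0 := by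
    intro h
    apply hc
    funext j
    rw [hcg, h, zero_mul]
    rfl
  obtain ⟨i, -, hi⟩ := Finset.exists_max_image (Finset.univ : Finset (Fin (n + 1))) (fun j => |g j|)
    ⟨0, Finset.mem_univ _⟩
  have hgi : g i ≠ 0 := by
    intro h
    apply hc
    funext j
    have h1 := hi j (Finset.mem_univ j)
    rw [h, abs_zero] at h1
    have h2 : g j = 0 := abs_eq_zero.1 (le_antisymm h1 (abs_nonneg _))
    rw [hcg, h2, mul_zero]
    rfl
  refine ⟨i, ?_, ?_⟩
  · rw [hcg]
    exact mul_ne_zero hG0 hgi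
  · have h1 := absLogHeight_int g hg1
    have h2 := absLogHeight_smul (fun j => ((g j : ℤ) : Qbar)) (c := ((G : ℤ) : Qbar))
      (by exact_mod_cast hG0)
    have h3 : (fun j => ((c j : ℤ) : Qbar)) = ((G : ℤ) : Qbar) • (fun j => ((g j : ℤ) : Qbar)) := by
      funext j
      rw [hcg]
      simp
    rw [h3, h2, h1]
    have h4 : (⨆ j, |g j| : ℤ) ≤ |g i| := ciSup_le fun j => hi j (Finset.mem_univ j)
    have h5 : |g i| ≤ (⨆ j, |g j| : ℤ) := le_ciSup (f := fun j => |g j|) (Set.finite_range _).bddAbove i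
    have h6 : 0 < |g i| := abs_pos.2 hgi
    apply Real.log_le_log
    · exact_mod_cast h6.trans_le h5
    · have h7 : |g i| ≤ |c i| := by
        rw [hcg, abs_mul]
        have : 1 ≤ |G| := Int.one_le_abs hG0
        nlinarith
      exact_mod_cast h4.trans h7

end Pool.Agent.Run7.h860.Hd
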