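import Pool.Agent.Run7.h860.Hd.Opt2

/-!
# Optimality, part three: the polynomials with integral coefficients
-/

set_option autoImplicit false

open Polynomial Finset Module
open NumberField IsDedekindDomain Height
open Pool.Agent.Helper259.AbsHt Pool.Agent.Helper259.HtPoly

namespace Pool.Agent.Run7.h860.Hd

/-- the polynomial with given integral coefficients -/
noncomputable def pol {d : ℕ} (c : Fin (d + 1) → ℤ) : ℚ[X] :=
  ∑ i : Fin (d + 1), C (c i : ℚ) * X ^ (i : ℕ)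

theorem pol_coeff {d : ℕ} (c : Fin (d + 1) → ℤ) (j : Fin (d + 1)) : (pol c).coeff j = c j := by
  unfold pol
  rw [finsetSum_coeff]
  simp only [coeff_C_mul, coeff_X_pow, mul_ite, mul_one, mul_zero]
  rw [Finset.sum_eq_single j]
  · simp
  · intro i _ hij
    rw [if_neg]
    intro h
    exact hij (Fin.ext h.symm)
  · intro h
    exact absurd (Finset.mem_univ _) h

theorem pol_natDegree {d : ℕ} (c : Fin (d + 1) → ℤ) : (pol c).natDegree ≤ d := by
  unfold pol
  refine natDegree_sum_le_of_forall_le _ _ fun i _ => ?_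
  exact (natDegree_C_mul_X_pow_le _ _).trans (by omega)

theorem pol_ne_zero {d : ℕ} {c : Fin (d + 1) → ℤ} (hc : c ≠ 0) : pol c ≠ 0 := by
  obtain ⟨i, hi⟩ := Function.ne_iff.1 hc
  intro h
  have h1 := pol_coeff c i
  rw [h, coeff_zero] at h1
  exact hi (by exact_mod_cast h1.symm)

theorem up_pol_coeff {d : ℕ} (c : Fin (d + 1) → ℤ) (j : Fin (d + 1)) :
    (up (k := ℚ) (pol c)).coeff j = ((c j : ℤ) : AlgebraicClosure ℚ) := by
  unfold up
  rw [coeff_map, pol_coeff, map_intCast]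

theorem cv_pol {d : ℕ} (c : Fin (d + 1) → ℤ) :
    cv d (up (k := ℚ) (pol c)) = fun j => ((c j : ℤ) : AlgebraicClosure ℚ) :=
  funext fun j => up_pol_coeff c j

theorem norm_eval_pol {d : ℕ} (c : Fin (d + 1) → ℤ) (ψ : AlgebraicClosure ℚ →+* ℂ)
    (a : AlgebraicClosure ℚ) (him : (ψ a).im = 0) :
    ‖ψ ((up (k := ℚ) (pol c)).eval a)‖ = |∑ i, (c i : ℝ) * (ψ a).re ^ (i : ℕ)| := by
  have h1 : ψ a = (((ψ a).re : ℝ) : ℂ) := by
    apply Complex.ext
    · simp
    · simpa using him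
  have h2 : ψ ((up (k := ℚ) (pol c)).eval a) = ((∑ i, (c i : ℝ) * (ψ a).re ^ (i : ℕ) : ℝ) : ℂ) := by
    unfold up pol
    rw [Polynomial.map_sum, eval_finsetSum, map_sum]
    push_cast
    refine Finset.sum_congr rfl fun i _ => ?_
    rw [Polynomial.map_mul, Polynomial.map_pow, map_X, map_C, eval_mul, eval_pow, eval_X, eval_C,
      map_mul, map_pow, map_intCast, map_intCast]
    rw [← h1]
  rw [h2, Complex.norm_real, Real.norm_eq_abs]

theorem opt (hPG : S_PG) (hHI : S_HI) (hHP : S_HP) (hML : S_ML)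
    (hGP : S_GP) (hHE : S_HE) (hSO : S_SO) (hLO : S_LO) (hDC : S_DC) (hEX : S_EX)
    (ψ : AlgebraicClosure ℚ →+* ℂ) (D : Finset (AlgebraicClosure ℚ)) {d : ℕ} (hd : 0 < d)
    (a : AlgebraicClosure ℚ) (ha : a ∈ D) (him : (ψ a).im = 0)
    (hdeg : d ^ 2 < (minpoly (Ad0 ℚ) a).natDegree) :
    ∃ C : ℝ, ∀ B : ℝ, ∃ (L : Type) (_ : Field L) (_ : NumberField L) (_ : Algebra ℚ L) (x : L),
      IntermediateField.adjoin ℚ {x} = ⊤ ∧ finrank ℚ L = d ∧
      (∀ b ∈ D, ∀ φ : L →+* AlgebraicClosure ℚ, b ≠ φ x) ∧ B ≤ logHeight₁ x / d ∧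
      (d + 1) * (logHeight₁ x / d) - C ≤ psum (k := ℚ) (fun z => ∑ b ∈ D, lw ψ b z) x / d := by
  classical
  have hd1 : (1 : ℝ) ≤ d := by exact_mod_cast hd
  have hd0 : (0 : ℝ) < d := by linarith
  obtain ⟨K, hK, hPGd⟩ := hPG d (ψ a).re
  obtain ⟨CH, hCH⟩ := hHP d
  set ε : ℝ := 1 / (2 * d) with hε
  have hε0 : 0 < ε := by positivity
  have hdε : (d : ℝ) * (1 + ε) = d + 1 / 2 := by
    rw [hε]
    field_simp
  obtain ⟨CU, hCU0, hCU⟩ := ub_prod hGP hHE hSO hLO hDC hEX ψ a hdeg hε0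
  set C2 : ℝ := Real.log K + d * Real.log 2 with hC2
  set C' : ℝ := (d + 1 / 2) * CH + d * CU + C2 with hC'
  set CD : ℝ := ∑ b ∈ D, Real.log (1 + ‖ψ b‖) with hCD
  refine ⟨((d + 1) * CH + C2) / d + CD, fun B => ?_⟩
  set B' : ℝ := max B (∑ b ∈ D, ht b + 1) with hB'
  obtain ⟨Q, hQ⟩ := exists_nat_gt (Real.exp (max (max 0 (2 * C'))
    (((d + 1) * (1 + ε) * (B' * d) + C2 + d * CU) / d)))
  have hQ0 : (0 : ℝ) < Q := (Real.exp_pos _).trans hQ
  have hQ1 : 1 ≤ Q := by exact_mod_cast hQ0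
  have hlQ : max (max 0 (2 * C')) (((d + 1) * (1 + ε) * (B' * d) + C2 + d * CU) / d) <
      Real.log Q := (Real.lt_log_iff_exp_lt hQ0).2 hQ
  have hlQ1 : 2 * C' < Real.log Q := ((le_max_right _ _).trans (le_max_left _ _)).trans_lt hlQ
  have hlQ2 : ((d + 1) * (1 + ε) * (B' * d) + C2 + d * CU) / d < Real.log Q :=
    (le_max_right _ _).trans_lt hlQ
  have hlQ3 : 0 < Real.log Q := ((le_max_left _ _).trans (le_max_left _ _)).trans_lt hlQ
  rw [div_lt_iff₀ hd0] at hlQ2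
  obtain ⟨c, hc0, hcQ, hval⟩ := hPGd Q hQ1
  obtain ⟨i, hi0, hHi⟩ := hHI d c hc0
  have hf0 : pol c ≠ 0 := pol_ne_zero hc0
  have hfd : (pol c).natDegree ≤ d := pol_natDegree c
  set H : ℝ := absLogHeight (cv d (up (k := ℚ) (pol c))) with hH
  have hH0 : 0 ≤ H := absLogHeight_nonneg _
  have hHi' : H ≤ Real.log |(c i : ℝ)| := by
    rw [hH, cv_pol]
    exact hHi
  have hci : (0 : ℝ) < |(c i : ℝ)| := abs_pos.2 (by exact_mod_cast hi0)
  have hI2 : H ≤ Real.log Q := by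
    refine hHi'.trans (Real.log_le_log hci ?_)
    have := hcQ i
    exact_mod_cast this
  have hev : (up (k := ℚ) (pol c)).eval a ≠ 0 := by
    intro h
    rw [up_eval] at h
    have h1 := deg_le (k := ℚ) hf0 h
    have h4 : d ≤ d ^ 2 := Nat.le_self_pow (by norm_num) d
    omega
  have hml := hML ψ d (up (k := ℚ) (pol c)) a (up_ne_zero (k := ℚ) hf0)
    ((up_natDegree (k := ℚ) (pol c)).le.trans hfd) hev i (by
      rw [up_pol_coeff]
      exact_mod_cast hi0)
  rw [up_pol_coeff, map_intCast, Complex.norm_intCast] at hml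
  have hevn : (0 : ℝ) < ‖ψ ((up (k := ℚ) (pol c)).eval a)‖ := norm_pos_iff.2 ((map_ne_zero ψ).2 hev)
  have hev2 : Real.log ‖ψ ((up (k := ℚ) (pol c)).eval a)‖ ≤ Real.log K - d * Real.log Q := by
    rw [← Real.log_pow, ← Real.log_div hK.ne' (by positivity)]
    refine Real.log_le_log hevn ?_
    rw [norm_eval_pol c ψ a him]
    exact hval
  have hI1 : H + d * Real.log Q - C2 ≤ rsum (k := ℚ) (lw ψ a) (pol c) := by
    have : Real.log |(c i : ℝ)| ≤ rsum (k := ℚ) (lw ψ a) (pol c) +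
      Real.log ‖ψ ((up (k := ℚ) (pol c)).eval a)‖ + d * Real.log 2 := hml
    linarith
  have hI3 : rsum (k := ℚ) ht (pol c) ≤ CH + H :=
    hCH (up (k := ℚ) (pol c)) (up_ne_zero (k := ℚ) hf0)
      ((up_natDegree (k := ℚ) (pol c)).le.trans hfd)
  have hfdr : ((pol c).natDegree : ℝ) ≤ d := by exact_mod_cast hfd
  have hnCU : ((pol c).natDegree : ℝ) * CU ≤ d * CU := mul_le_mul_of_nonneg_right hfdr hCU0
  by_cases hcase : ∃ g : ℚ[X], Irreducible g ∧ g ∣ pol c ∧ d ≤ g.natDegree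
  · obtain ⟨g, hg, ⟨q, hq⟩, hgd⟩ := hcase
    have hq0 : q ≠ 0 := by
      rintro rfl
      rw [mul_zero] at hq
      exact hf0 hq
    have hdegs : g.natDegree + q.natDegree ≤ d := by
      rw [← natDegree_mul hg.ne_zero hq0, ← hq]
      exact hfd
    have hgd' : g.natDegree = d := by omega
    have hqd : q.natDegree = 0 := by omega
    obtain ⟨q1, hq1⟩ := natDegree_eq_zero.1 hqd
    obtain ⟨L, i1, i2, i3, x, hx, hfin, hmin⟩ := exists_field (k := ℚ) g hg
    have hc : (C g.leadingCoeff⁻¹ : ℚ[X]) ≠ 0 := by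
      rw [Ne, C_eq_zero, inv_eq_zero, leadingCoeff_eq_zero]
      exact hg.ne_zero
    have hr : ∀ f : AlgebraicClosure ℚ → ℝ,
        rsum (k := ℚ) f (pol c) = rsum (k := ℚ) f (minpoly ℚ x) := by
      intro f
      rw [hmin, rsum_mul f hg.ne_zero hc, rsum_C, hq, rsum_mul f hg.ne_zero hq0, ← hq1, rsum_C]
    have hS : rsum (k := ℚ) ht (pol c) = logHeight₁ x := by
      rw [hr, ← sum_height_eq x hx]
      rfl
    have hΛ : rsum (k := ℚ) (lw ψ a) (pol c) = psum (k := ℚ) (lw ψ a) x := by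
      rw [hr, rsum_minpoly x hx]
      rfl
    have hup := hCU d le_rfl (pol c) hf0 fun g' hg' hgf =>
      (natDegree_le_of_dvd hgf hf0).trans hfd
    rw [hS] at hI3 hup
    rw [hΛ] at hI1 hup
    have hfin' : finrank ℚ L = d := hfin.trans hgd'
    have hT : B' ≤ logHeight₁ x / d := by
      rw [le_div_iff₀ hd0]
      have h1 : 0 < ((d : ℝ) + 1) * (1 + ε) := by positivity
      by_contra hlt
      push Not at hlt
      have h2 := mul_lt_mul_of_pos_left hlt h1
      linarith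
    refine ⟨L, i1, i2, i3, x, hx, hfin', ?_, (le_max_left _ _).trans hT, ?_⟩
    · intro b hb φ hbx
      have h1 : ht b = logHeight₁ x / d := by
        rw [hbx, ← hfin']
        exact ht_conj φ x
      have h2 : ht b ≤ ∑ b ∈ D, ht b :=
        Finset.single_le_sum (f := ht) (fun b _ => ht_nonneg b) hb
      have h3 : ∑ b ∈ D, ht b + 1 ≤ B' := le_max_right _ _
      linarith
    · have h1 : ∀ z, lw ψ a z - CD ≤ ∑ b ∈ D, lw ψ b z := by
        intro z
        rw [← Finset.add_sum_erase _ _ ha]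
        have h2 : -(∑ b ∈ D.erase a, Real.log (1 + ‖ψ b‖)) ≤ ∑ b ∈ D.erase a, lw ψ b z := by
          rw [← Finset.sum_neg_distrib]
          exact Finset.sum_le_sum fun b _ => lw_ge ψ b z
        have h3 : ∑ b ∈ D.erase a, Real.log (1 + ‖ψ b‖) ≤ CD :=
          Finset.sum_le_sum_of_subset_of_nonneg (Finset.erase_subset _ _) fun b _ _ =>
            Real.log_nonneg (by have := norm_nonneg (ψ b); linarith)
        linarith
      have h4 := psum_ge (k := ℚ) h1 x hx
      rw [hfin'] at h4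
      rw [le_div_iff₀ hd0]
      have h5 : ((d + 1) * (logHeight₁ x / d) - (((d + 1) * CH + C2) / d + CD)) * (d : ℝ) =
          (d + 1) * logHeight₁ x - ((d + 1) * CH + C2) - d * CD := by
        field_simp
        ring
      rw [h5]
      have h6 : (d : ℝ) * H ≤ d * Real.log Q := mul_le_mul_of_nonneg_left hI2 hd0.le
      have h7 : ((d : ℝ) + 1) * logHeight₁ x ≤ (d + 1) * (CH + H) :=
        mul_le_mul_of_nonneg_left hI3 (by positivity)
      linarith
  · exfalso
    push Not at hcase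
    have h1 := hCU (d - 1) (Nat.sub_le _ _) (pol c) hf0 fun g hg hgf => by
      have := hcase g hg hgf
      omega
    have h2 : (((d - 1 : ℕ) : ℝ) + 1) = d := by
      rw [Nat.cast_sub hd]
      push_cast
      ring
    rw [h2, hdε] at h1
    have h3 : ((d : ℝ) + 1 / 2) * rsum (k := ℚ) ht (pol c) ≤ (d + 1 / 2) * (CH + H) :=
      mul_le_mul_of_nonneg_left hI3 (by positivity)
    have h4 : ((d : ℝ) - 1 / 2) * H ≤ (d - 1 / 2) * Real.log Q :=
      mul_le_mul_of_nonneg_left hI2 (by linarith)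
    linarith

end Pool.Agent.Run7.h860.Hd
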