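import Pool.Agent.Run7.h860.Hd.Stm

/-!
The piece WR: the Wronskian at a point of large degree.
-/

set_option autoImplicit false

open Polynomial Finset

namespace Pool.Agent.Run7.h860.Hd

/-- degree of the determinant of a matrix of polynomials of degree at most `d` -/
theorem natDegree_det_le {E : Type} [Field E] (t d : ℕ) (M : Matrix (Fin t) (Fin t) E[X])
    (h : ∀ i j, (M i j).natDegree ≤ d) : M.det.natDegree ≤ t * d := by
  rw [Matrix.det_apply]
  refine natDegree_sum_le_of_forall_le _ _ fun σ _ => ?_
  refine (natDegree_smul_le _ _).trans ?_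
  refine (natDegree_prod_le _ _).trans ?_
  refine (Finset.sum_le_sum fun i _ => h (σ i) i).trans ?_
  simp

/-- the relation cannot hold -/
theorem ode {E : Type} [Field E] [CharZero E] (t : ℕ) (u : Fin t → E[X])
    (hu : LinearIndependent E u) (c : Fin t → E[X]) (hc0 : c ≠ 0)
    (hrel : ∀ i, ∑ l, c l * hasseDeriv (l : ℕ) (u i) = 0) : False := by
  classical
  have hne : (univ.filter fun l => c l ≠ 0).Nonempty := by
    obtain ⟨l, hl⟩ := Function.ne_iff.1 hc0
    exact ⟨l, by simpa using hl⟩
  obtain ⟨m, hm, hmax⟩ : ∃ m : Fin t, c m ≠ 0 ∧ ∀ l, m < l → c l = 0 := by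
    refine ⟨(univ.filter fun l => c l ≠ 0).max' hne, ?_, ?_⟩
    · have := Finset.max'_mem _ hne
      simpa using this
    · intro l hl
      by_contra h
      have h1 := Finset.le_max' (univ.filter fun l => c l ≠ 0) l (by simpa using h)
      exact absurd hl (not_lt.2 h1)
  obtain ⟨x₀, hx₀⟩ : ∃ x₀, (c m).eval x₀ ≠ 0 := by
    by_contra h
    push Not at h
    exact hm (Polynomial.funext fun x => by rw [h x, eval_zero])
  obtain ⟨y, hy0, hy⟩ : ∃ y : Fin t → E, y ≠ 0 ∧
      ∀ j < (m : ℕ), ∑ i, y i * (hasseDeriv j (u i)).eval x₀ = 0 := by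
    have h1 : (Matrix.of fun l i : Fin t =>
        if (l : ℕ) < m then (hasseDeriv (l : ℕ) (u i)).eval x₀ else 0).det = 0 :=
      Matrix.det_eq_zero_of_row_eq_zero m fun j => by simp
    obtain ⟨y, hy0, hy⟩ := Matrix.exists_mulVec_eq_zero_iff.2 h1
    refine ⟨y, hy0, fun j hj => ?_⟩
    have h2 := congrFun hy ⟨j, hj.trans m.2⟩
    simp only [Matrix.mulVec, dotProduct, Matrix.of_apply, Pi.zero_apply, hj, if_true] at h2
    rw [← h2]
    exact Finset.sum_congr rfl fun i _ => mul_comm _ _
  set v : E[X] := ∑ i, y i • u i with hv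
  have hv0 : v ≠ 0 := fun h => hy0 (funext fun i => Fintype.linearIndependent_iff.1 hu y h i)
  have hvj : ∀ j < (m : ℕ), (hasseDeriv j v).eval x₀ = 0 := by
    intro j hj
    rw [hv, map_sum, eval_finsetSum, ← hy j hj]
    exact Finset.sum_congr rfl fun i _ => by rw [map_smul, eval_smul, smul_eq_mul]
  have hvrel : ∑ l, c l * hasseDeriv (l : ℕ) v = 0 := by
    have h1 : ∀ l : Fin t, c l * hasseDeriv (l : ℕ) v =
        ∑ i, y i • (c l * hasseDeriv (l : ℕ) (u i)) := by
      intro l
      rw [hv, map_sum, Finset.mul_sum]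
      exact Finset.sum_congr rfl fun i _ => by rw [map_smul, mul_smul_comm]
    simp only [h1]
    rw [Finset.sum_comm]
    refine Finset.sum_eq_zero fun i _ => ?_
    rw [← Finset.smul_sum, hrel i, smul_zero]
  have hτ : ∀ j < (m : ℕ), (taylor x₀ v).coeff j = 0 := fun j hj => by
    rw [taylor_coeff]; exact hvj j hj
  have hτne : ∃ n, (taylor x₀ v).coeff n ≠ 0 := by
    by_contra h
    push Not at h
    refine hv0 (taylor_injective x₀ ?_)
    rw [map_zero]
    exact Polynomial.ext fun n => by rw [h n, coeff_zero]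
  set s := Nat.find hτne with hs
  have hs0 : (taylor x₀ v).coeff s ≠ 0 := Nat.find_spec hτne
  have hsmin : ∀ j < s, (taylor x₀ v).coeff j = 0 := fun j hj => by
    have := Nat.find_min hτne hj
    simpa using this
  have hms : (m : ℕ) ≤ s := by
    by_contra h
    exact hs0 (hτ s (by omega))
  have key : ∀ l n, (taylor x₀ (hasseDeriv l v)).coeff n =
      ((n + l).choose n : E) * (taylor x₀ v).coeff (n + l) := by
    intro l n
    have h1 := LinearMap.congr_fun (hasseDeriv_comp (R := E) n l) v
    rw [LinearMap.comp_apply, LinearMap.smul_apply] at h1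
    rw [taylor_coeff, taylor_coeff, h1, nsmul_eq_mul, eval_mul, eval_natCast]
  have h10 : (taylor x₀ (∑ l, c l * hasseDeriv (l : ℕ) v)).coeff (s - m) =
      (c m).eval x₀ * (((s - m + m).choose (s - m) : E) * (taylor x₀ v).coeff s) := by
    rw [map_sum, finsetSum_coeff, Finset.sum_eq_single m]
    · rw [taylor_mul, coeff_mul, Finset.sum_eq_single (0, s - (m : ℕ))]
      · rw [key, taylor_coeff_zero, Nat.sub_add_cancel hms]
      · rintro ⟨i, j⟩ hij hne'
        rw [Finset.HasAntidiagonal.mem_antidiagonal] at hij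
        simp only at hij
        have hi : i ≠ 0 := by
          rintro rfl
          exact hne' (by rw [← hij, zero_add])
        simp only
        rw [key, hsmin (j + m) (by omega), mul_zero, mul_zero]
      · intro h
        exact absurd (Finset.HasAntidiagonal.mem_antidiagonal.2 (zero_add _)) h
    · intro l _ hl
      rcases lt_or_gt_of_ne hl with h | h
      · rw [taylor_mul, coeff_mul]
        refine Finset.sum_eq_zero ?_
        rintro ⟨i, j⟩ hij
        rw [Finset.HasAntidiagonal.mem_antidiagonal] at hij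
        simp only at hij
        have h' : (l : ℕ) < m := h
        simp only
        rw [key, hsmin (j + l) (by omega), mul_zero, mul_zero]
      · rw [hmax l h, zero_mul, map_zero, coeff_zero]
    · intro h
      exact absurd (Finset.mem_univ m) h
  rw [hvrel, map_zero, coeff_zero] at h10
  have h11 : ((s - m + m).choose (s - m) : E) ≠ 0 := by
    exact_mod_cast (Nat.choose_pos (by omega)).ne'
  exact mul_ne_zero hx₀ (mul_ne_zero h11 hs0) h10.symm

theorem t_WR : S_WR := by
  intro E Ω _ _ _ _ d t u hu hd a ha hdeg hdet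
  set M : Matrix (Fin t) (Fin t) E[X] := Matrix.of fun l i => hasseDeriv (l : ℕ) (u i) with hM
  have h1 : aeval a M.det =
      (Matrix.of fun (l i : Fin t) => aeval a (hasseDeriv (l : ℕ) (u i))).det := by
    rw [AlgHom.map_det]
    rfl
  have h2 : M.det.natDegree ≤ t * d := by
    refine natDegree_det_le t d M fun l i => ?_
    exact ((natDegree_hasseDeriv_le (u i) l).trans (Nat.sub_le _ _)).trans (hd i)
  have h3 : M.det = 0 := by
    by_contra h
    have := natDegree_le_of_dvd (minpoly.dvd E a (h1.trans hdet)) h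
    omega
  obtain ⟨c, hc0, hc⟩ := Matrix.exists_vecMul_eq_zero_iff.2 h3
  exact ode t u hu c hc0 fun i => congrFun hc i

end Pool.Agent.Run7.h860.Hd
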