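import Pool.Agent.Run7.h860.Hd.Stm

/-!
Two more elementary pieces: highly transitive Galois action.
-/

set_option autoImplicit false

open Polynomial Finset

namespace Pool.Agent.Run7.h860.Hd

/-- The finite set `D` is stable under the automorphisms of `Ω` over `k`, and these act `d`-fold
transitively on it. -/
def Trans (k Ω : Type) [Field k] [Field Ω] [Algebra k Ω] (D : Finset Ω) (d : ℕ) : Prop :=
  (∀ σ : Ω ≃ₐ[k] Ω, ∀ a ∈ D, σ a ∈ D) ∧
  ∀ B : Finset Ω, B ⊆ D → B.card < d → ∀ a ∈ D, ∀ a' ∈ D, a ∉ B → a' ∉ B →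
    ∃ σ : Ω ≃ₐ[k] Ω, (∀ b ∈ B, σ b = b) ∧ σ a = a'

/-- **TR** Proof. `σ` fixes `k(B) = adjoin k B` pointwise, so that `a' = σ a` is a root of the minimal
polynomial of `a` over `k(B)`. Hence this has at least `#(D ∖ B) ≥ d ^ 2 + 1` roots in `Ω`. -/
def S_TR : Prop :=
  ∀ (k Ω : Type) [Field k] [Field Ω] [Algebra k Ω] [Algebra.IsAlgebraic k Ω] (D : Finset Ω) (d : ℕ),
    Trans k Ω D d → d ^ 2 + d ≤ D.card → GenPos k Ω D d

/-- **HR** Proof. (1) For two injective families `a, a' : Fin t → Ω` with values in `D`, `t ≤ d`, there is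
`σ` with `σ (a i) = a' i` for all `i` (induction over `t`: if `σ` does it for the first `j`, apply the
definition of `Trans` to `B = {a' i | i < j}` and `σ (a j)`, which is in `D` and not in `B`). (2) The rows
`(aeval a (e i))_i`, `a ∈ D`, have no common kernel: `∑ y i • e i` (over `Ω`) has degree at most `d` and
`d + 1` zeros, so it is zero, and `y i = ∑ P i l * (coefficient l)` is zero. So by EX (`J = ∅`) there is an
injective family `a0` in `D` such that `det (aeval (a0 i) (e j)) ≠ 0`. (3) For an enumeration `a1` of `A` and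
`σ` as in (1), `det (aeval (a1 i) (e j)) = σ (det (aeval (a0 i) (e j))) ≠ 0`. -/
def S_HR : Prop :=
  ∀ (k Ω : Type) [Field k] [Field Ω] [Algebra k Ω] (D : Finset Ω) (d t : ℕ),
    Trans k Ω D d → d + 1 ≤ D.card → t ≤ d → ∀ (e : Fin t → k[X]) (P : Fin t → Fin (d + 1) → k),
    (∀ i, (e i).natDegree ≤ d) →
    (∀ i j, ∑ l : Fin (d + 1), P i l * (e j).coeff l = if i = j then 1 else 0) →
    ∀ A ⊆ D, A.card = t → ∀ y : Fin t → Ω, (∀ a ∈ A, ∑ i, y i * aeval a (e i) = 0) → y = 0

end Pool.Agent.Run7.h860.Hd
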