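import Pool.Agent.Run7.h860.Hd.Step
import Pool.Agent.Run7.h860.Hd.Stm2

/-!
The local statement without cross terms.
-/

set_option autoImplicit false

open Finset Polynomial Module

namespace Pool.Agent.Run7.h860.Hd

open Pool.Agent.Run7.h860.Nk (mh_F toP toP_coeff toP_natDegree_le)

variable {A : Type} [Field A] (F : AbsoluteValue A ℝ)

/-- the sum of the Weil functions -/
noncomputable def W1 (D : Finset A) {d : ℕ} (z : Fin d → A) : ℝ := ∑ a ∈ D, ∑ i, lm F a (z i)

theorem loc_red (hLO : S_LO) (hDC : S_DC) (d t : ℕ) (D : Finset A) (htD : t ≤ D.card)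
    (c : ↥D × Fin (d + 1) → Fin t → A)
    (hker : ∀ B : Finset ↥D, B.card = t → ∀ y : Fin t → A,
      (∀ a ∈ B, ∑ i, c (a, 0) i * y i = 0) → y = 0) :
    LocS F d t D c 1 (W1 F D) := by
  classical
  obtain ⟨C1, hC10, hsep, hlow⟩ := exists_C1 F D
  set C2 : ℝ := d * Real.log 2 + d * C1 + d * Real.log (d + 1) with hC2
  set K1 : ℝ := D.card * (d * C1) with hK1
  refine ⟨t * K1 + (max t d : ℕ) * (t * C2), ?_⟩
  intro z N hN hcoef haz hnz
  set m : ↥D → Fin d → ℝ := fun a i => max (lm F a.1 (z i) - C1) 0 with hm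
  have hm0 : ∀ a i, 0 ≤ m a i := fun a i => le_max_right _ _
  have hm1 : ∀ a i, m a i ≤ lm F a.1 (z i) + C1 := by
    intro a i
    refine max_le (by linarith) ?_
    have := hlow a.1 a.2 (z i) (haz _ a.2 i)
    linarith
  have hm2 : ∀ a i, lm F a.1 (z i) ≤ m a i + C1 := by
    intro a i
    have : lm F a.1 (z i) - C1 ≤ m a i := le_max_left _ _
    linarith
  set Λ : ↥D → ℝ := fun a => ∑ i, m a i with hΛ
  have hΛ0 : ∀ a, 0 ≤ Λ a := fun a => Finset.sum_nonneg fun i _ => hm0 a i
  set A0 : Finset ↥D := univ.filter fun a => 0 < Λ a with hA0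
  have hA0d : A0.card ≤ d := by
    have hch : ∀ a : ↥A0, ∃ i : Fin d, 0 < m a.1 i := by
      intro a
      have h1 : 0 < ∑ i, m a.1 i := (Finset.mem_filter.1 a.2).2
      obtain ⟨i, -, hi⟩ := Finset.exists_lt_of_sum_lt (s := univ) (f := fun _ : Fin d => (0 : ℝ))
        (g := m a.1) (by simpa using h1)
      exact ⟨i, hi⟩
    choose g hg using hch
    have hinj : Function.Injective g := by
      intro a b hab
      by_contra hne'
      have hab' : a.1 ≠ b.1 := fun h => hne' (Subtype.ext h)
      have ha := hg a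
      have hb := hg b
      rw [← hab] at hb
      have h3 := hsep a.1.1 a.1.2 b.1.1 b.1.2 (fun h => hab' (Subtype.ext h)) (z (g a))
        (haz _ a.1.2 _) (haz _ b.1.2 _)
      have h4 : C1 < lm F a.1.1 (z (g a)) := by
        by_contra hc
        push Not at hc
        have : m a.1 (g a) = 0 := max_eq_right (by linarith)
        linarith
      have h5 : C1 < lm F b.1.1 (z (g a)) := by
        by_contra hc
        push Not at hc
        have : m b.1 (g a) = 0 := max_eq_right (by linarith)
        linarith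
      exact absurd h3 (not_le.2 (lt_min h4 h5))
    have h1 := Fintype.card_le_of_injective g hinj
    rwa [Fintype.card_coe, Fintype.card_fin] at h1
  -- choice of the largest ones
  set w : ↥D × ℕ → ℝ := fun p => if p.2 = 0 then Λ p.1 else 0 with hw
  have hw0 : ∀ p, 0 ≤ w p := by
    intro p
    simp only [hw]
    split_ifs
    · exact hΛ0 _
    · exact le_rfl
  have hinj0 : Function.Injective (fun a : ↥D => (a, (0 : ℕ))) := fun x y h => (Prod.ext_iff.1 h).1
  set I : Finset (↥D × ℕ) := A0.image fun a => (a, 0) with hI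
  have hIcard : I.card = A0.card := Finset.card_image_of_injective _ hinj0
  obtain ⟨J, hJI, -, hJc, hJw⟩ := hDC ↥D w hw0 (fun a j => by
      simp only [hw, Nat.succ_ne_zero, if_false]
      split_ifs
      · exact hΛ0 _
      · exact le_rfl) I (by
      intro a j h
      obtain ⟨b, -, hb⟩ := Finset.mem_image.1 h
      have := (Prod.ext_iff.1 hb).2
      simp at this) (min t I.card) (min_le_right _ _)
  obtain ⟨J1, hJ1, hJ1J⟩ : ∃ J1 ⊆ A0, J = J1.image fun a => (a, (0 : ℕ)) := by
    refine ⟨A0.filter fun a => (a, (0 : ℕ)) ∈ J, Finset.filter_subset _ _, ?_⟩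
    ext p
    constructor
    · intro hp
      obtain ⟨b, hb, hbp⟩ := Finset.mem_image.1 (hJI hp)
      refine Finset.mem_image.2 ⟨b, Finset.mem_filter.2 ⟨hb, ?_⟩, hbp⟩
      rw [hbp]
      exact hp
    · intro hp
      obtain ⟨b, hb, hbp⟩ := Finset.mem_image.1 hp
      rw [← hbp]
      exact (Finset.mem_filter.1 hb).2
  have hsI : ∑ p ∈ I, w p = ∑ a ∈ A0, Λ a := by
    rw [hI, Finset.sum_image fun x _ y _ h => hinj0 h]
    exact Finset.sum_congr rfl fun a _ => by simp [hw]
  have hsJ : ∑ p ∈ J, w p = ∑ a ∈ J1, Λ a := by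
    rw [hJ1J, Finset.sum_image fun x _ y _ h => hinj0 h]
    exact Finset.sum_congr rfl fun a _ => by simp [hw]
  have hJ1c : J1.card = min t A0.card := by
    rw [← hIcard, ← hJc, hJ1J, Finset.card_image_of_injective _ hinj0]
  rw [hsI, hsJ, hIcard] at hJw
  have hJw' : (t : ℝ) * ∑ a ∈ A0, Λ a ≤ (max t d : ℕ) * ∑ a ∈ J1, Λ a := by
    have hS : 0 ≤ ∑ a ∈ J1, Λ a := Finset.sum_nonneg fun p _ => hΛ0 p
    rcases le_total t A0.card with h | h
    · rw [min_eq_left h] at hJw
      refine hJw.trans (mul_le_mul_of_nonneg_right ?_ hS)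
      exact_mod_cast hA0d.trans (le_max_right _ _)
    · rw [min_eq_right h] at hJ1c
      have hJI' : J1 = A0 := Finset.eq_of_subset_of_card_le hJ1 (by omega)
      rw [hJI'] at hS ⊢
      refine mul_le_mul_of_nonneg_right ?_ hS
      exact_mod_cast le_max_left _ _
  obtain ⟨B, hJB, -, hBc⟩ := Finset.exists_subsuperset_card_eq (Finset.subset_univ J1)
    (n := t) (by rw [hJ1c]; exact min_le_left _ _) (by
      rw [Finset.card_univ, Fintype.card_coe]; exact htD)
  let e : Fin t ≃ ↥B := (Fintype.equivFinOfCardEq (by rw [Fintype.card_coe, hBc])).symm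
  have hdet : (Matrix.of fun i : Fin t => c ((e i).1, 0)).det ≠ 0 := by
    intro h0
    obtain ⟨y, hy0, hy⟩ := Matrix.exists_mulVec_eq_zero_iff.2 h0
    apply hy0
    refine hker B hBc y fun a ha => ?_
    have h1 := congrFun hy (e.symm ⟨a, ha⟩)
    simp only [Matrix.mulVec, dotProduct, Matrix.of_apply, Equiv.apply_symm_apply,
      Pi.zero_apply] at h1
    exact h1
  refine ⟨fun i => ((e i).1, 0), hdet, ?_⟩
  have hest : ∀ i : Fin t, Λ (e i).1 ≤ Real.log N -
      Real.log (F ((hasseDeriv (((0 : Fin (d + 1)) : ℕ)) (∏ i, (Polynomial.X - C (z i)))).eval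
        (e i).1.1)) + C2 := by
    intro i
    have hci : c ((e i).1, 0) ≠ 0 := by
      intro h0
      apply hdet
      exact Matrix.det_eq_zero_of_row_eq_zero i fun j => by
        show c ((e i).1, 0) j = 0
        rw [h0]
        rfl
    have hT := hnz ((e i).1, 0) hci
    have h1 := hLO A F d z (e i).1.1 (haz _ (e i).1.2) (((0 : Fin (d + 1)) : ℕ))
      (Λ (e i).1 - d * C1) (fun J hJ => by
        have hJe : J = ∅ := Finset.card_eq_zero.1 (by rw [hJ]; rfl)
        subst hJe
        rw [Finset.compl_empty]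
        have h3 : ∑ l, m (e i).1 l ≤ ∑ l, (lm F (e i).1.1 (z l) + C1) :=
          Finset.sum_le_sum fun l _ => hm1 _ l
        rw [Finset.sum_add_distrib, Finset.sum_const, nsmul_eq_mul, Finset.card_univ,
          Fintype.card_fin] at h3
        have h6 : ∑ l, lm F (e i).1.1 (z l) =
          ∑ l, Real.log (max 1 (F (z l)) / F ((e i).1.1 - z l)) := rfl
        have h7 : Λ (e i).1 = ∑ l, m (e i).1 l := rfl
        linarith)
    have hp : ∀ l, (0 : ℝ) < max 1 (F (z l)) := fun l => lt_max_of_lt_left one_pos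
    have h2 := Real.log_le_log (F.pos hT) h1
    rw [Real.log_mul (by
      have := Finset.prod_pos fun l (_ : l ∈ (univ : Finset (Fin d))) => hp l
      positivity) (Real.exp_pos _).ne', Real.log_exp, Real.log_mul (by positivity)
      (Finset.prod_pos fun l _ => hp l).ne', Real.log_pow,
      Real.log_prod fun l _ => (hp l).ne'] at h2
    have h3 := mh_F F z N hcoef hN
    rw [hC2]
    linarith
  have hW : W1 F D z ≤ ∑ a ∈ A0, Λ a + K1 := by
    have h1 : W1 F D z = ∑ a : ↥D, ∑ i, lm F a.1 (z i) :=
      (Finset.sum_coe_sort D fun a => ∑ i, lm F a (z i)).symm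
    rw [h1]
    have h2 : ∀ a : ↥D, ∑ i, lm F a.1 (z i) ≤ Λ a + d * C1 := by
      intro a
      have h4 : ∑ i, lm F a.1 (z i) ≤ ∑ i, (m a i + C1) := Finset.sum_le_sum fun i _ => hm2 a i
      simpa only [Finset.sum_add_distrib, Finset.sum_const, Finset.card_univ, Fintype.card_fin,
        nsmul_eq_mul] using h4
    refine (Finset.sum_le_sum fun a _ => h2 a).trans ?_
    rw [Finset.sum_add_distrib, Finset.sum_const, Finset.card_univ, Fintype.card_coe,
      nsmul_eq_mul]
    refine add_le_add (le_of_eq ?_) le_rfl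
    refine (Finset.sum_filter_of_ne fun a _ h => ?_).symm
    exact lt_of_le_of_ne (hΛ0 a) (Ne.symm h)
  have ht0 : (0 : ℝ) ≤ t := Nat.cast_nonneg t
  have hmx : (0 : ℝ) ≤ (max t d : ℕ) := Nat.cast_nonneg _
  have hfin : ∑ a ∈ J1, Λ a ≤ ∑ i : Fin t, (Real.log N -
      Real.log (F ((hasseDeriv (((0 : Fin (d + 1)) : ℕ)) (∏ i, (Polynomial.X - C (z i)))).eval
        (e i).1.1))) + t * C2 := by
    have h1 : ∑ a ∈ J1, Λ a ≤ ∑ a ∈ B, Λ a :=
      Finset.sum_le_sum_of_subset_of_nonneg hJB fun a _ _ => hΛ0 a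
    have h2 : ∑ a ∈ B, Λ a = ∑ i : Fin t, Λ (e i).1 := by
      rw [← Finset.sum_coe_sort B, ← Equiv.sum_comp e]
    rw [h2] at h1
    refine h1.trans ((Finset.sum_le_sum fun i _ => hest i).trans ?_)
    rw [Finset.sum_add_distrib, Finset.sum_const, Finset.card_univ, Fintype.card_fin,
      nsmul_eq_mul]
  have h1 := mul_le_mul_of_nonneg_left hW ht0
  have h2 := mul_le_mul_of_nonneg_left hfin hmx
  rw [one_mul]
  linarith

theorem ker_red {k : Type} [Field k] [Algebra k A] [CharZero k] (hHR : S_HR) (hHE : S_HE)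
    (D : Finset A) {d t : ℕ} (htr : Trans k A D d) (hD : d + 1 ≤ D.card) (htd : t ≤ d + 1)
    (e : Fin t → Fin (d + 1) → k) (P : Fin t → Fin (d + 1) → k)
    (hP : ∀ i j, ∑ l, P i l * e j l = if i = j then 1 else 0) :
    ∀ B : Finset ↥D, B.card = t → ∀ y : Fin t → A,
      (∀ a ∈ B, ∑ i, cf e a.1 ((0 : Fin (d + 1)) : ℕ) i * y i = 0) → y = 0 := by
  classical
  intro B hB y hy
  have hcf : ∀ (a : A) i, cf e a ((0 : Fin (d + 1)) : ℕ) i = aeval a (toP (e i)) := by
    intro a i
    simp only [cf, Fin.val_zero, hasseDeriv_zero, LinearMap.id_coe, id_eq]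
  rcases Nat.lt_or_ge d t with h | h
  · have hc : CharZero A := charZero_of_injective_algebraMap (algebraMap k A).injective
    have htd' : t = d + 1 := by omega
    set f : Polynomial A := ∑ i, C (y i) * (toP (e i)).map (algebraMap k A) with hf
    have hf0 : f = 0 := by
      refine hHE A (B.image Subtype.val) d f ?_ (fun _ => 1) ?_ ?_
      · refine natDegree_sum_le_of_forall_le _ _ fun i _ => ?_
        refine (natDegree_C_mul_le _ _).trans ?_
        rw [natDegree_map]
        exact toP_natDegree_le _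
      · rw [Finset.sum_const, smul_eq_mul, mul_one,
          Finset.card_image_of_injective _ Subtype.val_injective, hB, htd']
      · intro a ha j hj
        obtain ⟨a', ha', rfl⟩ := Finset.mem_image.1 ha
        have hj0 : j = 0 := by omega
        subst hj0
        rw [← hy a' ha', hf, map_sum, eval_finsetSum]
        refine Finset.sum_congr rfl fun i _ => ?_
        rw [hcf, ← smul_eq_C_mul, map_smul, eval_smul, smul_eq_mul, mul_comm, ← aeval_hd]
        simp only [hasseDeriv_zero, LinearMap.id_coe, id_eq]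
    have h1 : ∀ m : Fin (d + 1), ∑ l, y l * algebraMap k A (e l m) = 0 := by
      intro m
      have h2 := congrArg (fun p : Polynomial A => p.coeff (m : ℕ)) hf0
      simp only [hf, finsetSum_coeff, coeff_C_mul, coeff_map, toP_coeff, coeff_zero] at h2
      exact h2
    funext i
    have h5 : ∑ m, algebraMap k A (P i m) * ∑ l, y l * algebraMap k A (e l m) = y i := by
      calc ∑ m, algebraMap k A (P i m) * ∑ l, y l * algebraMap k A (e l m) =
            ∑ l, y l * algebraMap k A (∑ m, P i m * e l m) := by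
            simp only [Finset.mul_sum, map_sum, map_mul]
            rw [Finset.sum_comm]
            refine Finset.sum_congr rfl fun l _ => Finset.sum_congr rfl fun m _ => by ring
        _ = y i := by
            simp only [hP]
            rw [Finset.sum_eq_single i]
            · simp
            · intro l _ hl
              rw [if_neg (Ne.symm hl), map_zero, mul_zero]
            · intro h
              exact absurd (Finset.mem_univ _) h
    rw [← h5]
    exact Finset.sum_eq_zero fun m _ => by rw [h1 m, mul_zero]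
  · refine hHR k A D d t htr hD h (fun i => toP (e i)) P (fun i => toP_natDegree_le _)
      (fun i j => by simp only [toP_coeff]; exact hP i j) (B.image Subtype.val) ?_ ?_ y ?_
    · intro a ha
      obtain ⟨a', _, rfl⟩ := Finset.mem_image.1 ha
      exact a'.2
    · rw [Finset.card_image_of_injective _ Subtype.val_injective, hB]
    · intro a ha
      obtain ⟨a', ha', rfl⟩ := Finset.mem_image.1 ha
      rw [← hy a' ha']
      exact Finset.sum_congr rfl fun i _ => by rw [hcf, mul_comm]

end Pool.Agent.Run7.h860.Hd
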