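import Pool.Agent.Run7.h860.Hd.Gl
import Pool.Agent.Run7.h860.Hd.Red

/-!
Half of the arithmetic discriminant: the inequality for the points of degree `d`, `d` fixed.
-/

set_option autoImplicit false

open Finset Polynomial Module

namespace Pool.Agent.Run7.h860.Hd

open NumberField IsDedekindDomain Height
open Pool.Agent.W180.OP (Pl av wt nrm)

variable {k : Type} [Field k] [NumberField k]

/-- the sum of the Weil functions over the conjugates -/
noncomputable def lamSum (F : AbsoluteValue (AlgebraicClosure k) ℝ)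
    (D : Finset (AlgebraicClosure k)) {L : Type} [Field L] [NumberField L]
    [Algebra k L] (x : L) : ℝ :=
  ∑ σ : L →ₐ[k] AlgebraicClosure k, ∑ a ∈ D, lm F a (σ x)

/-- the sum over all pairs of conjugates -/
noncomputable def minSum (F : AbsoluteValue (AlgebraicClosure k) ℝ)
    (D : Finset (AlgebraicClosure k)) {L : Type} [Field L] [NumberField L]
    [Algebra k L] (x : L) : ℝ :=
  ∑ σ : L →ₐ[k] AlgebraicClosure k, ∑ τ : L →ₐ[k] AlgebraicClosure k,
    ∑ a ∈ D, min (lm F a (σ x)) (lm F a (τ x))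

theorem W1_eq (F : AbsoluteValue (AlgebraicClosure k) ℝ) (D : Finset (AlgebraicClosure k))
    {L : Type} [Field L] [NumberField L] [Algebra k L] (x : L) {d : ℕ}
    (e : Fin d ≃ (L →ₐ[k] AlgebraicClosure k)) :
    W1 F D (fun i => e i x) = lamSum F D x := by
  unfold W1 lamSum
  rw [Finset.sum_comm, ← Equiv.sum_comp e]

theorem W2_eq (F : AbsoluteValue (AlgebraicClosure k) ℝ) (D : Finset (AlgebraicClosure k))
    {L : Type} [Field L] [NumberField L] [Algebra k L] (x : L) {d : ℕ}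
    (e : Fin d ≃ (L →ₐ[k] AlgebraicClosure k)) :
    W2 F D (fun i => e i x) = minSum F D x + lamSum F D x := by
  have h1 : lamSum F D x = ∑ a ∈ D, ∑ i, lm F a (e i x) := (W1_eq F D x e).symm
  have h2 : minSum F D x = ∑ a ∈ D, ∑ i, ∑ l, min (lm F a (e i x)) (lm F a (e l x)) := by
    unfold minSum
    rw [← Equiv.sum_comp e, Finset.sum_comm (s := D)]
    refine Finset.sum_congr rfl fun i _ => ?_
    rw [← Equiv.sum_comp e, Finset.sum_comm (s := D)]
  rw [h1, h2, ← Finset.sum_add_distrib]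
  rfl

/-- general position, with cross terms -/
theorem half_gen (hGP : S_GP) (hHE : S_HE) (hSO : S_SO) (hLO : S_LO) (hDC : S_DC) (hEX : S_EX)
    (T : Finset (HeightOneSpectrum (𝓞 k)))
    (ψ : InfinitePlace k → AlgebraicClosure k →+* ℂ)
    (hψ : ∀ w, InfinitePlace.mk ((ψ w).comp (algebraMap k (AlgebraicClosure k))) = w)
    (G : HeightOneSpectrum (𝓞 k) → AbsoluteValue (AlgebraicClosure k) ℝ)
    (hG : ∀ v ∈ T, ∀ y : k, G v (algebraMap k (AlgebraicClosure k) y) = FinitePlace.mk v y)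
    (D : Finset (AlgebraicClosure k)) (hne : D.Nonempty) (d : ℕ) (hd : 0 < d)
    (hgen : GenPos k (AlgebraicClosure k) D d)
    (ε : ℝ) (hε : 0 < ε) (F : Pl k → AbsoluteValue (AlgebraicClosure k) ℝ)
    (hFi : ∀ w, ∀ y, F (Sum.inl w) y = ‖ψ w y‖) (hFf : ∀ v, F (Sum.inr v) = G v) :
    ∃ C0 : ℝ, ∀ (L : Type) [Field L] [NumberField L] [Algebra k L] (x : L),
      IntermediateField.adjoin k {x} = ⊤ → finrank k L = d →
      (∀ a ∈ D, ∀ σ : L →ₐ[k] AlgebraicClosure k, a ≠ σ x) →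
      ∑ v ∈ (Finset.univ : Finset (InfinitePlace k)).disjSum T,
        wt v * (minSum (F v) D x + lamSum (F v) D x) ≤
          2 * (d + 1) * (1 + ε) * logHeight₁ x + C0 := by
  obtain ⟨C0, hC0⟩ := main2 T ψ hψ G hG D hne d hd 2 (by norm_num) (fun G z => W2 G D z)
    (fun t e P ht htd hP G => by
      exact loc G hSO hLO hDC hEX d t htd D hne _ (ker_all hGP hHE D hgen htd e P hP)) ε hε F
    hFi hFf
  refine ⟨C0, fun L _ _ _ x h1 h2 h3 => ?_⟩
  obtain ⟨e0, he0⟩ := hC0 L x h1 h2 h3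
  simp only [W2_eq] at he0
  exact he0

/-- highly transitive Galois action, without cross terms -/
theorem half_tr (hHR : S_HR) (hHE : S_HE) (hLO : S_LO) (hDC : S_DC)
    (T : Finset (HeightOneSpectrum (𝓞 k)))
    (ψ : InfinitePlace k → AlgebraicClosure k →+* ℂ)
    (hψ : ∀ w, InfinitePlace.mk ((ψ w).comp (algebraMap k (AlgebraicClosure k))) = w)
    (G : HeightOneSpectrum (𝓞 k) → AbsoluteValue (AlgebraicClosure k) ℝ)
    (hG : ∀ v ∈ T, ∀ y : k, G v (algebraMap k (AlgebraicClosure k) y) = FinitePlace.mk v y)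
    (D : Finset (AlgebraicClosure k)) (d : ℕ) (hd : 0 < d) (hDc : d + 1 ≤ D.card)
    (htr : Trans k (AlgebraicClosure k) D d)
    (ε : ℝ) (hε : 0 < ε) (F : Pl k → AbsoluteValue (AlgebraicClosure k) ℝ)
    (hFi : ∀ w, ∀ y, F (Sum.inl w) y = ‖ψ w y‖) (hFf : ∀ v, F (Sum.inr v) = G v) :
    ∃ C0 : ℝ, ∀ (L : Type) [Field L] [NumberField L] [Algebra k L] (x : L),
      IntermediateField.adjoin k {x} = ⊤ → finrank k L = d →
      (∀ a ∈ D, ∀ σ : L →ₐ[k] AlgebraicClosure k, a ≠ σ x) →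
      ∑ v ∈ (Finset.univ : Finset (InfinitePlace k)).disjSum T,
        wt v * lamSum (F v) D x ≤ (d + 1) * (1 + ε) * logHeight₁ x + C0 := by
  have hne : D.Nonempty := Finset.card_pos.1 (by omega)
  obtain ⟨C0, hC0⟩ := main2 T ψ hψ G hG D hne d hd 1 (by norm_num) (fun G z => W1 G D z)
    (fun t e P ht htd hP G => by
      exact loc_red G hLO hDC d t D (htd.trans hDc) _
        (ker_red hHR hHE D htr hDc htd e P hP)) ε hε F hFi hFf
  refine ⟨C0, fun L _ _ _ x h1 h2 h3 => ?_⟩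
  obtain ⟨e0, he0⟩ := hC0 L x h1 h2 h3
  simp only [W1_eq, one_mul] at he0
  exact he0

theorem Trans.mono {Ω : Type} [Field Ω] {K : Type} [Field K] [Algebra K Ω] {D : Finset Ω}
    {r d : ℕ} (h : Trans K Ω D r) (hd : d ≤ r) : Trans K Ω D d :=
  ⟨h.1, fun B hB hBc => h.2 B hB (hBc.trans_le hd)⟩

theorem GenPos.mono {Ω : Type} [Field Ω] {K : Type} [Field K] [Algebra K Ω] {D : Finset Ω}
    {r d : ℕ} (h : GenPos K Ω D r) (hd : d ≤ r) : GenPos K Ω D d :=
  fun B hB hBc a ha haB => (Nat.pow_le_pow_left hd 2).trans_lt (h B hB (hBc.trans_le hd) a ha haB)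

end Pool.Agent.Run7.h860.Hd
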