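import Pool.Agent.Run7.h860.Hd.Core
import Pool.Agent.Run7.h860.Hd.Half

/-!
The inequality for general `D`, outside hyperplanes depending on `D` and `d` only: assembly.
-/

set_option autoImplicit false

open Finset Polynomial Module

namespace Pool.Agent.Run7.h860.Hd

open NumberField IsDedekindDomain Height
open Pool.Agent.W180.OP (Pl av wt nrm)
open Pool.Agent.R405 (Good)
open Pool.Agent.Run7.h860.Nk (toP toP_coeff toP_natDegree_le exists_enum good_inf good_fin ht_min)

section Alg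

variable {k A : Type} [Field k] [Field A] [Algebra k A]

/-- the standard basis -/
def idb (k : Type) [Field k] (d : ℕ) (i j : Fin (d + 1)) : k := if i = j then 1 else 0

theorem idb_mul (d : ℕ) (i j : Fin (d + 1)) :
    ∑ l, idb k d i l * idb k d j l = if i = j then 1 else 0 := by
  unfold idb
  simp

theorem toP_idb (d : ℕ) (j : Fin (d + 1)) : toP (idb k d j) = monomial (j : ℕ) 1 := by
  ext n
  rw [coeff_monomial]
  rcases Nat.lt_or_ge n (d + 1) with h | h
  · have h1 : (toP (idb k d j)).coeff n = idb k d j ⟨n, h⟩ := toP_coeff _ ⟨n, h⟩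
    rw [h1]
    unfold idb
    by_cases hj : (j : ℕ) = n
    · rw [if_pos hj, if_pos (Fin.ext hj)]
    · rw [if_neg hj, if_neg fun h2 => hj (congrArg Fin.val h2)]
  · have hj := j.2
    rw [if_neg (by omega),
      coeff_eq_zero_of_natDegree_lt ((toP_natDegree_le (idb k d j)).trans_lt (by omega))]

theorem cf_idb (d : ℕ) (a : A) (j : Fin (d + 1)) : cf (idb k d) a (j : ℕ) j = 1 := by
  unfold cf
  rw [toP_idb, hasseDeriv_monomial]
  simp

theorem ker_top (hHE : S_HE) [CharZero k] (D : Finset A) {d : ℕ}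
    (e : Fin (d + 1) → Fin (d + 1) → k) (P : Fin (d + 1) → Fin (d + 1) → k)
    (hP : ∀ i j, ∑ l, P i l * e j l = if i = j then 1 else 0) :
    ∀ ν : ↥D → ℕ, ∑ a, ν a = d + 1 → ∀ y : Fin (d + 1) → A,
      (∀ a, ∀ j : Fin (d + 1), (j : ℕ) < ν a → ∑ i, cf e a.1 (j : ℕ) i * y i = 0) → y = 0 := by
  classical
  intro ν hν y hy
  set ν' : A → ℕ := fun a => if h : a ∈ D then ν ⟨a, h⟩ else 0 with hν'
  have hsum : ∑ a ∈ D, ν' a = d + 1 := by
    rw [← hν, ← Finset.sum_coe_sort D]
    refine Finset.sum_congr rfl fun a _ => ?_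
    simp only [hν', dif_pos a.2]
  have hle : ∀ a, ν a ≤ d + 1 := fun a => by
    rw [← hν]
    exact Finset.single_le_sum (fun _ _ => Nat.zero_le _) (Finset.mem_univ a)
  have hy' : ∀ a ∈ D, ∀ j < ν' a, ∑ i, y i * aeval a (hasseDeriv j (toP (e i))) = 0 := by
    intro a ha j hj
    simp only [hν', dif_pos ha] at hj
    have h1 := hle ⟨a, ha⟩
    have h2 := hy ⟨a, ha⟩ ⟨j, by omega⟩ hj
    rw [← h2]
    exact Finset.sum_congr rfl fun i _ => mul_comm _ _
  have hc : CharZero A := charZero_of_injective_algebraMap (algebraMap k A).injective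
  set f : Polynomial A := ∑ i, C (y i) * (toP (e i)).map (algebraMap k A) with hf
  have hf0 : f = 0 := by
    refine hHE A D d f ?_ ν' hsum ?_
    · refine natDegree_sum_le_of_forall_le _ _ fun i _ => ?_
      refine (natDegree_C_mul_le _ _).trans ?_
      rw [natDegree_map]
      exact toP_natDegree_le _
    · intro a ha j hj
      rw [← hy' a ha j hj, hf, map_sum, eval_finsetSum]
      refine Finset.sum_congr rfl fun i _ => ?_
      rw [aeval_hd, ← smul_eq_C_mul, map_smul, eval_smul, smul_eq_mul]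
  have h1 : ∀ m : Fin (d + 1), ∑ l, y l * algebraMap k A (e l m) = 0 := by
    intro m
    have h2 := congrArg (fun p : Polynomial A => p.coeff (m : ℕ)) hf0
    simp only [hf, finsetSum_coeff, coeff_C_mul, coeff_map, toP_coeff, coeff_zero] at h2
    exact h2
  funext i
  have h5 : ∑ m, algebraMap k A (P i m) * ∑ l, y l * algebraMap k A (e l m) = y i := by
    calc ∑ m, algebraMap k A (P i m) * ∑ l, y l * algebraMap k A (e l m) =
          ∑ l, y l * algebraMap k A (∑ m, P i m * e l m) := by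
          simp only [Finset.mul_sum, map_sum, map_mul]
          rw [Finset.sum_comm]
          refine Finset.sum_congr rfl fun l _ => Finset.sum_congr rfl fun m _ => by ring
      _ = y i := by
          simp only [hP]
          rw [Finset.sum_eq_single i]
          · simp
          · intro l _ hl
            rw [if_neg (Ne.symm hl), map_zero, mul_zero]
          · intro h
            exact absurd (Finset.mem_univ _) h
  rw [← h5]
  exact Finset.sum_eq_zero fun m _ => by rw [h1 m, mul_zero]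

end Alg

variable {k : Type} [Field k] [NumberField k]

theorem main5 (D : Finset (AlgebraicClosure k)) (hne : D.Nonempty) (d : ℕ) (hd : 0 < d) :
    ∃ Z : Finset (Fin (d + 1) → k), (∀ q ∈ Z, q ≠ 0) ∧
    ∀ (T : Finset (HeightOneSpectrum (𝓞 k)))
    (ψ : InfinitePlace k → AlgebraicClosure k →+* ℂ)
    (_ : ∀ w, InfinitePlace.mk ((ψ w).comp (algebraMap k (AlgebraicClosure k))) = w)
    (G : HeightOneSpectrum (𝓞 k) → AbsoluteValue (AlgebraicClosure k) ℝ)
    (_ : ∀ v ∈ T, ∀ y : k, G v (algebraMap k (AlgebraicClosure k) y) = FinitePlace.mk v y)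
    (κ : ℝ) (_ : 0 ≤ κ) (W : AbsoluteValue (AlgebraicClosure k) ℝ →
      (Fin d → AlgebraicClosure k) → ℝ)
    (_ : ∀ G : AbsoluteValue (AlgebraicClosure k) ℝ,
      LocS G d (d + 1) D (fun p l => cf (idb k d) p.1.1 (p.2 : ℕ) l) κ (W G))
    (ε : ℝ) (_ : 0 < ε) (F : Pl k → AbsoluteValue (AlgebraicClosure k) ℝ)
    (_ : ∀ w, ∀ y, F (Sum.inl w) y = ‖ψ w y‖) (_ : ∀ v, F (Sum.inr v) = G v),
    ∃ C0 : ℝ, ∀ (L : Type) [Field L] [NumberField L] [Algebra k L] (x : L),
      IntermediateField.adjoin k {x} = ⊤ → finrank k L = d →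
      (∀ a ∈ D, ∀ σ : L →ₐ[k] AlgebraicClosure k, a ≠ σ x) →
      (∀ q ∈ Z, ∑ j : Fin (d + 1), q j * (minpoly k x).coeff j ≠ 0) →
      ∃ e0 : Fin d ≃ (L →ₐ[k] AlgebraicClosure k),
      ∑ v ∈ (Finset.univ : Finset (InfinitePlace k)).disjSum T,
        wt v * W (F v) (fun i => e0 i x) ≤ κ * (d + 1) * (1 + ε) * logHeight₁ x + C0 := by
  classical
  obtain ⟨K, iK, hNF, iA, hGal, φ, hi, hφ⟩ := Pool.Agent.R847.SN.exists_gal k
    (D : Set (AlgebraicClosure k))
    (Finset.finite_toSet _)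
  have hDK : ∀ a ∈ D, ∃ y : K, φ y = a := fun a ha => hφ a (by exact_mod_cast ha)
  choose yD hyD using fun a : ↥D => hDK a.1 a.2
  obtain ⟨Z, hZ0, hZ⟩ := gen_forms (k := k) (Nat.succ_pos d) hi
    (fun (p : ↥D × Fin (d + 1)) (l : Fin (d + 1)) => cf (idb k d) (yD p.1) (p.2 : ℕ) l)
    (fun p h => by
      have h1 := congrFun h p.2
      rw [cf_idb] at h1
      exact one_ne_zero h1)
  refine ⟨Z, hZ0, ?_⟩
  intro T ψ hψ G hG κ hκ W hloc ε hε F hFi hFf
  have hF : ∀ v ∈ (Finset.univ : Finset (InfinitePlace k)).disjSum T, ∀ x : k,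
      F v (algebraMap k (AlgebraicClosure k) x) = av v x := by
    intro v hv x
    rcases v with w | v
    · rw [hFi]
      have h1 := hψ w
      have h2 := congrArg (fun w : InfinitePlace k => w x) h1
      exact h2
    · rw [hFf, hG v (by simpa using hv)]
      rfl
  have hgood : ∀ v ∈ (Finset.univ : Finset (InfinitePlace k)).disjSum T,
      Good v ((F v).comp (φ : K →+* AlgebraicClosure k).injective) := by
    intro v hv
    rcases v with w | v
    · refine good_inf w ((ψ w).comp (φ : K →+* AlgebraicClosure k)) ?_ _ fun y => ?_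
      · rw [RingHom.comp_assoc]
        have h1 : (φ : K →+* AlgebraicClosure k).comp (algebraMap k K) =
            algebraMap k (AlgebraicClosure k) := φ.comp_algebraMap
        rw [h1]
        exact hψ w
      · exact hFi w (φ y)
    · refine good_fin v _ fun y => ?_
      show F (Sum.inr v) (φ (algebraMap k K y)) = _
      rw [φ.commutes, hF _ hv]
      rfl
  obtain ⟨Cs, hCs⟩ := hZ ((Finset.univ : Finset (InfinitePlace k)).disjSum T)
    (fun v => (F v).comp (φ : K →+* AlgebraicClosure k).injective) hgood ε hε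
  obtain ⟨C0, hC0⟩ := step_core (Nat.succ_pos d) le_rfl T F hF D hne κ hκ W (idb k d) (idb k d)
    (idb_mul d) hloc φ yD hyD ε hε Cs
  refine ⟨κ * (d + 1) * (1 + ε) * (finrank ℚ k * (d * Real.log 2)) + C0, ?_⟩
  intro L _ _ _ x hx hLd hxD hxZ
  obtain ⟨e0, h1, h2⟩ := exists_enum (k := k) x hx
  subst hLd
  refine ⟨e0, ?_⟩
  have hint : IsIntegral k x := IsIntegral.of_finite k x
  have hu0 : (fun l : Fin (finrank k L + 1) => (minpoly k x).coeff l) ≠ 0 := by
    intro h
    have h3 := congrFun h (Fin.last _)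
    have h4 : (minpoly k x).coeff (finrank k L) = 1 := by
      rw [← h1]
      exact minpoly.monic hint
    exact one_ne_zero (h4.symm.trans h3)
  obtain ⟨h5, h6⟩ := hCs (fun l => (minpoly k x).coeff l) hu0 hxZ
  have h3 := hC0 (minpoly k x) (fun l => (minpoly k x).coeff l) (fun i => e0 i x)
    (minpoly.monic hint) h1 (fun l => by
      unfold idb
      simp) h2 (fun a ha i => hxD a ha (e0 i)) (fun p _ => h5 p)
    (fun β hβ => by
      have := h6 β hβ
      exact_mod_cast this)
  have h4 := ht_min (k := k) x rfl (fun i => e0 i x) (fun i => e0 i) (fun i => rfl)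
    (minpoly k x) h2
  have h6 : κ * ((finrank k L : ℝ) + 1) * (1 + ε) *
      logHeight (fun l : Fin (finrank k L + 1) => (minpoly k x).coeff l) ≤
      κ * ((finrank k L : ℝ) + 1) * (1 + ε) * (logHeight₁ x +
        finrank ℚ k * ((finrank k L : ℝ) * Real.log 2)) :=
    mul_le_mul_of_nonneg_left h4 (by positivity)
  linarith

/-- general `D`, with cross terms, outside hyperplanes depending on `D` and `d` only -/
theorem half_all (hHE : S_HE) (hSO : S_SO) (hLO : S_LO) (hDC : S_DC) (hEX : S_EX)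
    (D : Finset (AlgebraicClosure k)) (hne : D.Nonempty) (d : ℕ) (hd : 0 < d) :
    ∃ Z : Finset (Fin (d + 1) → k), (∀ q ∈ Z, q ≠ 0) ∧
    ∀ (T : Finset (HeightOneSpectrum (𝓞 k)))
    (ψ : InfinitePlace k → AlgebraicClosure k →+* ℂ)
    (_ : ∀ w, InfinitePlace.mk ((ψ w).comp (algebraMap k (AlgebraicClosure k))) = w)
    (G : HeightOneSpectrum (𝓞 k) → AbsoluteValue (AlgebraicClosure k) ℝ)
    (_ : ∀ v ∈ T, ∀ y : k, G v (algebraMap k (AlgebraicClosure k) y) = FinitePlace.mk v y)
    (ε : ℝ) (_ : 0 < ε) (F : Pl k → AbsoluteValue (AlgebraicClosure k) ℝ)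
    (_ : ∀ w, ∀ y, F (Sum.inl w) y = ‖ψ w y‖) (_ : ∀ v, F (Sum.inr v) = G v),
    ∃ C0 : ℝ, ∀ (L : Type) [Field L] [NumberField L] [Algebra k L] (x : L),
      IntermediateField.adjoin k {x} = ⊤ → finrank k L = d →
      (∀ a ∈ D, ∀ σ : L →ₐ[k] AlgebraicClosure k, a ≠ σ x) →
      (∀ q ∈ Z, ∑ j : Fin (d + 1), q j * (minpoly k x).coeff j ≠ 0) →
      ∑ v ∈ (Finset.univ : Finset (InfinitePlace k)).disjSum T,
        wt v * (minSum (F v) D x + lamSum (F v) D x) ≤
          2 * (d + 1) * (1 + ε) * logHeight₁ x + C0 := by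
  obtain ⟨Z, hZ0, hZ⟩ := main5 D hne d hd
  refine ⟨Z, hZ0, ?_⟩
  intro T ψ hψ G hG ε hε F hFi hFf
  obtain ⟨C0, hC0⟩ := hZ T ψ hψ G hG 2 (by norm_num) (fun G z => W2 G D z)
    (fun G => by
      exact loc G hSO hLO hDC hEX d (d + 1) le_rfl D hne _
        (ker_top hHE D (idb k d) (idb k d) (idb_mul d))) ε hε F hFi hFf
  refine ⟨C0, fun L _ _ _ x h1 h2 h3 h4 => ?_⟩
  obtain ⟨e0, he0⟩ := hC0 L x h1 h2 h3 h4
  simp only [W2_eq] at he0
  exact he0

end Pool.Agent.Run7.h860.Hd
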