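import Pool.Agent.Run7.h860.Hd.Ind2

/-!
The inequality for the points of degree `d`.
-/

set_option autoImplicit false

open Finset Polynomial Module

namespace Pool.Agent.Run7.h860.Hd

open NumberField IsDedekindDomain Height
open Pool.Agent.W180.OP (Pl av wt nrm)
open Pool.Agent.R405 (Good)
open Pool.Agent.Run7.h860.Nk (toP exists_enum good_inf good_fin ht_min)

variable {k : Type} [Field k] [NumberField k]

theorem main2 (T : Finset (HeightOneSpectrum (𝓞 k)))
    (ψ : InfinitePlace k → AlgebraicClosure k →+* ℂ)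
    (hψ : ∀ w, InfinitePlace.mk ((ψ w).comp (algebraMap k (AlgebraicClosure k))) = w)
    (G : HeightOneSpectrum (𝓞 k) → AbsoluteValue (AlgebraicClosure k) ℝ)
    (hG : ∀ v ∈ T, ∀ y : k, G v (algebraMap k (AlgebraicClosure k) y) = FinitePlace.mk v y)
    (D : Finset (AlgebraicClosure k)) (hne : D.Nonempty) (d : ℕ) (hd : 0 < d)
    (κ : ℝ) (hκ : 0 ≤ κ) (W : AbsoluteValue (AlgebraicClosure k) ℝ →
      (Fin d → AlgebraicClosure k) → ℝ)
    (hloc : ∀ (t : ℕ) (e : Fin t → Fin (d + 1) → k) (P : Fin t → Fin (d + 1) → k), 0 < t →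
      t ≤ d + 1 → (∀ i j, ∑ l, P i l * e j l = if i = j then 1 else 0) →
      ∀ G : AbsoluteValue (AlgebraicClosure k) ℝ,
      LocS G d t D (fun p l => cf e p.1.1 (p.2 : ℕ) l) κ (W G))
    (ε : ℝ) (hε : 0 < ε) (F : Pl k → AbsoluteValue (AlgebraicClosure k) ℝ)
    (hFi : ∀ w, ∀ y, F (Sum.inl w) y = ‖ψ w y‖) (hFf : ∀ v, F (Sum.inr v) = G v) :
    ∃ C0 : ℝ, ∀ (L : Type) [Field L] [NumberField L] [Algebra k L] (x : L),
      IntermediateField.adjoin k {x} = ⊤ → finrank k L = d →
      (∀ a ∈ D, ∀ σ : L →ₐ[k] AlgebraicClosure k, a ≠ σ x) →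
      ∃ e0 : Fin d ≃ (L →ₐ[k] AlgebraicClosure k),
      ∑ v ∈ (Finset.univ : Finset (InfinitePlace k)).disjSum T,
        wt v * W (F v) (fun i => e0 i x) ≤ κ * (d + 1) * (1 + ε) * logHeight₁ x + C0 := by
  classical
  have hF : ∀ v ∈ (Finset.univ : Finset (InfinitePlace k)).disjSum T, ∀ x : k,
      F v (algebraMap k (AlgebraicClosure k) x) = av v x := by
    intro v hv x
    rcases v with w | v
    · rw [hFi]
      have h1 := hψ w
      have h2 := congrArg (fun w : InfinitePlace k => w x) h1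
      exact h2
    · rw [hFf, hG v (by simpa using hv)]
      rfl
  obtain ⟨K, iK, hNF, iA, hGal, φ, hi, hφ⟩ := Pool.Agent.R847.SN.exists_gal k
    (D : Set (AlgebraicClosure k))
    (Finset.finite_toSet _)
  have hDK : ∀ a ∈ D, ∃ y : K, φ y = a := fun a ha => hφ a (by exact_mod_cast ha)
  have hgood : ∀ v ∈ (Finset.univ : Finset (InfinitePlace k)).disjSum T,
      Good v ((F v).comp (φ : K →+* AlgebraicClosure k).injective) := by
    intro v hv
    rcases v with w | v
    · refine good_inf w ((ψ w).comp (φ : K →+* AlgebraicClosure k)) ?_ _ fun y => ?_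
      · rw [RingHom.comp_assoc]
        have h1 : (φ : K →+* AlgebraicClosure k).comp (algebraMap k K) =
            algebraMap k (AlgebraicClosure k) := φ.comp_algebraMap
        rw [h1]
        exact hψ w
      · exact hFi w (φ y)
    · refine good_fin v _ fun y => ?_
      show F (Sum.inr v) (φ (algebraMap k K y)) = _
      rw [φ.commutes, hF _ hv]
      rfl
  obtain ⟨C0, hC0⟩ := ind2 hd T F hF D hne κ hκ W hloc hi φ hgood hDK ε hε _ ⊤ rfl
  refine ⟨κ * (d + 1) * (1 + ε) * (finrank ℚ k * (d * Real.log 2)) + C0, ?_⟩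
  intro L _ _ _ x hx hLd hxD
  obtain ⟨e0, h1, h2⟩ := exists_enum (k := k) x hx
  subst hLd
  refine ⟨e0, ?_⟩
  have hint : IsIntegral k x := IsIntegral.of_finite k x
  have h3 := hC0 (minpoly k x) (fun i => e0 i x) (minpoly.monic hint) (minpoly.irreducible hint) h1
    trivial h2 (fun a ha i => hxD a ha (e0 i))
  have h4 := ht_min (k := k) x rfl (fun i => e0 i x) (fun i => e0 i) (fun i => rfl)
    (minpoly k x) h2
  have h6 : κ * ((finrank k L : ℝ) + 1) * (1 + ε) *
      logHeight (fun l : Fin (finrank k L + 1) => (minpoly k x).coeff l) ≤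
      κ * ((finrank k L : ℝ) + 1) * (1 + ε) * (logHeight₁ x +
        finrank ℚ k * ((finrank k L : ℝ) * Real.log 2)) :=
    mul_le_mul_of_nonneg_left h4 (by positivity)
  linarith

end Pool.Agent.Run7.h860.Hd
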