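import Pool.Agent.Run7.h860.Hd.Step
import Pool.Agent.Run7.h860.Hd.Gl
import Pool.Agent.R405.SchV

/-!
The inequality for general `D`, outside hyperplanes depending on `D` and `d` only.
-/

set_option autoImplicit false

open Finset Polynomial Module

namespace Pool.Agent.Run7.h860.Hd

open NumberField IsDedekindDomain Height
open Pool.Agent.W180.OP (Pl av wt nrm le_nrm nrm_pos nrm_nonneg exists_nrm wt_nonneg
  fv_support_finite)
open Pool.Agent.R405 (Good exists_good logHeight_sum nrm_finite projH schV descend dot exv)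
open Pool.Agent.Run7.h860.Nk (toP toP_coeff toP_natDegree_le toP_self colMap frmMap exists_enum
  good_inf good_fin ht_min)

variable {k : Type} [Field k] [NumberField k]

theorem step_core {d t : ℕ} (ht : 0 < t) (htd : t ≤ d + 1) (T : Finset (HeightOneSpectrum (𝓞 k)))
    (F : Pl k → AbsoluteValue (AlgebraicClosure k) ℝ)
    (hF : ∀ v ∈ (Finset.univ : Finset (InfinitePlace k)).disjSum T, ∀ x : k,
      F v (algebraMap k (AlgebraicClosure k) x) = av v x)
    (D : Finset (AlgebraicClosure k)) (hne : D.Nonempty)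
    (κ : ℝ) (hκ : 0 ≤ κ) (W : AbsoluteValue (AlgebraicClosure k) ℝ →
      (Fin d → AlgebraicClosure k) → ℝ)
    (e : Fin t → Fin (d + 1) → k) (P : Fin t → Fin (d + 1) → k)
    (hP : ∀ i j, ∑ l, P i l * e j l = if i = j then 1 else 0)
    (hloc : ∀ G : AbsoluteValue (AlgebraicClosure k) ℝ,
      LocS G d t D (fun p l => cf e p.1.1 (p.2 : ℕ) l) κ (W G))
    {K : Type} [Field K] [NumberField K] [Algebra k K]
    (φ : K →ₐ[k] AlgebraicClosure k) (yD : ↥D → K) (hyD : ∀ a, φ (yD a) = a.1)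
    (ε : ℝ) (hε : 0 < ε) (Cs : ℝ) :
    ∃ C0 : ℝ,
      ∀ (f : k[X]) (u : Fin t → k) (z : Fin d → AlgebraicClosure k),
        f.Monic → f.natDegree = d →
        (∀ l : Fin (d + 1), f.coeff l = ∑ j, u j * e j l) →
        f.map (algebraMap k (AlgebraicClosure k)) = ∏ i, (X - C (z i)) →
        (∀ a ∈ D, ∀ i, a ≠ z i) →
        (∀ p : ↥D × Fin (d + 1), (fun l => cf e (yD p.1) (p.2 : ℕ) l) ≠ 0 →
          ∑ j, cf e (yD p.1) (p.2 : ℕ) j * algebraMap k K (u j) ≠ 0) →
        (∀ β : Pl k → Fin t → ↥D × Fin (d + 1),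
          (∀ v ∈ (Finset.univ : Finset (InfinitePlace k)).disjSum T,
            (Matrix.of fun a => fun l => cf e (yD (β v a).1) ((β v a).2 : ℕ) l).det ≠ 0) →
          ∑ v ∈ (Finset.univ : Finset (InfinitePlace k)).disjSum T,
            wt v * ∑ a, (Real.log (nrm (av v) u) -
            Real.log ((F v).comp (φ : K →+* AlgebraicClosure k).injective
              (∑ j, cf e (yD (β v a).1) ((β v a).2 : ℕ) j * algebraMap k K (u j)))) ≤
          ((t : ℝ) + ε) * logHeight u + Cs) →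
        ∑ v ∈ (Finset.univ : Finset (InfinitePlace k)).disjSum T, wt v * W (F v) z ≤
          κ * (d + 1) * (1 + ε) * logHeight (fun l : Fin (d + 1) => f.coeff l) + C0 := by
  classical
  set S : Finset (Pl k) := (Finset.univ : Finset (InfinitePlace k)).disjSum T with hS
  set cK : ↥D × Fin (d + 1) → Fin t → K := fun p l => cf e (yD p.1) (p.2 : ℕ) l with hcK
  set cA : ↥D × Fin (d + 1) → Fin t → AlgebraicClosure k :=
    fun p l => cf e p.1.1 (p.2 : ℕ) l with hcA
  have hφc : ∀ p l, φ (cK p l) = cA p l := by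
    intro p l
    simp only [hcK, hcA, cf]
    rw [← aeval_algHom_apply, hyD]
  choose Cl hCl using fun v : Pl k => hloc (F v)
  obtain ⟨CP, hCP0, hCP⟩ := projH P S
  obtain ⟨CP', hCP'0, hCP'⟩ := projH P (∅ : Finset (Pl k))
  have ht0 : (0 : ℝ) < t := by exact_mod_cast ht
  have ht1 : (1 : ℝ) ≤ t := by exact_mod_cast ht
  have hmx0 : (0 : ℝ) ≤ (max t d : ℕ) := Nat.cast_nonneg _
  have hmx1 : ((max t d : ℕ) : ℝ) ≤ d + 1 := by
    exact_mod_cast max_le htd (Nat.le_succ d)
  refine ⟨(∑ v ∈ S, wt v * |Cl v| + κ * (max t d : ℕ) *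
    (ε * CP' + t * CP + Cs)) / t, ?_⟩
  intro f u z hmon hfd hfu hfz hz hnzK hβ
  set fv : Fin (d + 1) → k := fun l => f.coeff l with hfv
  have hlast : fv (Fin.last d) = 1 := by
    show f.coeff d = 1
    rw [← hfd]
    exact hmon
  have hfv0 : fv ≠ 0 := by
    intro h
    rw [h] at hlast
    exact zero_ne_one hlast
  have hPu : (fun i => ∑ j, P i j * fv j) = u := by
    funext i
    have h1 : ∀ l, fv l = ∑ j, u j * e j l := hfu
    calc ∑ l, P i l * fv l = ∑ l, P i l * ∑ j, u j * e j l :=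
          Finset.sum_congr rfl fun l _ => by rw [h1]
      _ = ∑ j, u j * ∑ l, P i l * e j l := by
          simp only [Finset.mul_sum]
          rw [Finset.sum_comm]
          refine Finset.sum_congr rfl fun l _ => Finset.sum_congr rfl fun j _ => by ring
      _ = u i := by
          simp only [hP, mul_ite, mul_one, mul_zero]
          rw [Finset.sum_ite_eq]
          simp
  have hu0 : u ≠ 0 := by
    intro h
    have h1 := hfu (Fin.last d)
    rw [h] at h1
    simp only [Pi.zero_apply, zero_mul, Finset.sum_const_zero] at h1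
    exact one_ne_zero (hlast.symm.trans h1)
  have hval : ∀ p, ∑ l, cA p l * algebraMap k (AlgebraicClosure k) (u l) =
      (hasseDeriv (p.2 : ℕ) (∏ i, (X - C (z i)))).eval p.1.1 := by
    intro p
    rw [← hfz]
    exact cf_sum e f hfd.le u hfu p.1.1 (p.2 : ℕ)
  have hvalK : ∀ p, φ (∑ l, cK p l * algebraMap k K (u l)) =
      (hasseDeriv (p.2 : ℕ) (∏ i, (X - C (z i)))).eval p.1.1 := by
    intro p
    rw [← hval, map_sum]
    refine Finset.sum_congr rfl fun l _ => ?_
    rw [map_mul, hφc, φ.commutes]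
  have hnz : ∀ p : ↥D × Fin (d + 1), cA p ≠ 0 →
      (hasseDeriv (p.2 : ℕ) (∏ i, (X - C (z i)))).eval p.1.1 ≠ 0 := by
    intro p hp h0
    rw [← hvalK] at h0
    refine hnzK p ?_ ((map_eq_zero φ).1 h0)
    intro h1
    apply hp
    funext l
    have h2 : cK p l = 0 := congrFun h1 l
    rw [← hφc, h2]
    simp
  have hcoef : ∀ v ∈ S, ∀ j, F v ((∏ i, (X - C (z i))).coeff j) ≤ nrm (av v) fv := by
    intro v hv j
    rw [← hfz, coeff_map, hF v hv]
    rcases Nat.lt_or_ge j (d + 1) with h | h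
    · exact le_nrm (av v) fv ⟨j, h⟩
    · rw [coeff_eq_zero_of_natDegree_lt (by omega), map_zero]
      exact nrm_nonneg _ _
  have hNpos : ∀ v, 0 < nrm (av v) fv := fun v => by
    have h1 := le_nrm (av v) fv (Fin.last d)
    rw [hlast, map_one] at h1
    linarith
  have hex : ∀ v : Pl k, ∃ s : Fin t → ↥D × Fin (d + 1), v ∈ S →
      (Matrix.of fun a => cA (s a)).det ≠ 0 ∧
      (t : ℝ) * W (F v) z ≤ κ * (max t d : ℕ) * ∑ i, (Real.log (nrm (av v) fv) -
        Real.log (F v ((hasseDeriv ((s i).2 : ℕ) (∏ i, (X - C (z i)))).eval (s i).1.1))) +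
        Cl v := by
    intro v
    by_cases hv : v ∈ S
    · obtain ⟨s, h1, h2⟩ := hCl v z (nrm (av v) fv) (hNpos v) (hcoef v hv) hz hnz
      exact ⟨s, fun _ => ⟨h1, h2⟩⟩
    · obtain ⟨a0, ha0⟩ := hne
      exact ⟨fun _ => (⟨a0, ha0⟩, 0), fun h => absurd h hv⟩
  choose β hβ1 using hex
  have hdet : ∀ v ∈ S, (Matrix.of fun a => cK (β v a)).det ≠ 0 := by
    intro v hv h0
    apply (hβ1 v hv).1
    have h1 : (Matrix.of fun a => cA (β v a)) =
        (φ : K →+* AlgebraicClosure k).mapMatrix (Matrix.of fun a => cK (β v a)) := by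
      ext a j
      simp only [Matrix.of_apply, RingHom.mapMatrix_apply, Matrix.map_apply, RingHom.coe_coe]
      rw [hφc]
    rw [h1, ← RingHom.map_det, h0, map_zero]
  have h1 := hβ β hdet
  have h2 := hCP fv (by rw [hPu]; exact hu0)
  have h3 := hCP' fv (by rw [hPu]; exact hu0)
  rw [hPu] at h2 h3
  rw [Finset.sum_empty, add_zero] at h3
  have hh0 : 0 ≤ logHeight fv := logHeight_nonneg _
  have hhu0 : 0 ≤ logHeight u := logHeight_nonneg _
  have h4 : ∑ v ∈ S, wt v * ∑ i, (Real.log (nrm (av v) fv) -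
      Real.log (F v ((hasseDeriv ((β v i).2 : ℕ) (∏ i, (X - C (z i)))).eval (β v i).1.1))) =
      ∑ v ∈ S, wt v * ∑ a, (Real.log (nrm (av v) u) -
        Real.log ((F v).comp (φ : K →+* AlgebraicClosure k).injective
          (∑ j, cK (β v a) j * algebraMap k K (u j)))) +
      t * ∑ v ∈ S, wt v * (Real.log (nrm (av v) fv) - Real.log (nrm (av v) u)) := by
    rw [Finset.mul_sum, ← Finset.sum_add_distrib]
    refine Finset.sum_congr rfl fun v hv => ?_
    have h5 : ∀ i, (F v).comp (φ : K →+* AlgebraicClosure k).injective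
        (∑ j, cK (β v i) j * algebraMap k K (u j)) =
        F v ((hasseDeriv ((β v i).2 : ℕ) (∏ i, (X - C (z i)))).eval (β v i).1.1) := by
      intro i
      rw [← hvalK]
      rfl
    simp only [h5, Finset.sum_sub_distrib, Finset.sum_const, Finset.card_univ, Fintype.card_fin,
      nsmul_eq_mul]
    ring
  have h6 : (t : ℝ) * ∑ v ∈ S, wt v * W (F v) z ≤ κ * (max t d : ℕ) *
      ∑ v ∈ S, wt v * ∑ i, (Real.log (nrm (av v) fv) -
      Real.log (F v ((hasseDeriv ((β v i).2 : ℕ) (∏ i, (X - C (z i)))).eval (β v i).1.1))) +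
      ∑ v ∈ S, wt v * |Cl v| := by
    rw [Finset.mul_sum, Finset.mul_sum, ← Finset.sum_add_distrib]
    refine Finset.sum_le_sum fun v hv => ?_
    have h7 := (hβ1 v hv).2
    have h8 := le_abs_self (Cl v)
    have h9 := mul_le_mul_of_nonneg_left (h7.trans (add_le_add le_rfl h8)) (wt_nonneg v)
    calc (t : ℝ) * (wt v * W (F v) z) = wt v * ((t : ℝ) * W (F v) z) := by ring
      _ ≤ _ := h9
      _ = _ := by ring
  rw [h4] at h6
  have h7 : ∑ v ∈ S, wt v * ∑ a, (Real.log (nrm (av v) u) -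
        Real.log ((F v).comp (φ : K →+* AlgebraicClosure k).injective
          (∑ j, cK (β v a) j * algebraMap k K (u j)))) +
      t * ∑ v ∈ S, wt v * (Real.log (nrm (av v) fv) - Real.log (nrm (av v) u)) ≤
      (t + ε) * logHeight fv + (ε * CP' + t * CP + Cs) := by
    have h8 : ε * logHeight u ≤ ε * (logHeight fv + CP') := mul_le_mul_of_nonneg_left h3 hε.le
    have h9 : (t : ℝ) * ∑ v ∈ S, wt v * (Real.log (nrm (av v) fv) - Real.log (nrm (av v) u)) ≤
        t * (logHeight fv + CP - logHeight u) :=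
      mul_le_mul_of_nonneg_left (by linarith) ht0.le
    nlinarith
  have h8 := h6.trans (add_le_add (mul_le_mul_of_nonneg_left h7
    (by positivity : (0 : ℝ) ≤ κ * (max t d : ℕ))) le_rfl)
  have h9 : ∑ v ∈ S, wt v * W (F v) z ≤ (κ * (max t d : ℕ) * ((t + ε) * logHeight fv +
      (ε * CP' + t * CP + Cs)) + ∑ v ∈ S, wt v * |Cl v|) / t := by
    rw [le_div_iff₀ ht0, mul_comm]
    exact h8
  refine h9.trans ?_
  have h10 : (κ * ((max t d : ℕ) : ℝ) * ((t + ε) * logHeight fv +
      (ε * CP' + t * CP + Cs)) + ∑ v ∈ S, wt v * |Cl v|) / t =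
      κ * (max t d : ℕ) * (1 + ε / t) * logHeight fv +
      (∑ v ∈ S, wt v * |Cl v| + κ * (max t d : ℕ) * (ε * CP' + t * CP + Cs)) / t := by
    field_simp
    ring
  rw [h10]
  refine add_le_add ?_ le_rfl
  have h11 : ε / t ≤ ε := div_le_self hε.le ht1
  have h12 : 0 ≤ ε / t := by positivity
  gcongr

/-- the subspace theorem with exceptional hyperplanes depending on the forms only -/
theorem gen_forms {t : ℕ} (ht : 0 < t) {K : Type} [Field K] [NumberField K]
    [Algebra k K] [IsGalois ℚ K] (hi : ∃ z : K, z ^ 2 = -1)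
    {ι : Type} [Fintype ι] [DecidableEq ι] (c : ι → Fin t → K) (hc : ∀ i, c i ≠ 0) :
    ∃ Z : Finset (Fin t → k), (∀ q ∈ Z, q ≠ 0) ∧
      ∀ (S : Finset (Pl k)) (f : Pl k → AbsoluteValue K ℝ), (∀ v ∈ S, Good v (f v)) →
      ∀ ε : ℝ, 0 < ε → ∃ C0 : ℝ,
      ∀ u : Fin t → k, u ≠ 0 → (∀ q ∈ Z, ∑ j, q j * u j ≠ 0) →
        (∀ i, ∑ j, c i j * algebraMap k K (u j) ≠ 0) ∧
        ∀ β : Pl k → Fin t → ι, (∀ v ∈ S, (Matrix.of fun a => c (β v a)).det ≠ 0) →
          ∑ v ∈ S, wt v * ∑ a, (Real.log (nrm (av v) u) -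
            Real.log (f v (∑ j, c (β v a) j * algebraMap k K (u j)))) ≤
          ((t : ℝ) + ε) * logHeight u + C0 := by
  classical
  haveI : FiniteDimensional k K := by
    haveI : IsScalarTower ℚ k K := inferInstance
    exact Module.Finite.of_restrictScalars_finite ℚ k K
  obtain ⟨Z1, hZ1, h1⟩ := schV (k := k) (K := K) hi ht c
  choose m hm0 hm using fun i => descend (k := k) (c i) (hc i)
  refine ⟨Z1 ∪ Finset.univ.image m, ?_, ?_⟩
  · intro q hq
    rcases Finset.mem_union.1 hq with h | h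
    · exact hZ1 q h
    · obtain ⟨i, -, rfl⟩ := Finset.mem_image.1 h
      exact hm0 i
  · intro S f hf ε hε
    obtain ⟨C0, -, h2⟩ := h1 S f hf ε hε
    refine ⟨C0, fun u hu hq => ?_⟩
    have h3 : ∀ i, ∑ j, c i j * algebraMap k K (u j) ≠ 0 := fun i =>
      hm i u (hq (m i) (Finset.mem_union_right _ (Finset.mem_image_of_mem _ (Finset.mem_univ i))))
    exact ⟨h3, fun β hβ => h2 u hu (fun z hz => hq z (Finset.mem_union_left _ hz)) h3 β hβ⟩

end Pool.Agent.Run7.h860.Hd
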