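import Mathlib

/-!
# Half of the arithmetic discriminant: the statements of the elementary pieces

Target (MP_6f1c57_nt): `k` a number field, `D` a finite set of algebraic numbers in general position
over `k` (`GenPos` below). For all finite `S`, all `ε > 0` and ALL algebraic numbers `x` of degree `d`
over `k`: `m_S(D, x) - 2 h(x) ≤ ε h(x) + 1/2 ((2 d - 2) h(x) - cross terms) + C`.

Plan: `f` = minimal polynomial of `x`, in a `k`-space `U` of polynomials of degree at most `d`, of
dimension `t`. At each place `v` of `S` a basis of the dual of `U` is chosen among the Taylor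
coefficients `f ↦ (hasseDeriv j f).eval a`, `a ∈ D`, so that the sum of the `log (‖f‖ / |.|)` is as
large as possible; by general position (piece GP, from WR) all down-closed sets of at most `t` Taylor
coefficients are independent on `U`, so the sum is at least `t / max(t, d)` times
`∑_a ∑_i i λ_(i)^(a)` (pieces SO, LO, DC, EX). The subspace theorem in `U` and induction over `U`
(helper860) finish the proof.
-/

set_option autoImplicit false

open Polynomial Finset

namespace Pool.Agent.Run7.h860.Hd

/-- **WR** (Wronskian at a point of large degree). Proof. Put `M l i = hasseDeriv l (u i)`, a matrix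
over `E[X]`, and `P = det M`, `natDegree P ≤ t * d`. By `RingHom.map_det` the determinant below is
`aeval a P`; if it is `0` then `P = 0` (otherwise `natDegree (minpoly E a) ≤ natDegree P`,
`Polynomial.natDegree_le_of_dvd`). By `Matrix.exists_vecMul_eq_zero_iff` there is `c : Fin t → E[X]`,
`c ≠ 0`, with `∑ l, c l * hasseDeriv l (u i) = 0` for all `i`. Let `m` be the largest index with
`c m ≠ 0`, and `x₀ : E` with `(c m).eval x₀ ≠ 0` (`E` is infinite). As `m < t` there is `y : Fin t → E`,
`y ≠ 0`, such that `v = ∑ y i • u i` satisfies `(hasseDeriv j v).eval x₀ = 0` for all `j < m` (fewer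
equations than unknowns: `Matrix.exists_mulVec_eq_zero_iff` after adding zero rows, or
`LinearMap.exists_ne_zero...`). `v ≠ 0` by independence and `∑ l, c l * hasseDeriv l v = 0`. Let `s` be
the least index with `τ s := (taylor x₀ v).coeff s ≠ 0`, so `m ≤ s` (`taylor_coeff`). Take the
coefficient of index `s - m` of the Taylor expansion at `x₀` of `∑ l, c l * hasseDeriv l v`: by
`hasseDeriv_comp` the coefficient `n` of `taylor x₀ (hasseDeriv l v)` is `(n + l).choose n * τ (n + l)`,
so that only `l = m` contributes, and the coefficient is `(c m).eval x₀ * s.choose m * τ s ≠ 0`. -/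
def S_WR : Prop :=
  ∀ (E Ω : Type) [Field E] [Field Ω] [Algebra E Ω] [CharZero E] (d t : ℕ) (u : Fin t → E[X]),
    LinearIndependent E u → (∀ i, (u i).natDegree ≤ d) → ∀ a : Ω, IsIntegral E a →
    t * d < (minpoly E a).natDegree →
    (Matrix.of fun (l i : Fin t) => aeval a (hasseDeriv (l : ℕ) (u i))).det ≠ 0

/-- General position of a finite set `D` over `k`, for the degree `d`: adjoining fewer than `d` points
of `D`, all other points of `D` have degree more than `d ^ 2` over the field obtained. -/
def GenPos (k Ω : Type) [Field k] [Field Ω] [Algebra k Ω] (D : Finset Ω) (d : ℕ) : Prop :=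
  ∀ B : Finset Ω, B ⊆ D → B.card < d → ∀ a ∈ D, a ∉ B →
    d ^ 2 < (minpoly (IntermediateField.adjoin k (B : Set Ω)) a).natDegree

/-- **GP** (general position). All the conditions `(hasseDeriv j f).eval a = 0`, `j < ν a`, together
force an element `f = ∑ y i * e i` of the `Ω`-span of `t ≤ d` independent polynomials over `k` to be
zero, if `∑ ν a = t`.

Proof. Induction over the number of points `a` with `ν a > 0`, with the following more general
statement: `B ⊆ D`, `K_B = adjoin k B`, the `e i : Ω[X]` are linearly independent over `Ω`, of degree at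
most `d`, with all coefficients in `K_B`, `ν b = 0` for `b ∈ B` and `B.card + ∑ ν a ≤ d`, `∑ ν a = t`. If
`t = 0` nothing is to be shown. Otherwise let `m = ν a > 0`, so `a ∉ B`. Lift the `e i` to `K_B[X]` and
apply WR (`t * d ≤ d ^ 2`): the matrix `M j i = (hasseDeriv j (e i)).eval a`, `j, i < t`, is invertible; its
entries, hence those of `N = M⁻¹`, are in `K_{B ∪ {a}}`. `M y` has the entries `0` for `j < m`, so that
`y = N w`, `w j = 0` for `j < m`. Put `e' s = ∑ i, N i (m + s) * e i` for `s < t - m`: these are independent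
(apply the Taylor coefficients at `a`: `M N = 1`), their coefficients are in `K_{B ∪ {a}}` and
`∑ y i e i = ∑ s, w (m + s) e' s`. By induction (`B ∪ {a}`, `ν` changed to `0` at `a`; its sum is `t - m`,
and `B.card + 1 + t - m ≤ d`) `w = 0`, so `y = 0`.
For the start: the `e i` are independent over `Ω`, for instance because the matrix `M` of WR at any
point `a` of `D` with `ν a > 0` is invertible. -/
def S_GP : Prop :=
  ∀ (k Ω : Type) [Field k] [Field Ω] [Algebra k Ω] [CharZero k] [Algebra.IsAlgebraic k Ω]
    (D : Finset Ω) (d : ℕ), GenPos k Ω D d → ∀ (t : ℕ) (e : Fin t → k[X]), t ≤ d →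
    LinearIndependent k e → (∀ i, (e i).natDegree ≤ d) →
    ∀ ν : Ω → ℕ, ∑ a ∈ D, ν a = t → ∀ y : Fin t → Ω,
    (∀ a ∈ D, ∀ j < ν a, ∑ i, y i * aeval a (hasseDeriv j (e i)) = 0) → y = 0

/-- **HE** (Hermite): a polynomial of degree at most `d` with `d + 1` zeros, counted with multiplicity,
is zero. Proof: `(X - C a) ^ (ν a) ∣ f` (Taylor expansion at `a`: `taylor_coeff`), the factors are
coprime (`Finset.prod_dvd_of_coprime`), so the product, of degree `d + 1`, divides `f`. -/
def S_HE : Prop :=
  ∀ (Ω : Type) [Field Ω] [CharZero Ω] (D : Finset Ω) (d : ℕ) (f : Polynomial Ω), f.natDegree ≤ d →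
    ∀ ν : Ω → ℕ, ∑ a ∈ D, ν a = d + 1 →
    (∀ a ∈ D, ∀ j < ν a, (hasseDeriv j f).eval a = 0) → f = 0

/-- a set of pairs `(i, j)` which contains with `(i, j + 1)` also `(i, j)` -/
def Down {ι : Type} (I : Finset (ι × ℕ)) : Prop := ∀ i j, (i, j + 1) ∈ I → (i, j) ∈ I

/-- **DC** (choice of a down-closed set of large weight). Proof. Induction over `I.card - n`: if
`n < I.card` let `p ∈ I` have minimal weight and, among the elements `(p.1, j)` of `I` let `j` be
maximal; its weight is also minimal, and `I.erase (p.1, j)` is down-closed. The sum over it is at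
least `(|I| - 1) / |I|` times the sum over `I`. -/
def S_DC : Prop :=
  ∀ (ι : Type) [DecidableEq ι] (w : ι × ℕ → ℝ), (∀ p, 0 ≤ w p) → (∀ i j, w (i, j + 1) ≤ w (i, j)) →
    ∀ I : Finset (ι × ℕ), Down I → ∀ n : ℕ, n ≤ I.card →
    ∃ J ⊆ I, Down J ∧ J.card = n ∧ (n : ℝ) * ∑ p ∈ I, w p ≤ I.card * ∑ p ∈ J, w p

/-- **EX** (extension to a basis): a spanning family of rows, an independent part of it. Proof:
`exists_linearIndependent_extension` or `LinearIndependent.extend`, then count. -/
def S_EX : Prop :=
  ∀ (L ι : Type) [Field L] [Fintype ι] [DecidableEq ι] (n : ℕ) (c : ι → Fin n → L),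
    (∀ y : Fin n → L, (∀ i, ∑ j, c i j * y j = 0) → y = 0) →
    ∀ J : Finset ι, LinearIndependent L (fun i : J => c i) →
    ∃ s : Fin n → ι, (Matrix.of fun a => c (s a)).det ≠ 0 ∧ Function.Injective s ∧
      ∀ i ∈ J, ∃ a, s a = i

/-- **SO** (sorted sums). Proof. Let `σ = Tuple.sort m`, so that `g = m ∘ σ` is monotone, and
`G j = ∑_{i < d - j} g i` (the sum of the `d - j` smallest values; `0` for `j ≥ d`).
(1): `∑_{i, l} min (g i) (g l) = ∑_i (2 (d - i) - 1) g i`. (2): the sum of any `d - j` values is at least the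
sum of the `d - j` smallest ones. (3), (4) are clear from `m ≥ 0`; in (4) at least `d - j` of the values
are zero. -/
def S_SO : Prop :=
  ∀ (d : ℕ) (m : Fin d → ℝ), (∀ i, 0 ≤ m i) → ∃ G : ℕ → ℝ,
    2 * ∑ j ∈ range d, G j = ∑ i, ∑ l, min (m i) (m l) + ∑ i, m i ∧
    (∀ J : Finset (Fin d), G J.card ≤ ∑ i ∈ Jᶜ, m i) ∧
    (∀ j, G (j + 1) ≤ G j ∧ 0 ≤ G j) ∧
    (∀ j, (univ.filter fun i => 0 < m i).card ≤ j → G j = 0)

/-- **LO** (local estimate). Proof. `taylor a (∏ (X - C (z i))) = ∏ (X + C (a - z i))`, the coefficient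
of index `j` is `(hasseDeriv j _).eval a` (`taylor_coeff`) and is, by `Finset.prod_X_add_C_coeff` (or
`Finset.prod_add`), the sum over the sets `J` of `j` indices of `∏_{i ∉ J} (a - z i)`. For such a `J` one has
`∏_{i ∉ J} F (a - z i) = ∏_{i ∉ J} max 1 (F (z i)) exp (- lam i) ≤ (∏ i, max 1 (F (z i))) exp (- G)`, and there
are at most `2 ^ d` sets `J`. -/
def S_LO : Prop :=
  ∀ (K : Type) [Field K] (F : AbsoluteValue K ℝ) (d : ℕ) (z : Fin d → K) (a : K),
    (∀ i, a ≠ z i) → ∀ (j : ℕ) (G : ℝ),
    (∀ J : Finset (Fin d), J.card = j → G ≤ ∑ i ∈ Jᶜ, Real.log (max 1 (F (z i)) / F (a - z i))) →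
    F ((hasseDeriv j (∏ i, (X - C (z i)))).eval a) ≤
      2 ^ d * (∏ i, max 1 (F (z i))) * Real.exp (-G)

end Pool.Agent.Run7.h860.Hd
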