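import Mathlib
import Pool.Agent.Run7.h860.Hd.Stm

/-!
Independence of down-closed sets of Taylor coefficients.
-/

set_option autoImplicit false

open Finset Module

namespace Pool.Agent.Run7.h860.Hd

/-- a down-closed set is determined by its columns -/
theorem down_mem {ι : Type} [DecidableEq ι] (J : Finset (ι × ℕ)) (hJ : Down J) (a : ι) (j : ℕ) :
    (a, j) ∈ J ↔ j < (J.filter fun p => p.1 = a).card := by
  classical
  have hdown : ∀ n m : ℕ, (a, n + m) ∈ J → (a, n) ∈ J := by
    intro n m
    induction m with
    | zero => exact id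
    | succ m ih => exact fun h => ih (hJ a (n + m) h)
  constructor
  · intro h
    have h1 : (Finset.range (j + 1)).image (fun i => (a, i)) ⊆ J.filter fun p => p.1 = a := by
      intro p hp
      obtain ⟨i, hi, rfl⟩ := Finset.mem_image.1 hp
      refine Finset.mem_filter.2 ⟨?_, rfl⟩
      have hi' := Finset.mem_range.1 hi
      refine hdown i (j - i) ?_
      rw [Nat.add_sub_cancel' (by omega)]
      exact h
    have h2 := Finset.card_le_card h1
    rw [Finset.card_image_of_injective _ (fun x y h => (Prod.ext_iff.1 h).2), Finset.card_range]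
      at h2
    omega
  · intro h
    by_contra hn
    have h1 : (J.filter fun p => p.1 = a) ⊆ (Finset.range j).image (fun i => (a, i)) := by
      rintro ⟨b, i⟩ hp
      obtain ⟨hp1, hp2⟩ := Finset.mem_filter.1 hp
      simp only at hp2
      subst hp2
      refine Finset.mem_image.2 ⟨i, Finset.mem_range.2 ?_, rfl⟩
      by_contra hij
      exact hn (hdown j (i - j) (by rw [Nat.add_sub_cancel' (by omega)]; exact hp1))
    have h2 := Finset.card_le_card h1
    rw [Finset.card_image_of_injective _ (fun x y h => (Prod.ext_iff.1 h).2), Finset.card_range]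
      at h2
    omega

theorem sum_cols {ι : Type} [DecidableEq ι] [Fintype ι] (J : Finset (ι × ℕ)) :
    ∑ a, (J.filter fun p => p.1 = a).card = J.card :=
  (Finset.card_eq_sum_card_fiberwise fun p _ => Finset.mem_univ p.1).symm

theorem indep {ι Ω : Type} [Fintype ι] [DecidableEq ι] [Nonempty ι] [Field Ω] {d t : ℕ}
    (htd : t ≤ d + 1) (c : ι × Fin (d + 1) → Fin t → Ω)
    (hker : ∀ ν : ι → ℕ, ∑ a, ν a = t → ∀ y : Fin t → Ω,
      (∀ a, ∀ j : Fin (d + 1), (j : ℕ) < ν a → ∑ i, c (a, j) i * y i = 0) → y = 0)
    (J : Finset (ι × ℕ)) (hJ : Down J) (hJt : J.card ≤ t) :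
    LinearIndependent Ω (fun p : (univ.filter fun p : ι × Fin (d + 1) => (p.1, (p.2 : ℕ)) ∈ J :
      Finset (ι × Fin (d + 1))) => c p) := by
  classical
  obtain ⟨a0⟩ := ‹Nonempty ι›
  set ν : ι → ℕ := fun a => (J.filter fun p => p.1 = a).card +
    if a = a0 then t - J.card else 0 with hν
  have hsum : ∑ a, ν a = t := by
    simp only [hν, Finset.sum_add_distrib, sum_cols, Finset.sum_ite_eq', Finset.mem_univ, if_true]
    omega
  have hνt : ∀ a, ν a ≤ t := fun a => by
    rw [← hsum]
    exact Finset.single_le_sum (fun _ _ => Nat.zero_le _) (Finset.mem_univ a)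
  set J2 : Finset (ι × Fin (d + 1)) := univ.filter fun p => (p.2 : ℕ) < ν p.1 with hJ2
  have hcard : J2.card = t := by
    have h1 : J2.card = ∑ a, (J2.filter fun p => p.1 = a).card :=
      Finset.card_eq_sum_card_fiberwise fun p _ => Finset.mem_univ p.1
    rw [h1, ← hsum]
    refine Finset.sum_congr rfl fun a _ => ?_
    have h2 : (J2.filter fun p => p.1 = a) =
        ((univ : Finset (Fin (d + 1))).filter fun j : Fin (d + 1) => (j : ℕ) < ν a).image
          (fun j : Fin (d + 1) => (a, j)) := by
      ext ⟨b, j⟩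
      simp only [hJ2, Finset.mem_filter, Finset.mem_univ, true_and, Finset.mem_image,
        Prod.mk.injEq]
      constructor
      · rintro ⟨h1, rfl⟩
        exact ⟨j, h1, rfl, rfl⟩
      · rintro ⟨i, h1, rfl, rfl⟩
        exact ⟨h1, rfl⟩
    rw [h2, Finset.card_image_of_injective _ (fun x y h => (Prod.ext_iff.1 h).2)]
    rw [Fin.card_filter_val_lt]
    have := hνt a
    omega
  have hli : LinearIndependent Ω (fun p : J2 => c p) := by
    have e : Fin t ≃ J2 := (Fintype.equivFinOfCardEq (by rw [Fintype.card_coe, hcard])).symm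
    have hdet : (Matrix.of fun r : Fin t => c (e r)).det ≠ 0 := by
      intro h0
      obtain ⟨y, hy0, hy⟩ := Matrix.exists_mulVec_eq_zero_iff.2 h0
      apply hy0
      refine hker ν hsum y fun a j hj => ?_
      have hm : ((a, j) : ι × Fin (d + 1)) ∈ J2 := by
        simp only [hJ2, Finset.mem_filter, Finset.mem_univ, true_and]
        exact hj
      have h1 := congrFun hy (e.symm ⟨_, hm⟩)
      simp only [Matrix.mulVec, dotProduct, Matrix.of_apply, Equiv.apply_symm_apply,
        Pi.zero_apply] at h1
      exact h1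
    have h1 : LinearIndependent Ω (fun r : Fin t => c (e r)) :=
      Matrix.linearIndependent_rows_of_det_ne_zero (A := Matrix.of fun r : Fin t => c (e r)) hdet
    have h2 := (linearIndependent_equiv e (f := fun p : J2 => c p)).1 h1
    exact h2
  refine hli.comp (fun p : (univ.filter fun p : ι × Fin (d + 1) => (p.1, (p.2 : ℕ)) ∈ J :
      Finset (ι × Fin (d + 1))) => (⟨p.1, ?_⟩ : J2)) ?_
  · have h1 := (Finset.mem_filter.1 p.2).2
    rw [down_mem J hJ] at h1
    simp only [hJ2, Finset.mem_filter, Finset.mem_univ, true_and, hν]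
    omega
  · intro p q h
    have h1 := congrArg (fun x : J2 => (x : ι × Fin (d + 1))) h
    exact Subtype.ext h1

end Pool.Agent.Run7.h860.Hd
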