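import Pool.Agent.Run7.h860.Hd.Ind
import Pool.Agent.Run7.h860.Nk.Fin

/-!
The choice of a basis among the Taylor coefficients at a place.
-/

set_option autoImplicit false

open Finset Polynomial Module

namespace Pool.Agent.Run7.h860.Hd

open Pool.Agent.Run7.h860.Nk (lam sep_le ab_le mh_F)

variable {A : Type} [Field A] (F : AbsoluteValue A ℝ)

/-- the Weil function of the point `a` at `z` -/
noncomputable def lm (a z : A) : ℝ := Real.log (max 1 (F z) / F (a - z))

/-- twice the sum of the sorted Weil functions with their indices -/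
noncomputable def W2 (D : Finset A) {d : ℕ} (z : Fin d → A) : ℝ :=
  ∑ a ∈ D, (∑ i, ∑ l, min (lm F a (z i)) (lm F a (z l)) + ∑ i, lm F a (z i))

theorem lm_eq (a z : A) : lm F a z = lam F (a, 1) z := by
  unfold lm lam
  rw [one_mul]

/-- separation and lower bound -/
theorem exists_C1 (D : Finset A) : ∃ C1 : ℝ, 0 ≤ C1 ∧
    (∀ a ∈ D, ∀ b ∈ D, a ≠ b → ∀ z, a ≠ z → b ≠ z → min (lm F a z) (lm F b z) ≤ C1) ∧
    (∀ a ∈ D, ∀ z, a ≠ z → -C1 ≤ lm F a z) := by
  classical
  set c1 : ℝ := ∑ a ∈ D, ∑ b ∈ D, |Real.log ((F a + F 1 + F b + F 1) / F (a * 1 - 1 * b))| with hc1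
  set c2 : ℝ := ∑ a ∈ D, |Real.log (F a + F 1)| with hc2
  have h1 : 0 ≤ c1 := Finset.sum_nonneg fun _ _ => Finset.sum_nonneg fun _ _ => abs_nonneg _
  have h2 : 0 ≤ c2 := Finset.sum_nonneg fun _ _ => abs_nonneg _
  refine ⟨c1 + c2, by positivity, ?_, ?_⟩
  · intro a ha b hb hab z haz hbz
    have h3 := sep_le F (a, (1 : A)) (b, (1 : A)) (by simpa [sub_ne_zero] using hab) z
      (by simpa [sub_ne_zero] using haz) (by simpa [sub_ne_zero] using hbz)
    rw [← lm_eq, ← lm_eq] at h3
    refine h3.trans ?_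
    have h4 : |Real.log ((F a + F 1 + F b + F 1) / F (a * 1 - 1 * b))| ≤ c1 := by
      refine le_trans ?_ (Finset.single_le_sum (f := fun a => ∑ b ∈ D,
        |Real.log ((F a + F 1 + F b + F 1) / F (a * 1 - 1 * b))|)
        (fun _ _ => Finset.sum_nonneg fun _ _ => abs_nonneg _) ha)
      exact Finset.single_le_sum (f := fun b =>
        |Real.log ((F a + F 1 + F b + F 1) / F (a * 1 - 1 * b))|) (fun _ _ => abs_nonneg _) hb
    have h5 := le_abs_self (Real.log ((F a + F 1 + F b + F 1) / F (a * 1 - 1 * b)))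
    exact h5.trans (h4.trans (by linarith))
  · intro a ha z haz
    have h3 := ab_le F a 1 z
    rw [one_mul] at h3
    have h4 : 0 < F (a - z) := F.pos (sub_ne_zero.2 haz)
    have h5 : (0 : ℝ) < max 1 (F z) := lt_max_of_lt_left one_pos
    have h6 : 0 < F a + F 1 := by
      rw [map_one]
      have := F.nonneg a
      linarith
    have h7 : (F a + F 1)⁻¹ ≤ max 1 (F z) / F (a - z) := by
      rw [le_div_iff₀ h4, inv_mul_le_iff₀ h6]
      exact h3
    have h8 := Real.log_le_log (by positivity) h7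
    rw [Real.log_inv] at h8
    have h9 : |Real.log (F a + F 1)| ≤ c2 :=
      Finset.single_le_sum (f := fun a => |Real.log (F a + F 1)|) (fun _ _ => abs_nonneg _) ha
    have h10 := le_abs_self (Real.log (F a + F 1))
    show -(c1 + c2) ≤ Real.log (max 1 (F z) / F (a - z))
    linarith

theorem loc (hSO : S_SO) (hLO : S_LO) (hDC : S_DC) (hEX : S_EX) (d t : ℕ) (htd : t ≤ d + 1)
    (D : Finset A) (hne : D.Nonempty) (c : ↥D × Fin (d + 1) → Fin t → A)
    (hker : ∀ ν : ↥D → ℕ, ∑ a, ν a = t → ∀ y : Fin t → A,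
      (∀ a, ∀ j : Fin (d + 1), (j : ℕ) < ν a → ∑ i, c (a, j) i * y i = 0) → y = 0) :
    ∃ C0 : ℝ, ∀ (z : Fin d → A) (N : ℝ), 0 < N →
      (∀ j, F ((∏ i, (X - C (z i))).coeff j) ≤ N) → (∀ a ∈ D, ∀ i, a ≠ z i) →
      (∀ p : ↥D × Fin (d + 1), c p ≠ 0 →
        (hasseDeriv (p.2 : ℕ) (∏ i, (X - C (z i)))).eval p.1.1 ≠ 0) →
      ∃ s : Fin t → ↥D × Fin (d + 1), (Matrix.of fun a => c (s a)).det ≠ 0 ∧
        (t : ℝ) * W2 F D z ≤ 2 * (max t d : ℕ) * ∑ i, (Real.log N -
          Real.log (F ((hasseDeriv ((s i).2 : ℕ) (∏ i, (X - C (z i)))).eval (s i).1.1))) + C0 := by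
  classical
  obtain ⟨C1, hC10, hsep, hlow⟩ := exists_C1 F D
  have hneD : Nonempty ↥D := hne.coe_sort
  set C2 : ℝ := d * Real.log 2 + d * C1 + d * Real.log (d + 1) with hC2
  set K1 : ℝ := D.card * ((d * d + d) * C1) with hK1
  refine ⟨t * K1 + 2 * (max t d : ℕ) * (t * C2), ?_⟩
  intro z N hN hcoef haz hnz
  -- truncated Weil functions
  set m : ↥D → Fin d → ℝ := fun a i => max (lm F a.1 (z i) - C1) 0 with hm
  have hm0 : ∀ a i, 0 ≤ m a i := fun a i => le_max_right _ _
  have hm1 : ∀ a i, m a i ≤ lm F a.1 (z i) + C1 := by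
    intro a i
    refine max_le (by linarith) ?_
    have := hlow a.1 a.2 (z i) (haz _ a.2 i)
    linarith
  have hm2 : ∀ a i, lm F a.1 (z i) ≤ m a i + C1 := by
    intro a i
    have : lm F a.1 (z i) - C1 ≤ m a i := le_max_left _ _
    linarith
  choose G hG1 hG2 hG3 hG4 using fun a : ↥D => hSO d (m a) (hm0 a)
  set w : ↥D × ℕ → ℝ := fun p => G p.1 p.2 with hw
  have hw0 : ∀ p, 0 ≤ w p := fun p => (hG3 p.1 p.2).2
  set n : ↥D → ℕ := fun a => (univ.filter fun i => 0 < m a i).card with hn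
  have hnd : ∀ a, n a ≤ d := fun a => by
    have := Finset.card_filter_le (univ : Finset (Fin d)) (fun i => 0 < m a i)
    rw [Finset.card_univ, Fintype.card_fin] at this
    exact this
  set I : Finset (↥D × ℕ) := (univ ×ˢ range d).filter fun p => p.2 < n p.1 with hI
  have hImem : ∀ a j, (a, j) ∈ I ↔ j < n a := by
    intro a j
    simp only [hI, Finset.mem_filter, Finset.mem_product, Finset.mem_univ, true_and,
      Finset.mem_range]
    constructor
    · exact fun h => h.2
    · exact fun h => ⟨h.trans_le (hnd a), h⟩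
  have hIdown : Down I := by
    intro a j h
    rw [hImem] at h ⊢
    omega
  have hIcard : I.card = ∑ a, n a := by
    rw [← sum_cols I]
    refine Finset.sum_congr rfl fun a _ => ?_
    have h1 : (I.filter fun p => p.1 = a) = (Finset.range (n a)).image fun j => (a, j) := by
      ext ⟨b, j⟩
      simp only [Finset.mem_filter, hImem, Finset.mem_image, Finset.mem_range, Prod.mk.injEq]
      constructor
      · rintro ⟨h1, rfl⟩
        exact ⟨j, h1, rfl, rfl⟩
      · rintro ⟨i, h1, rfl, rfl⟩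
        exact ⟨h1, rfl⟩
    rw [h1, Finset.card_image_of_injective _ (fun x y h => (Prod.ext_iff.1 h).2),
      Finset.card_range]
  have hId : I.card ≤ d := by
    rw [hIcard]
    have h1 : ∑ a, n a = ((univ : Finset (↥D × Fin d)).filter fun p => 0 < m p.1 p.2).card := by
      rw [Finset.card_eq_sum_card_fiberwise (f := fun p : ↥D × Fin d => p.1)
        (t := (univ : Finset ↥D)) (fun p _ => Finset.mem_univ p.1)]
      refine Finset.sum_congr rfl fun a _ => ?_
      have h2 : (((univ : Finset (↥D × Fin d)).filter fun p => 0 < m p.1 p.2).filter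
          fun p => p.1 = a) = ((univ : Finset (Fin d)).filter fun i => 0 < m a i).image
          (fun i => (a, i)) := by
        ext ⟨b, i⟩
        simp only [Finset.mem_filter, Finset.mem_univ, true_and, Finset.mem_image, Prod.mk.injEq]
        constructor
        · rintro ⟨h1, rfl⟩
          exact ⟨i, h1, rfl, rfl⟩
        · rintro ⟨j, h1, rfl, rfl⟩
          exact ⟨h1, rfl⟩
      rw [h2, Finset.card_image_of_injective _ (fun x y h => (Prod.ext_iff.1 h).2)]
    rw [h1]
    have h2 : ((univ : Finset (↥D × Fin d)).filter fun p => 0 < m p.1 p.2).card ≤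
        (univ : Finset (Fin d)).card := by
      refine Finset.card_le_card_of_injOn (fun p => p.2) (fun p _ => Finset.mem_univ _) ?_
      rintro ⟨a, i⟩ hp ⟨b, j⟩ hq hij
      simp only at hij
      subst hij
      have hp' : 0 < m a i := by simpa using hp
      have hq' : 0 < m b i := by simpa using hq
      by_contra hne'
      have hab : a ≠ b := fun h => hne' (by rw [h])
      have h3 := hsep a.1 a.2 b.1 b.2 (fun h => hab (Subtype.ext h)) (z i) (haz _ a.2 i)
        (haz _ b.2 i)
      have h4 : C1 < lm F a.1 (z i) := by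
        by_contra hc
        push Not at hc
        have : m a i = 0 := max_eq_right (by linarith)
        linarith
      have h5 : C1 < lm F b.1 (z i) := by
        by_contra hc
        push Not at hc
        have : m b i = 0 := max_eq_right (by linarith)
        linarith
      exact absurd h3 (not_le.2 (lt_min h4 h5))
    rwa [Finset.card_univ, Fintype.card_fin] at h2
  have hIsum : ∑ p ∈ I, w p = ∑ a, ∑ j ∈ range d, G a j := by
    rw [← Finset.sum_product' (univ : Finset ↥D) (range d) (fun a j => G a j), hI]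
    refine Finset.sum_filter_of_ne fun p hp hne' => ?_
    by_contra hc
    push Not at hc
    exact hne' (hG4 p.1 p.2 hc)
  obtain ⟨J, hJI, hJd, hJc, hJw⟩ := hDC ↥D w hw0 (fun a j => (hG3 a j).1) I hIdown
    (min t I.card) (min_le_right _ _)
  have hJt : J.card ≤ t := by rw [hJc]; exact min_le_left _ _
  have hJw' : (t : ℝ) * ∑ p ∈ I, w p ≤ (max t d : ℕ) * ∑ p ∈ J, w p := by
    have hS : 0 ≤ ∑ p ∈ J, w p := Finset.sum_nonneg fun p _ => hw0 p
    rcases le_total t I.card with h | h
    · rw [min_eq_left h] at hJw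
      refine hJw.trans (mul_le_mul_of_nonneg_right ?_ hS)
      exact_mod_cast hId.trans (le_max_right _ _)
    · rw [min_eq_right h] at hJc
      have hJI' : J = I := Finset.eq_of_subset_of_card_le hJI (by omega)
      rw [hJI'] at hS ⊢
      refine mul_le_mul_of_nonneg_right ?_ hS
      exact_mod_cast le_max_left _ _
  have hli := indep htd c hker J hJd hJt
  set J' : Finset (↥D × Fin (d + 1)) :=
    univ.filter fun p : ↥D × Fin (d + 1) => (p.1, (p.2 : ℕ)) ∈ J with hJ'
  have hspan : ∀ y : Fin t → A, (∀ p, ∑ i, c p i * y i = 0) → y = 0 := by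
    intro y hy
    obtain ⟨a0⟩ := hneD
    exact hker (fun a => if a = a0 then t else 0) (by simp) y fun a j _ => hy (a, j)
  obtain ⟨s, hdet, hsinj, hsJ⟩ := hEX A (↥D × Fin (d + 1)) t c hspan J' hli
  refine ⟨s, hdet, ?_⟩
  have hsum1 : ∑ p ∈ J, w p = ∑ p ∈ J', w (p.1, (p.2 : ℕ)) := by
    refine (Finset.sum_nbij (fun p : ↥D × Fin (d + 1) => (p.1, (p.2 : ℕ))) ?_ ?_ ?_ ?_).symm
    · intro p hp
      exact (Finset.mem_filter.1 hp).2
    · intro p _ q _ h
      exact Prod.ext (Prod.ext_iff.1 h).1 (Fin.ext (Prod.ext_iff.1 h).2)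
    · intro p hp
      have h1 : p.2 < n p.1 := (hImem p.1 p.2).1 (hJI hp)
      have h2 := hnd p.1
      refine ⟨(p.1, ⟨p.2, by omega⟩), ?_, rfl⟩
      rw [hJ', Finset.mem_coe, Finset.mem_filter]
      exact ⟨Finset.mem_univ _, hp⟩
    · intro p _
      rfl
  have hsum2 : ∑ p ∈ J', w (p.1, (p.2 : ℕ)) ≤ ∑ i, w ((s i).1, ((s i).2 : ℕ)) := by
    have h1 : ∑ i, w ((s i).1, ((s i).2 : ℕ)) =
        ∑ p ∈ univ.image s, w (p.1, (p.2 : ℕ)) := by
      rw [Finset.sum_image fun x _ y _ h => hsinj h]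
    rw [h1]
    refine Finset.sum_le_sum_of_subset_of_nonneg ?_ fun p _ _ => hw0 _
    intro p hp
    obtain ⟨a, ha⟩ := hsJ p hp
    exact Finset.mem_image.2 ⟨a, Finset.mem_univ _, ha⟩
  -- local estimate
  have hest : ∀ i, w ((s i).1, ((s i).2 : ℕ)) ≤ Real.log N -
      Real.log (F ((hasseDeriv ((s i).2 : ℕ) (∏ i, (X - C (z i)))).eval (s i).1.1)) + C2 := by
    intro i
    have hci : c (s i) ≠ 0 := by
      intro h0
      apply hdet
      exact Matrix.det_eq_zero_of_row_eq_zero i fun j => by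
        show c (s i) j = 0
        rw [h0]
        rfl
    have hT := hnz (s i) hci
    have h1 := hLO A F d z (s i).1.1 (haz _ (s i).1.2) ((s i).2 : ℕ)
      (G (s i).1 ((s i).2 : ℕ) - d * C1) (fun J hJ => by
        have h2 := hG2 (s i).1 J
        rw [hJ] at h2
        have h3 : ∑ l ∈ Jᶜ, m (s i).1 l ≤ ∑ l ∈ Jᶜ, (lm F (s i).1.1 (z l) + C1) :=
          Finset.sum_le_sum fun l _ => hm1 _ l
        rw [Finset.sum_add_distrib, Finset.sum_const, nsmul_eq_mul] at h3
        have h4 : ((Jᶜ.card : ℕ) : ℝ) ≤ d := by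
          have := Finset.card_le_univ Jᶜ
          rw [Fintype.card_fin] at this
          exact_mod_cast this
        have h5 : ((Jᶜ.card : ℕ) : ℝ) * C1 ≤ d * C1 := mul_le_mul_of_nonneg_right h4 hC10
        have h6 : ∑ l ∈ Jᶜ, lm F (s i).1.1 (z l) =
          ∑ l ∈ Jᶜ, Real.log (max 1 (F (z l)) / F ((s i).1.1 - z l)) := rfl
        linarith)
    have hp : ∀ l, (0 : ℝ) < max 1 (F (z l)) := fun l => lt_max_of_lt_left one_pos
    have h2 := Real.log_le_log (F.pos hT) h1
    rw [Real.log_mul (by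
      have := Finset.prod_pos fun l (_ : l ∈ (univ : Finset (Fin d))) => hp l
      positivity) (Real.exp_pos _).ne', Real.log_exp, Real.log_mul (by positivity)
      (Finset.prod_pos fun l _ => hp l).ne', Real.log_pow,
      Real.log_prod fun l _ => (hp l).ne'] at h2
    have h3 := mh_F F z N hcoef hN
    show G (s i).1 ((s i).2 : ℕ) ≤ _
    rw [hC2]
    linarith
  -- comparison of the sums
  have hW : W2 F D z ≤ 2 * ∑ p ∈ I, w p + K1 := by
    rw [hIsum, Finset.mul_sum]
    have h1 : W2 F D z = ∑ a : ↥D, (∑ i, ∑ l, min (lm F a.1 (z i)) (lm F a.1 (z l)) +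
        ∑ i, lm F a.1 (z i)) := (Finset.sum_coe_sort D fun a =>
        (∑ i, ∑ l, min (lm F a (z i)) (lm F a (z l)) + ∑ i, lm F a (z i))).symm
    rw [h1]
    have h2 : ∀ a : ↥D, (∑ i, ∑ l, min (lm F a.1 (z i)) (lm F a.1 (z l)) +
        ∑ i, lm F a.1 (z i)) ≤ 2 * ∑ j ∈ range d, G a j + (d * d + d) * C1 := by
      intro a
      rw [hG1 a]
      have h3 : ∑ i, ∑ l, min (lm F a.1 (z i)) (lm F a.1 (z l)) ≤
          ∑ i, ∑ l, (min (m a i) (m a l) + C1) := by
        refine Finset.sum_le_sum fun i _ => Finset.sum_le_sum fun l _ => ?_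
        rw [← min_add_add_right]
        exact min_le_min (hm2 a i) (hm2 a l)
      have h4 : ∑ i, lm F a.1 (z i) ≤ ∑ i, (m a i + C1) := Finset.sum_le_sum fun i _ => hm2 a i
      simp only [Finset.sum_add_distrib, Finset.sum_const, Finset.card_univ, Fintype.card_fin,
        nsmul_eq_mul] at h3 h4
      linarith
    refine (Finset.sum_le_sum fun a _ => h2 a).trans ?_
    rw [Finset.sum_add_distrib, Finset.sum_const, Finset.card_univ, Fintype.card_coe,
      nsmul_eq_mul]
  have ht0 : (0 : ℝ) ≤ t := Nat.cast_nonneg t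
  have hmx : (0 : ℝ) ≤ (max t d : ℕ) := Nat.cast_nonneg _
  have hfin : ∑ p ∈ J, w p ≤ ∑ i, (Real.log N -
      Real.log (F ((hasseDeriv ((s i).2 : ℕ) (∏ i, (X - C (z i)))).eval (s i).1.1))) + t * C2 := by
    rw [hsum1]
    refine hsum2.trans ((Finset.sum_le_sum fun i _ => hest i).trans ?_)
    rw [Finset.sum_add_distrib, Finset.sum_const, Finset.card_univ, Fintype.card_fin,
      nsmul_eq_mul]
  have h1 := mul_le_mul_of_nonneg_left hW ht0
  have h2 := mul_le_mul_of_nonneg_left hfin hmx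
  linarith

end Pool.Agent.Run7.h860.Hd
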