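import Pool.Agent.Run7.h860.Hd.Half

/-!
Normalised form of the inequalities.
-/

set_option autoImplicit false

open NumberField IsDedekindDomain

namespace Pool.Agent.Run7.h860.Hd

variable {k : Type} [Field k] [NumberField k]

/-- the Weil function of the point `a = (a₁ : a₂)` -/
noncomputable def weil (g : AlgebraicClosure k → ℝ) (a : AlgebraicClosure k × AlgebraicClosure k)
    (z : AlgebraicClosure k) : ℝ :=
  Real.log (max 1 (g z) / g (a.1 - a.2 * z))

/-- the proximity function at one place -/
noncomputable def prox (g : AlgebraicClosure k → ℝ)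
    (D : Finset (AlgebraicClosure k × AlgebraicClosure k)) {L : Type} [Field L] [NumberField L]
    [Algebra k L] (x : L) : ℝ :=
  (∑ σ : L →ₐ[k] AlgebraicClosure k, ∑ a ∈ D, weil g a (σ x)) / Module.finrank k L

open Classical in
/-- the cross terms -/
noncomputable def cross (g : AlgebraicClosure k → ℝ)
    (D : Finset (AlgebraicClosure k × AlgebraicClosure k)) {L : Type} [Field L] [NumberField L]
    [Algebra k L] (x : L) : ℝ :=
  (∑ σ : L →ₐ[k] AlgebraicClosure k, ∑ τ ∈ Finset.univ.erase σ,
    ∑ a ∈ D, min (weil g a (σ x)) (weil g a (τ x))) / Module.finrank k L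

/-- the height relative to `k` -/
noncomputable def height (k : Type) [Field k] [NumberField k] {L : Type} [Field L] [NumberField L]
    [Algebra k L] (x : L) : ℝ :=
  Height.logHeight₁ x / Module.finrank k L

open Classical in
/-- the points `(a : 1)` of the line, for `a` in `D` -/
noncomputable def points (D : Finset (AlgebraicClosure k)) :
    Finset (AlgebraicClosure k × AlgebraicClosure k) :=
  D.image fun a => (a, 1)

theorem sum_points (D : Finset (AlgebraicClosure k)) (w : AlgebraicClosure k × AlgebraicClosure k → ℝ) :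
    ∑ a ∈ points D, w a = ∑ a ∈ D, w (a, 1) := by
  classical
  unfold points
  rw [Finset.sum_image]
  intro x _ y _ h
  exact (Prod.ext_iff.1 h).1

theorem weil_one (G : AbsoluteValue (AlgebraicClosure k) ℝ) (a z : AlgebraicClosure k) :
    weil G (a, 1) z = lm G a z := by
  unfold weil lm
  rw [one_mul]

theorem prox_eq (G : AbsoluteValue (AlgebraicClosure k) ℝ) (D : Finset (AlgebraicClosure k))
    {L : Type} [Field L] [NumberField L] [Algebra k L] (x : L) :
    prox G (points D) x = lamSum G D x / Module.finrank k L := by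
  unfold prox lamSum
  simp only [sum_points, weil_one]

theorem two_eq (G : AbsoluteValue (AlgebraicClosure k) ℝ) (D : Finset (AlgebraicClosure k))
    {L : Type} [Field L] [NumberField L] [Algebra k L] (x : L) :
    2 * prox G (points D) x + cross G (points D) x =
      (minSum G D x + lamSum G D x) / Module.finrank k L := by
  classical
  have h1 : prox G (points D) x + cross G (points D) x = minSum G D x / Module.finrank k L := by
    unfold prox cross minSum
    rw [← add_div, ← Finset.sum_add_distrib]
    congr 1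
    refine Finset.sum_congr rfl fun σ _ => ?_
    rw [← Finset.add_sum_erase Finset.univ _ (Finset.mem_univ σ)]
    simp only [sum_points, weil_one]
    congr 1
    exact Finset.sum_congr rfl fun a _ => (min_self _).symm
  rw [add_div, ← h1, ← prox_eq]
  ring

section Main

variable (k : Type) [Field k] [NumberField k]
    (ψ : InfinitePlace k → AlgebraicClosure k →+* ℂ)
    (hψ : ∀ w, InfinitePlace.mk ((ψ w).comp (algebraMap k (AlgebraicClosure k))) = w)
    (S : Finset (HeightOneSpectrum (𝓞 k)))
    (F : HeightOneSpectrum (𝓞 k) → AbsoluteValue (AlgebraicClosure k) ℝ)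
    (hF : ∀ v ∈ S, ∀ y : k, F v (algebraMap k (AlgebraicClosure k) y) = FinitePlace.mk v y)
    (r : ℕ) (ε : ℝ) (hε : 0 < ε)

/-- all absolute values -/
noncomputable def allF : Run7.h860.Nk.Plc k → AbsoluteValue (AlgebraicClosure k) ℝ := fun v =>
  match v with
  | Sum.inl w => (NormedField.toAbsoluteValue ℂ).comp (ψ w).injective
  | Sum.inr v => F v

include hψ hF hε in
theorem main_tr (hHR : S_HR) (hHE : S_HE) (hLO : S_LO) (hDC : S_DC)
    (D : Finset (AlgebraicClosure k)) (htr : Trans k (AlgebraicClosure k) D r)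
    (hD : r + 1 ≤ D.card) :
    ∃ C : ℝ, ∀ (L : Type) [Field L] [NumberField L] [Algebra k L] (x : L),
      IntermediateField.adjoin k {x} = ⊤ → Module.finrank k L ≤ r →
      (∀ a ∈ D, ∀ σ : L →ₐ[k] AlgebraicClosure k, a ≠ σ x) →
      (∑ w : InfinitePlace k, (w.mult : ℝ) * prox (fun z => ‖ψ w z‖) (points D) x +
          ∑ v ∈ S, prox (F v) (points D) x) - 2 * height k x ≤
        ε * height k x + (1 / 2) * ((2 * Module.finrank k L - 2) * height k x) + C := by
  classical
  have hmain : ∀ d : ℕ, ∃ C : ℝ, 0 ≤ C ∧ (0 < d → d ≤ r →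
      ∀ (L : Type) [Field L] [NumberField L] [Algebra k L] (x : L),
      IntermediateField.adjoin k {x} = ⊤ → Module.finrank k L = d →
      (∀ a ∈ D, ∀ σ : L →ₐ[k] AlgebraicClosure k, a ≠ σ x) →
      ∑ v ∈ (Finset.univ : Finset (InfinitePlace k)).disjSum S,
        Pool.Agent.W180.OP.wt v * lamSum (allF k ψ F v) D x ≤
        (d + 1) * (1 + ε / (d + 1)) * Height.logHeight₁ x + C) := by
    intro d
    by_cases hd : 0 < d ∧ d ≤ r
    · obtain ⟨C, hC⟩ := half_tr hHR hHE hLO hDC S ψ hψ F hF D d hd.1 (by omega) (htr.mono hd.2)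
        (ε / (d + 1)) (by positivity) (allF k ψ F) (fun _ _ => rfl) (fun _ => rfl)
      refine ⟨max C 0, le_max_right _ _, fun _ _ L _ _ _ x h1 h2 h3 => ?_⟩
      exact (hC L x h1 h2 h3).trans (add_le_add le_rfl (le_max_left _ _))
    · exact ⟨0, le_rfl, fun h1 h2 => absurd ⟨h1, h2⟩ hd⟩
  choose C hC0 hC using hmain
  refine ⟨∑ d ∈ Finset.range (r + 1), C d, ?_⟩
  intro L _ _ _ x hx hr hoff
  have hpos : 0 < Module.finrank k L := Module.finrank_pos
  have hd : (1 : ℝ) ≤ Module.finrank k L := by exact_mod_cast hpos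
  have hd0 : (0 : ℝ) < (Module.finrank k L : ℝ) := by linarith
  have hCd : C (Module.finrank k L) ≤ ∑ d ∈ Finset.range (r + 1), C d :=
    Finset.single_le_sum (fun d _ => hC0 d) (Finset.mem_range.2 (by omega))
  have h4 := hC (Module.finrank k L) hpos hr L x hx rfl hoff
  have h6 : (∑ w : InfinitePlace k, (w.mult : ℝ) * prox (fun z => ‖ψ w z‖) (points D) x +
        ∑ v ∈ S, prox (F v) (points D) x) =
      (∑ v ∈ (Finset.univ : Finset (InfinitePlace k)).disjSum S,
        Pool.Agent.W180.OP.wt v * lamSum (allF k ψ F v) D x) / Module.finrank k L := by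
    rw [Finset.sum_disjSum, add_div, Finset.sum_div, Finset.sum_div]
    congr 1
    · refine Finset.sum_congr rfl fun w _ => ?_
      rw [mul_div_assoc, ← prox_eq]
      rfl
    · refine Finset.sum_congr rfl fun v _ => ?_
      rw [mul_div_assoc, ← prox_eq]
      exact (one_mul _).symm
  have h7 : (∑ v ∈ (Finset.univ : Finset (InfinitePlace k)).disjSum S,
        Pool.Agent.W180.OP.wt v * lamSum (allF k ψ F v) D x) / Module.finrank k L ≤
      (Module.finrank k L + 1 + ε) * height k x + ∑ d ∈ Finset.range (r + 1), C d := by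
    rw [div_le_iff₀ hd0]
    refine h4.trans ?_
    have h8 : ((Module.finrank k L + 1 + ε) * height k x + ∑ d ∈ Finset.range (r + 1), C d) *
        Module.finrank k L = ((Module.finrank k L : ℝ) + 1) *
          (1 + ε / ((Module.finrank k L : ℝ) + 1)) *
          Height.logHeight₁ x + (∑ d ∈ Finset.range (r + 1), C d) * Module.finrank k L := by
      unfold height
      field_simp
    rw [h8]
    have h9 : 0 ≤ ∑ d ∈ Finset.range (r + 1), C d := Finset.sum_nonneg fun d _ => hC0 d
    nlinarith
  rw [h6]
  linarith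

include hψ hF hε in
theorem main_gen (hGP : S_GP) (hHE : S_HE) (hSO : S_SO) (hLO : S_LO) (hDC : S_DC) (hEX : S_EX)
    (D : Finset (AlgebraicClosure k)) (hgen : GenPos k (AlgebraicClosure k) D r) :
    ∃ C : ℝ, ∀ (L : Type) [Field L] [NumberField L] [Algebra k L] (x : L),
      IntermediateField.adjoin k {x} = ⊤ → Module.finrank k L ≤ r →
      (∀ a ∈ D, ∀ σ : L →ₐ[k] AlgebraicClosure k, a ≠ σ x) →
      (∑ w : InfinitePlace k, (w.mult : ℝ) * prox (fun z => ‖ψ w z‖) (points D) x +
          ∑ v ∈ S, prox (F v) (points D) x) - 2 * height k x ≤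
        ε * height k x + (1 / 2) * ((2 * Module.finrank k L - 2) * height k x -
          (∑ w : InfinitePlace k, (w.mult : ℝ) * cross (fun z => ‖ψ w z‖) (points D) x +
            ∑ v ∈ S, cross (F v) (points D) x)) + C := by
  classical
  rcases D.eq_empty_or_nonempty with rfl | hne
  · refine ⟨0, ?_⟩
    intro L _ _ _ x hx _ _
    have hd : (0 : ℝ) < Module.finrank k L := by exact_mod_cast Module.finrank_pos
    have hd1 : (1 : ℝ) ≤ Module.finrank k L := by exact_mod_cast Module.finrank_pos
    have hh : 0 ≤ height k x := div_nonneg (Height.zero_le_logHeight₁ x) hd.le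
    have hp : points (∅ : Finset (AlgebraicClosure k)) = ∅ := by unfold points; simp
    rw [hp]
    simp only [prox, cross, Finset.sum_empty, Finset.sum_const_zero, zero_div, mul_zero,
      add_zero, zero_sub, sub_zero]
    nlinarith
  have hmain : ∀ d : ℕ, ∃ C : ℝ, 0 ≤ C ∧ (0 < d → d ≤ r →
      ∀ (L : Type) [Field L] [NumberField L] [Algebra k L] (x : L),
      IntermediateField.adjoin k {x} = ⊤ → Module.finrank k L = d →
      (∀ a ∈ D, ∀ σ : L →ₐ[k] AlgebraicClosure k, a ≠ σ x) →
      ∑ v ∈ (Finset.univ : Finset (InfinitePlace k)).disjSum S,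
        Pool.Agent.W180.OP.wt v * (minSum (allF k ψ F v) D x + lamSum (allF k ψ F v) D x) ≤
        2 * (d + 1) * (1 + ε / (d + 1)) * Height.logHeight₁ x + C) := by
    intro d
    by_cases hd : 0 < d ∧ d ≤ r
    · obtain ⟨C, hC⟩ := half_gen hGP hHE hSO hLO hDC hEX S ψ hψ F hF D hne d hd.1
        (hgen.mono hd.2) (ε / (d + 1)) (by positivity) (allF k ψ F) (fun _ _ => rfl)
        (fun _ => rfl)
      refine ⟨max C 0, le_max_right _ _, fun _ _ L _ _ _ x h1 h2 h3 => ?_⟩
      exact (hC L x h1 h2 h3).trans (add_le_add le_rfl (le_max_left _ _))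
    · exact ⟨0, le_rfl, fun h1 h2 => absurd ⟨h1, h2⟩ hd⟩
  choose C hC0 hC using hmain
  refine ⟨∑ d ∈ Finset.range (r + 1), C d, ?_⟩
  intro L _ _ _ x hx hr hoff
  have hpos : 0 < Module.finrank k L := Module.finrank_pos
  have hd : (1 : ℝ) ≤ Module.finrank k L := by exact_mod_cast hpos
  have hd0 : (0 : ℝ) < (Module.finrank k L : ℝ) := by linarith
  have hCd : C (Module.finrank k L) ≤ ∑ d ∈ Finset.range (r + 1), C d :=
    Finset.single_le_sum (fun d _ => hC0 d) (Finset.mem_range.2 (by omega))
  have h9 : 0 ≤ ∑ d ∈ Finset.range (r + 1), C d := Finset.sum_nonneg fun d _ => hC0 d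
  have h4 := hC (Module.finrank k L) hpos hr L x hx rfl hoff
  have h6 : 2 * (∑ w : InfinitePlace k, (w.mult : ℝ) * prox (fun z => ‖ψ w z‖) (points D) x +
        ∑ v ∈ S, prox (F v) (points D) x) +
        (∑ w : InfinitePlace k, (w.mult : ℝ) * cross (fun z => ‖ψ w z‖) (points D) x +
            ∑ v ∈ S, cross (F v) (points D) x) =
      (∑ v ∈ (Finset.univ : Finset (InfinitePlace k)).disjSum S,
        Pool.Agent.W180.OP.wt v * (minSum (allF k ψ F v) D x + lamSum (allF k ψ F v) D x)) /
          Module.finrank k L := by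
    rw [Finset.sum_disjSum, add_div, Finset.sum_div, Finset.sum_div]
    have e1 : ∀ w : InfinitePlace k, Pool.Agent.W180.OP.wt (Sum.inl w : Run7.h860.Nk.Plc k) *
        (minSum (allF k ψ F (Sum.inl w)) D x + lamSum (allF k ψ F (Sum.inl w)) D x) /
        Module.finrank k L =
        2 * ((w.mult : ℝ) * prox (fun z => ‖ψ w z‖) (points D) x) +
          (w.mult : ℝ) * cross (fun z => ‖ψ w z‖) (points D) x := by
      intro w
      rw [mul_div_assoc, ← two_eq]
      show (w.mult : ℝ) * (2 * prox (fun z => ‖ψ w z‖) (points D) x +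
        cross (fun z => ‖ψ w z‖) (points D) x) = _
      ring
    have e2 : ∀ v : HeightOneSpectrum (𝓞 k),
        Pool.Agent.W180.OP.wt (Sum.inr v : Run7.h860.Nk.Plc k) *
        (minSum (allF k ψ F (Sum.inr v)) D x + lamSum (allF k ψ F (Sum.inr v)) D x) /
        Module.finrank k L =
        2 * prox (F v) (points D) x + cross (F v) (points D) x := by
      intro v
      rw [mul_div_assoc, ← two_eq]
      exact one_mul _
    simp only [e1, e2, Finset.sum_add_distrib, ← Finset.mul_sum]
    ring
  have h7 : (∑ v ∈ (Finset.univ : Finset (InfinitePlace k)).disjSum S,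
        Pool.Agent.W180.OP.wt v * (minSum (allF k ψ F v) D x + lamSum (allF k ψ F v) D x)) /
          Module.finrank k L ≤
      2 * (Module.finrank k L + 1 + ε) * height k x + ∑ d ∈ Finset.range (r + 1), C d := by
    rw [div_le_iff₀ hd0]
    refine h4.trans ?_
    have h8 : (2 * (Module.finrank k L + 1 + ε) * height k x +
        ∑ d ∈ Finset.range (r + 1), C d) *
        Module.finrank k L = 2 * ((Module.finrank k L : ℝ) + 1) *
          (1 + ε / ((Module.finrank k L : ℝ) + 1)) *
          Height.logHeight₁ x + (∑ d ∈ Finset.range (r + 1), C d) * Module.finrank k L := by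
      unfold height
      field_simp
    rw [h8]
    nlinarith
  rw [← h6] at h7
  linarith

end Main

end Pool.Agent.Run7.h860.Hd
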