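import Pool.Agent.Run7.h860.Hd.All
import Pool.Agent.Run7.h860.Hd.Main

/-!
Normalised form of the inequality for general `D`.
-/

set_option autoImplicit false

open NumberField IsDedekindDomain

namespace Pool.Agent.Run7.h860.Hd

variable (k : Type) [Field k] [NumberField k]
    (ψ : InfinitePlace k → AlgebraicClosure k →+* ℂ)
    (S : Finset (HeightOneSpectrum (𝓞 k)))
    (F : HeightOneSpectrum (𝓞 k) → AbsoluteValue (AlgebraicClosure k) ℝ)
    (r : ℕ) (ε : ℝ) (hε : 0 < ε)

include hε in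
theorem norm_E (D : Finset (AlgebraicClosure k)) (E : (d : ℕ) → Finset (Fin (d + 1) → k))
    (hm : ∀ d : ℕ, 0 < d → ∃ C : ℝ,
      ∀ (L : Type) [Field L] [NumberField L] [Algebra k L] (x : L),
      IntermediateField.adjoin k {x} = ⊤ → Module.finrank k L = d →
      (∀ a ∈ D, ∀ σ : L →ₐ[k] AlgebraicClosure k, a ≠ σ x) →
      (∀ q ∈ E d, ∑ j : Fin (d + 1), q j * (minpoly k x).coeff j ≠ 0) →
      ∑ v ∈ (Finset.univ : Finset (InfinitePlace k)).disjSum S,
        Pool.Agent.W180.OP.wt v * (minSum (allF k ψ F v) D x + lamSum (allF k ψ F v) D x) ≤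
        2 * (d + 1) * (1 + ε / (d + 1)) * Height.logHeight₁ x + C) :
    ∃ C : ℝ, ∀ (L : Type) [Field L] [NumberField L] [Algebra k L] (x : L),
      IntermediateField.adjoin k {x} = ⊤ → Module.finrank k L ≤ r →
      (∀ a ∈ D, ∀ σ : L →ₐ[k] AlgebraicClosure k, a ≠ σ x) →
      (∀ q ∈ E (Module.finrank k L), ∑ j : Fin (Module.finrank k L + 1),
        q j * (minpoly k x).coeff j ≠ 0) →
      (∑ w : InfinitePlace k, (w.mult : ℝ) * prox (fun z => ‖ψ w z‖) (points D) x +
          ∑ v ∈ S, prox (F v) (points D) x) - 2 * height k x ≤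
        ε * height k x + (1 / 2) * ((2 * Module.finrank k L - 2) * height k x -
          (∑ w : InfinitePlace k, (w.mult : ℝ) * cross (fun z => ‖ψ w z‖) (points D) x +
            ∑ v ∈ S, cross (F v) (points D) x)) + C := by
  classical
  have hmain : ∀ d : ℕ, ∃ C : ℝ, 0 ≤ C ∧ (0 < d → d ≤ r →
      ∀ (L : Type) [Field L] [NumberField L] [Algebra k L] (x : L),
      IntermediateField.adjoin k {x} = ⊤ → Module.finrank k L = d →
      (∀ a ∈ D, ∀ σ : L →ₐ[k] AlgebraicClosure k, a ≠ σ x) →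
      (∀ q ∈ E d, ∑ j : Fin (d + 1), q j * (minpoly k x).coeff j ≠ 0) →
      ∑ v ∈ (Finset.univ : Finset (InfinitePlace k)).disjSum S,
        Pool.Agent.W180.OP.wt v * (minSum (allF k ψ F v) D x + lamSum (allF k ψ F v) D x) ≤
        2 * (d + 1) * (1 + ε / (d + 1)) * Height.logHeight₁ x + C) := by
    intro d
    by_cases hd : 0 < d ∧ d ≤ r
    · obtain ⟨C, hC⟩ := hm d hd.1
      refine ⟨max C 0, le_max_right _ _, fun _ _ L _ _ _ x h1 h2 h3 h4 => ?_⟩
      exact (hC L x h1 h2 h3 h4).trans (add_le_add le_rfl (le_max_left _ _))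
    · exact ⟨0, le_rfl, fun h1 h2 => absurd ⟨h1, h2⟩ hd⟩
  choose C hC0 hC using hmain
  refine ⟨∑ d ∈ Finset.range (r + 1), C d, ?_⟩
  intro L _ _ _ x hx hr hoff hE
  have hpos : 0 < Module.finrank k L := Module.finrank_pos
  have hd : (1 : ℝ) ≤ Module.finrank k L := by exact_mod_cast hpos
  have hd0 : (0 : ℝ) < (Module.finrank k L : ℝ) := by linarith
  have hCd : C (Module.finrank k L) ≤ ∑ d ∈ Finset.range (r + 1), C d :=
    Finset.single_le_sum (fun d _ => hC0 d) (Finset.mem_range.2 (by omega))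
  have h9 : 0 ≤ ∑ d ∈ Finset.range (r + 1), C d := Finset.sum_nonneg fun d _ => hC0 d
  have h4 := hC (Module.finrank k L) hpos hr L x hx rfl hoff hE
  have h6 : 2 * (∑ w : InfinitePlace k, (w.mult : ℝ) * prox (fun z => ‖ψ w z‖) (points D) x +
        ∑ v ∈ S, prox (F v) (points D) x) +
        (∑ w : InfinitePlace k, (w.mult : ℝ) * cross (fun z => ‖ψ w z‖) (points D) x +
            ∑ v ∈ S, cross (F v) (points D) x) =
      (∑ v ∈ (Finset.univ : Finset (InfinitePlace k)).disjSum S,
        Pool.Agent.W180.OP.wt v * (minSum (allF k ψ F v) D x + lamSum (allF k ψ F v) D x)) /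
          Module.finrank k L := by
    rw [Finset.sum_disjSum, add_div, Finset.sum_div, Finset.sum_div]
    have e1 : ∀ w : InfinitePlace k, Pool.Agent.W180.OP.wt (Sum.inl w : Run7.h860.Nk.Plc k) *
        (minSum (allF k ψ F (Sum.inl w)) D x + lamSum (allF k ψ F (Sum.inl w)) D x) /
        Module.finrank k L =
        2 * ((w.mult : ℝ) * prox (fun z => ‖ψ w z‖) (points D) x) +
          (w.mult : ℝ) * cross (fun z => ‖ψ w z‖) (points D) x := by
      intro w
      rw [mul_div_assoc, ← two_eq]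
      show (w.mult : ℝ) * (2 * prox (fun z => ‖ψ w z‖) (points D) x +
        cross (fun z => ‖ψ w z‖) (points D) x) = _
      ring
    have e2 : ∀ v : HeightOneSpectrum (𝓞 k),
        Pool.Agent.W180.OP.wt (Sum.inr v : Run7.h860.Nk.Plc k) *
        (minSum (allF k ψ F (Sum.inr v)) D x + lamSum (allF k ψ F (Sum.inr v)) D x) /
        Module.finrank k L =
        2 * prox (F v) (points D) x + cross (F v) (points D) x := by
      intro v
      rw [mul_div_assoc, ← two_eq]
      exact one_mul _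
    simp only [e1, e2, Finset.sum_add_distrib, ← Finset.mul_sum]
    ring
  have h7 : (∑ v ∈ (Finset.univ : Finset (InfinitePlace k)).disjSum S,
        Pool.Agent.W180.OP.wt v * (minSum (allF k ψ F v) D x + lamSum (allF k ψ F v) D x)) /
          Module.finrank k L ≤
      2 * (Module.finrank k L + 1 + ε) * height k x + ∑ d ∈ Finset.range (r + 1), C d := by
    rw [div_le_iff₀ hd0]
    refine h4.trans ?_
    have h8 : (2 * (Module.finrank k L + 1 + ε) * height k x +
        ∑ d ∈ Finset.range (r + 1), C d) *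
        Module.finrank k L = 2 * ((Module.finrank k L : ℝ) + 1) *
          (1 + ε / ((Module.finrank k L : ℝ) + 1)) *
          Height.logHeight₁ x + (∑ d ∈ Finset.range (r + 1), C d) * Module.finrank k L := by
      unfold height
      field_simp
    rw [h8]
    nlinarith
  rw [← h6] at h7
  linarith

theorem main_all (hHE : S_HE) (hSO : S_SO) (hLO : S_LO) (hDC : S_DC) (hEX : S_EX)
    (D : Finset (AlgebraicClosure k)) :
    ∃ E : (d : ℕ) → Finset (Fin (d + 1) → k), (∀ d, ∀ q ∈ E d, q ≠ 0) ∧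
    ∀ (ψ : InfinitePlace k → AlgebraicClosure k →+* ℂ)
    (_ : ∀ w, InfinitePlace.mk ((ψ w).comp (algebraMap k (AlgebraicClosure k))) = w)
    (S : Finset (HeightOneSpectrum (𝓞 k)))
    (F : HeightOneSpectrum (𝓞 k) → AbsoluteValue (AlgebraicClosure k) ℝ)
    (_ : ∀ v ∈ S, ∀ y : k, F v (algebraMap k (AlgebraicClosure k) y) = FinitePlace.mk v y)
    (r : ℕ) (ε : ℝ) (_ : 0 < ε),
    ∃ C : ℝ, ∀ (L : Type) [Field L] [NumberField L] [Algebra k L] (x : L),
      IntermediateField.adjoin k {x} = ⊤ → Module.finrank k L ≤ r →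
      (∀ a ∈ D, ∀ σ : L →ₐ[k] AlgebraicClosure k, a ≠ σ x) →
      (∀ q ∈ E (Module.finrank k L), ∑ j : Fin (Module.finrank k L + 1),
        q j * (minpoly k x).coeff j ≠ 0) →
      (∑ w : InfinitePlace k, (w.mult : ℝ) * prox (fun z => ‖ψ w z‖) (points D) x +
          ∑ v ∈ S, prox (F v) (points D) x) - 2 * height k x ≤
        ε * height k x + (1 / 2) * ((2 * Module.finrank k L - 2) * height k x -
          (∑ w : InfinitePlace k, (w.mult : ℝ) * cross (fun z => ‖ψ w z‖) (points D) x +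
            ∑ v ∈ S, cross (F v) (points D) x)) + C := by
  classical
  rcases D.eq_empty_or_nonempty with rfl | hne
  · refine ⟨fun _ => ∅, fun _ q hq => absurd hq (Finset.notMem_empty q), ?_⟩
    intro ψ _ S F _ r ε hε
    refine ⟨0, ?_⟩
    intro L _ _ _ x hx _ _ _
    have hd : (0 : ℝ) < Module.finrank k L := by exact_mod_cast Module.finrank_pos
    have hd1 : (1 : ℝ) ≤ Module.finrank k L := by exact_mod_cast Module.finrank_pos
    have hh : 0 ≤ height k x := div_nonneg (Height.zero_le_logHeight₁ x) hd.le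
    have hp : points (∅ : Finset (AlgebraicClosure k)) = ∅ := by unfold points; simp
    rw [hp]
    simp only [prox, cross, Finset.sum_empty, Finset.sum_const_zero, zero_div, mul_zero,
      add_zero, zero_sub, sub_zero]
    nlinarith
  · have hex : ∀ d : ℕ, ∃ Z : Finset (Fin (d + 1) → k), (∀ q ∈ Z, q ≠ 0) ∧ (0 < d →
        ∀ (T : Finset (HeightOneSpectrum (𝓞 k)))
        (ψ : InfinitePlace k → AlgebraicClosure k →+* ℂ)
        (_ : ∀ w, InfinitePlace.mk ((ψ w).comp (algebraMap k (AlgebraicClosure k))) = w)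
        (G : HeightOneSpectrum (𝓞 k) → AbsoluteValue (AlgebraicClosure k) ℝ)
        (_ : ∀ v ∈ T, ∀ y : k, G v (algebraMap k (AlgebraicClosure k) y) = FinitePlace.mk v y)
        (ε : ℝ) (_ : 0 < ε)
        (F : Pool.Agent.W180.OP.Pl k → AbsoluteValue (AlgebraicClosure k) ℝ)
        (_ : ∀ w, ∀ y, F (Sum.inl w) y = ‖ψ w y‖) (_ : ∀ v, F (Sum.inr v) = G v),
        ∃ C0 : ℝ, ∀ (L : Type) [Field L] [NumberField L] [Algebra k L] (x : L),
          IntermediateField.adjoin k {x} = ⊤ → Module.finrank k L = d →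
          (∀ a ∈ D, ∀ σ : L →ₐ[k] AlgebraicClosure k, a ≠ σ x) →
          (∀ q ∈ Z, ∑ j : Fin (d + 1), q j * (minpoly k x).coeff j ≠ 0) →
          ∑ v ∈ (Finset.univ : Finset (InfinitePlace k)).disjSum T,
            Pool.Agent.W180.OP.wt v * (minSum (F v) D x + lamSum (F v) D x) ≤
              2 * (d + 1) * (1 + ε) * Height.logHeight₁ x + C0) := by
      intro d
      rcases Nat.eq_zero_or_pos d with hd | hd
      · exact ⟨∅, fun q hq => absurd hq (Finset.notMem_empty q), fun h => absurd hd h.ne'⟩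
      · obtain ⟨Z, hZ0, hZ⟩ := half_all hHE hSO hLO hDC hEX D hne d hd
        exact ⟨Z, hZ0, fun _ => hZ⟩
    choose E hE0 hE using hex
    refine ⟨E, hE0, ?_⟩
    intro ψ hψ S F hF r ε hε
    refine norm_E k ψ S F r ε hε D E fun d hd => ?_
    exact hE d hd S ψ hψ F hF (ε / (d + 1)) (by positivity) (allF k ψ F) (fun _ _ => rfl)
      (fun _ => rfl)

end Pool.Agent.Run7.h860.Hd
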