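import Pool.Agent.Helper259.AbsHt

/-!
# The constant one half is optimal: statements of the elementary pieces

`k = ℚ`, `a` a real algebraic number of degree `> d ^ 2`. By Dirichlet's box principle there are `f ∈ ℤ[X]` of
degree at most `d` with coefficients of absolute value at most `Q` and `|f(a)| ≤ K / Q ^ d`. The upper bound
(half of the arithmetic discriminant, in degrees `< d`) shows that `f` is irreducible of degree `d` for large
`Q`; its zeros `x` satisfy `m(a, x) ≥ (d + 1) h(x) - C`.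
-/

set_option autoImplicit false

open Polynomial Finset
open Pool.Agent.Helper259.AbsHt Pool.Agent.Helper259.HtPoly

namespace Pool.Agent.Run7.h860.Hd

/-- **PG** (Dirichlet's box principle). Proof. Put `A = ∑ |α| ^ i`, `N = (Q + 1) ^ (d + 1) - 1`, so that
`N ≥ Q ^ (d + 1)`. The `N + 1` vectors with entries in `{0, ..., Q}` have values in `[- A Q, A Q]`; divide this
interval into `N` parts (`⌊(value + A Q) N / (2 A Q)⌋`, `Finset.exists_ne_map_eq_of_card_lt_of_maps_to`; the value
`A Q` itself is only in the part of index `N`, so take `min _ (N - 1)` or use `2 A Q + 1` for the length)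
and take the difference of two vectors in the same part: `|value| ≤ 2 A Q / N ≤ 2 A / Q ^ d` (or with `2 A + 1`
for `2 A`). -/
def S_PG : Prop :=
  ∀ (d : ℕ) (α : ℝ), ∃ K : ℝ, 0 < K ∧ ∀ Q : ℕ, 1 ≤ Q →
    ∃ c : Fin (d + 1) → ℤ, c ≠ 0 ∧ (∀ i, |c i| ≤ (Q : ℤ)) ∧
      |∑ i, (c i : ℝ) * α ^ (i : ℕ)| ≤ K / (Q : ℝ) ^ d

/-- **HI** (height of an integral vector). Proof: divide by the greatest common divisor
(`absLogHeight_smul`), then `absLogHeight_int`; take `i` with `|c i|` maximal. -/
def S_HI : Prop :=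
  ∀ (n : ℕ) (c : Fin (n + 1) → ℤ), c ≠ 0 →
    ∃ i, c i ≠ 0 ∧ absLogHeight (fun j => ((c j : ℤ) : Qbar)) ≤ Real.log |(c i : ℝ)|

/-- **HP** (heights of the zeros). Proof: `f = C c * ∏ (X - C z)` (`Qbar` is algebraically closed), induction
over the number of the zeros with `absLogHeight_polymul` (the constant is `n * log (2 ^ n * (n + 1))`) and
`absLogHeight ![1, z] ≤ absLogHeight (cv n (X - C z))` (`absLogHeight_comp_le`, or an equality of vectors up to
sign; `1 ≤ n` as soon as there is a zero). -/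
def S_HP : Prop :=
  ∀ n : ℕ, ∃ C : ℝ, ∀ f : Polynomial Qbar, f ≠ 0 → f.natDegree ≤ n →
    (f.roots.map fun z => absLogHeight ![1, z]).sum ≤ C + absLogHeight (cv n f)

/-- **ML** (Mahler measure). Proof: with `p = f.map ψ`, `‖p.coeff i‖ ≤ 2 ^ d * p.mahlerMeasure`
(`norm_coeff_le_choose_mul_mahlerMeasure`, `Nat.choose_le_two_pow`), `p.mahlerMeasure = ‖p.leadingCoeff‖ *
∏ max 1 ‖z‖` over the roots (`mahlerMeasure_eq_leadingCoeff_mul_prod_roots`), the roots of `p` are the images of
the roots of `f` (`f` splits), and `f.eval a = leadingCoeff * ∏ (a - z)`. Take logarithms. -/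
def S_ML : Prop :=
  ∀ (ψ : Qbar →+* ℂ) (d : ℕ) (f : Polynomial Qbar) (a : Qbar), f ≠ 0 → f.natDegree ≤ d →
    f.eval a ≠ 0 → ∀ i, f.coeff i ≠ 0 →
    Real.log ‖ψ (f.coeff i)‖ ≤
      (f.roots.map fun z => Real.log (max 1 ‖ψ z‖ / ‖ψ (a - z)‖)).sum +
        Real.log ‖ψ (f.eval a)‖ + d * Real.log 2

end Pool.Agent.Run7.h860.Hd
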