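import Pool.Agent.Run7.h860.Hd.Main2
import Pool.Agent.Run7.h860.Hd.Opt

/-!
# Optimality, part two: roots and conjugates, the upper bound for products
-/

set_option autoImplicit false
set_option linter.unusedSectionVars false

open Polynomial Finset Module
open NumberField IsDedekindDomain Height
open Pool.Agent.Helper259.AbsHt Pool.Agent.Helper259.HtPoly

namespace Pool.Agent.Run7.h860.Hd

open Pool.Agent.W180.OP (Pl av wt nrm)
open Pool.Agent.Run7.h860.Nk (exists_enum)

section generic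

variable {k : Type} [Field k] [NumberField k]

/-- the polynomial over the algebraic closure -/
noncomputable def up (g : k[X]) : (AlgebraicClosure k)[X] :=
  g.map (algebraMap k (AlgebraicClosure k))

theorem up_mul (p q : k[X]) : up (p * q) = up p * up q := Polynomial.map_mul _

theorem up_ne_zero {p : k[X]} (hp : p ≠ 0) : up p ≠ 0 :=
  (Polynomial.map_ne_zero_iff (algebraMap k (AlgebraicClosure k)).injective).2 hp

theorem up_natDegree (p : k[X]) : (up p).natDegree = p.natDegree :=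
  Polynomial.natDegree_map _

theorem up_C (c : k) : up (C c) = C (algebraMap k (AlgebraicClosure k) c) := Polynomial.map_C _

theorem up_eval (p : k[X]) (a : AlgebraicClosure k) : (up p).eval a = aeval a p := by
  unfold up
  rw [eval_map_algebraMap]

/-- the sum of `f` over the zeros of `g` -/
noncomputable def rsum (f : AlgebraicClosure k → ℝ) (g : k[X]) : ℝ := ((up g).roots.map f).sum

theorem rsum_mul (f : AlgebraicClosure k → ℝ) {p q : k[X]} (hp : p ≠ 0) (hq : q ≠ 0) :
    rsum f (p * q) = rsum f p + rsum f q := by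
  unfold rsum
  rw [up_mul, roots_mul (mul_ne_zero (up_ne_zero hp) (up_ne_zero hq)), Multiset.map_add,
    Multiset.sum_add]

theorem rsum_C (f : AlgebraicClosure k → ℝ) (c : k) : rsum f (C c) = 0 := by
  unfold rsum
  rw [up_C, roots_C]
  simp

theorem rsum_nonneg {f : AlgebraicClosure k → ℝ} (hf : ∀ z, 0 ≤ f z) (g : k[X]) :
    0 ≤ rsum f g := by
  unfold rsum
  apply Multiset.sum_nonneg
  intro y hy
  obtain ⟨z, -, rfl⟩ := Multiset.mem_map.1 hy
  exact hf z

theorem rsum_minpoly {L : Type} [Field L] [NumberField L] [Algebra k L] (x : L)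
    (hx : IntermediateField.adjoin k {x} = ⊤) (f : AlgebraicClosure k → ℝ) :
    rsum f (minpoly k x) = ∑ σ : L →ₐ[k] AlgebraicClosure k, f (σ x) := by
  classical
  obtain ⟨e, -, h⟩ := exists_enum (k := k) x hx
  unfold rsum up
  rw [h, ← Equiv.sum_comp e]
  have h1 : (∏ i, (X - C (e i x)) : (AlgebraicClosure k)[X]).roots = (univ.val.map fun i => e i x) := by
    have := Polynomial.roots_multiset_prod_X_sub_C (univ.val.map fun i => e i x)
    rw [Multiset.map_map] at this
    exact this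
  rw [h1, Multiset.map_map]
  rfl

theorem exists_field (g : k[X]) (hg : Irreducible g) :
    ∃ (L : Type) (_ : Field L) (_ : NumberField L) (_ : Algebra k L) (x : L),
      IntermediateField.adjoin k {x} = ⊤ ∧ finrank k L = g.natDegree ∧
      minpoly k x = g * C g.leadingCoeff⁻¹ := by
  have : Fact (Irreducible g) := ⟨hg⟩
  have : FiniteDimensional k (AdjoinRoot g) := (AdjoinRoot.powerBasis hg.ne_zero).finite
  have : CharZero (AdjoinRoot g) := charZero_of_injective_algebraMap
    (algebraMap k (AdjoinRoot g)).injective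
  have : NumberField (AdjoinRoot g) :=
    { to_charZero := inferInstance
      to_finiteDimensional := FiniteDimensional.trans ℚ k (AdjoinRoot g) }
  refine ⟨AdjoinRoot g, inferInstance, inferInstance, inferInstance, AdjoinRoot.root g, ?_, ?_, ?_⟩
  · exact IntermediateField.adjoin_root_eq_top g
  · rw [(AdjoinRoot.powerBasis hg.ne_zero).finrank, AdjoinRoot.powerBasis_dim]
  · exact AdjoinRoot.minpoly_root hg.ne_zero

end generic

theorem ht_conj' {L : Type} [Field L] [NumberField L] (φ : L →+* AlgebraicClosure ℚ) (x : L) :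
    absLogHeight ![1, φ x] = logHeight₁ x / finrank ℚ L := by
  have h2 := absLogHeight_eq L φ ![x, 1]
  have h3 := absLogHeight_comp_le (Equiv.swap (0 : Fin 2) 1) ![φ x, 1]
  have h4 := absLogHeight_comp_le (Equiv.swap (0 : Fin 2) 1) ![1, φ x]
  have e1 : (![φ x, 1] ∘ ⇑(Equiv.swap (0 : Fin 2) 1)) = ![1, φ x] := by
    funext j
    fin_cases j <;> simp
  have e2 : (![1, φ x] ∘ ⇑(Equiv.swap (0 : Fin 2) 1)) = ![φ x, 1] := by
    funext j
    fin_cases j <;> simp
  have e3 : (fun j => φ (![x, 1] j)) = ![φ x, 1] := by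
    funext j
    fin_cases j <;> simp
  rw [e1] at h3
  rw [e2] at h4
  rw [e3, ← logHeight₁_eq_logHeight] at h2
  exact (le_antisymm h3 h4).trans h2

theorem ht_conj {L : Type} [Field L] [NumberField L] [iA : Algebra ℚ L]
    (φ : L →+* AlgebraicClosure ℚ) (x : L) :
    absLogHeight ![1, φ x] = logHeight₁ x / finrank ℚ L := by
  obtain rfl : iA = DivisionRing.toRatAlgebra := Subsingleton.elim _ _
  exact ht_conj' φ x

theorem sum_height_eq {L : Type} [Field L] [NumberField L] [Algebra ℚ L] (x : L)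
    (hx : IntermediateField.adjoin ℚ {x} = ⊤) :
    rsum (k := ℚ) (fun z => absLogHeight ![1, z]) (minpoly ℚ x) = logHeight₁ x := by
  classical
  rw [rsum_minpoly x hx]
  obtain ⟨e, -, -⟩ := exists_enum (k := ℚ) x hx
  rw [← Equiv.sum_comp e]
  have h1 : ∀ i, absLogHeight ![1, e i x] = logHeight₁ x / finrank ℚ L := fun i =>
    ht_conj (e i : L →+* AlgebraicClosure ℚ) x
  rw [Finset.sum_congr rfl fun i _ => h1 i, Finset.sum_const, Finset.card_univ, Fintype.card_fin,
    nsmul_eq_mul]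
  have : (0 : ℝ) < finrank ℚ L := by exact_mod_cast Module.finrank_pos
  field_simp

section weil

variable {k : Type} [Field k] [NumberField k]

/-- the Weil function at `a` -/
noncomputable def lw (ψ : AlgebraicClosure k →+* ℂ) (a z : AlgebraicClosure k) : ℝ :=
  Real.log (max 1 ‖ψ z‖ / ‖ψ (a - z)‖)

theorem lw_ge (ψ : AlgebraicClosure k →+* ℂ) (a z : AlgebraicClosure k) :
    -Real.log (1 + ‖ψ a‖) ≤ lw ψ a z := by
  have h0 : 0 ≤ ‖ψ a‖ := norm_nonneg _
  unfold lw
  by_cases h : a = z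
  · rw [h, sub_self, map_zero, norm_zero, div_zero, Real.log_zero, neg_nonpos]
    exact Real.log_nonneg (by have := norm_nonneg (ψ z); linarith)
  · have h1 : 0 < ‖ψ (a - z)‖ := norm_pos_iff.2 ((map_ne_zero ψ).2 (sub_ne_zero.2 h))
    rw [← Real.log_inv]
    apply Real.log_le_log (by positivity)
    rw [le_div_iff₀ h1, inv_mul_le_iff₀ (by positivity)]
    have h2 : ‖ψ (a - z)‖ ≤ ‖ψ a‖ + ‖ψ z‖ := by
      rw [map_sub]
      exact norm_sub_le _ _
    have h3 : 1 ≤ max 1 ‖ψ z‖ := le_max_left _ _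
    have h4 : ‖ψ z‖ ≤ max 1 ‖ψ z‖ := le_max_right _ _
    nlinarith

/-- the field without new elements -/
noncomputable abbrev Ad0 (k : Type) [Field k] : IntermediateField k (AlgebraicClosure k) :=
  IntermediateField.adjoin k (((∅ : Finset (AlgebraicClosure k))) : Set (AlgebraicClosure k))

theorem deg_le {g : k[X]} (hg : g ≠ 0) {a : AlgebraicClosure k} (h : aeval a g = 0) :
    (minpoly (Ad0 k) a).natDegree ≤ g.natDegree := by
  have h1 : aeval a (g.map (algebraMap k (Ad0 k))) = 0 := by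
    rw [aeval_map_algebraMap]
    exact h
  have h2 := natDegree_le_of_dvd (minpoly.dvd _ _ h1)
    ((Polynomial.map_ne_zero_iff (algebraMap k (Ad0 k)).injective).2 hg)
  rwa [natDegree_map] at h2

theorem deg_ad0 (a : AlgebraicClosure k) :
    (minpoly k a).natDegree ≤ (minpoly (Ad0 k) a).natDegree := by
  have hsurj : Function.Surjective (algebraMap k (Ad0 k)) := by
    intro y
    have hy : (y : AlgebraicClosure k) ∈ (⊥ : IntermediateField k (AlgebraicClosure k)) := by
      have h1 : Ad0 k = ⊥ := by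
        rw [IntermediateField.adjoin_eq_bot_iff]
        intro z hz
        simp at hz
      rw [← h1]
      exact y.2
    obtain ⟨c, hc⟩ := IntermediateField.mem_bot.1 hy
    exact ⟨c, Subtype.ext hc⟩
  obtain ⟨q, hq⟩ := Polynomial.map_surjective _ hsurj (minpoly (Ad0 k) a)
  have hint : IsIntegral (Ad0 k) a := (Algebra.IsIntegral.isIntegral (R := k) a).tower_top
  have hq0 : q ≠ 0 := by
    intro h
    rw [h, Polynomial.map_zero] at hq
    exact minpoly.ne_zero hint hq.symm
  have h1 : aeval a q = 0 := by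
    rw [← aeval_map_algebraMap (Ad0 k), hq, minpoly.aeval]
  have h2 := natDegree_le_of_dvd (minpoly.dvd _ _ h1) hq0
  rw [← hq, natDegree_map]
  exact h2

theorem gen_single {a : AlgebraicClosure k} {d e : ℕ} (hed : e ≤ d)
    (h : d ^ 2 < (minpoly (Ad0 k) a).natDegree) :
    GenPos k (AlgebraicClosure k) {a} e := by
  intro B hB hBe b hb hbB
  rw [Finset.mem_singleton] at hb
  subst hb
  have hB0 : B = ∅ := by
    rw [Finset.eq_empty_iff_forall_notMem]
    intro y hy
    have := hB hy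
    rw [Finset.mem_singleton] at this
    subst this
    exact hbB hy
  subst hB0
  exact (Nat.pow_le_pow_left hed 2).trans_lt h

theorem card_hom {L : Type} [Field L] [NumberField L] [Algebra k L] (x : L)
    (hx : IntermediateField.adjoin k {x} = ⊤) :
    Fintype.card (L →ₐ[k] AlgebraicClosure k) = finrank k L := by
  obtain ⟨e, -, -⟩ := exists_enum (k := k) x hx
  rw [← Fintype.card_congr e, Fintype.card_fin]

/-- the sum over the conjugates -/
noncomputable def psum (f : AlgebraicClosure k → ℝ) {L : Type} [Field L] [NumberField L]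
    [Algebra k L] (x : L) : ℝ := ∑ σ : L →ₐ[k] AlgebraicClosure k, f (σ x)

theorem psum_ge {f g : AlgebraicClosure k → ℝ} {c : ℝ} (h : ∀ z, f z - c ≤ g z)
    {L : Type} [Field L] [NumberField L] [Algebra k L] (x : L)
    (hx : IntermediateField.adjoin k {x} = ⊤) :
    psum f x - finrank k L * c ≤ psum g x := by
  have h5 := Finset.sum_le_sum
    fun σ (_ : σ ∈ (Finset.univ : Finset (L →ₐ[k] AlgebraicClosure k))) => h (σ x)
  rw [Finset.sum_sub_distrib, Finset.sum_const, Finset.card_univ, card_hom x hx, nsmul_eq_mul] at h5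
  exact h5

theorem minSum_ge (F : AbsoluteValue (AlgebraicClosure k) ℝ) (a : AlgebraicClosure k) {C1 : ℝ}
    (h1 : ∀ z, -C1 ≤ lm F a z)
    {L : Type} [Field L] [NumberField L] [Algebra k L] (x : L)
    (hx : IntermediateField.adjoin k {x} = ⊤) (hC1 : 0 ≤ C1) :
    lamSum F {a} x - (finrank k L : ℝ) ^ 2 * C1 ≤ minSum F {a} x := by
  classical
  unfold lamSum minSum
  simp only [Finset.sum_singleton]
  have h2 : ∀ σ : L →ₐ[k] AlgebraicClosure k, lm F a (σ x) - finrank k L * C1 ≤
      ∑ τ : L →ₐ[k] AlgebraicClosure k, min (lm F a (σ x)) (lm F a (τ x)) := by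
    intro σ
    rw [← Finset.add_sum_erase _ _ (Finset.mem_univ σ), min_self]
    have h3 : ∑ τ ∈ (Finset.univ : Finset (L →ₐ[k] AlgebraicClosure k)).erase σ, (-C1) ≤
        ∑ τ ∈ (Finset.univ : Finset (L →ₐ[k] AlgebraicClosure k)).erase σ,
          min (lm F a (σ x)) (lm F a (τ x)) :=
      Finset.sum_le_sum fun τ _ => le_min (h1 _) (h1 _)
    rw [Finset.sum_const, nsmul_eq_mul] at h3
    have h4 : (((Finset.univ : Finset (L →ₐ[k] AlgebraicClosure k)).erase σ).card : ℝ) ≤
        finrank k L := by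
      rw [← card_hom x hx, ← Finset.card_univ]
      exact_mod_cast Finset.card_le_card (Finset.erase_subset _ _)
    nlinarith
  have h5 := Finset.sum_le_sum fun σ (_ : σ ∈ (Finset.univ : Finset (L →ₐ[k] AlgebraicClosure k))) => h2 σ
  rw [Finset.sum_sub_distrib, Finset.sum_const, Finset.card_univ, card_hom x hx, nsmul_eq_mul] at h5
  linarith [h5]

end weil

section

open Pool.Agent.Helper259.AbsHt

/-- the absolute value of `ℂ` -/
noncomputable def AV (ψ : AlgebraicClosure ℚ →+* ℂ) : AbsoluteValue (AlgebraicClosure ℚ) ℝ :=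
  (NormedField.toAbsoluteValue ℂ).comp ψ.injective

/-- the height -/
noncomputable def ht (z : AlgebraicClosure ℚ) : ℝ := absLogHeight ![1, z]

theorem ht_nonneg (z : AlgebraicClosure ℚ) : 0 ≤ ht z := absLogHeight_nonneg _

theorem ub_deg (hGP : S_GP) (hHE : S_HE) (hSO : S_SO) (hLO : S_LO) (hDC : S_DC) (hEX : S_EX)
    (ψ : AlgebraicClosure ℚ →+* ℂ) (a : AlgebraicClosure ℚ) {d e : ℕ} (he : 0 < e) (hed : e ≤ d)
    (hdeg : d ^ 2 < (minpoly (Ad0 ℚ) a).natDegree) {ε : ℝ} (hε : 0 < ε) :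
    ∃ C : ℝ, 0 ≤ C ∧ ∀ g : ℚ[X], Irreducible g → g.natDegree = e →
      rsum (lw ψ a) g ≤ (e + 1) * (1 + ε) * rsum ht g + C := by
  classical
  have hsub : ∀ w : InfinitePlace ℚ,
      InfinitePlace.mk ((fun _ : InfinitePlace ℚ => ψ) w |>.comp
        (algebraMap ℚ (AlgebraicClosure ℚ))) = w := fun w => Subsingleton.elim _ _
  obtain ⟨C0, hC0⟩ := half_gen (k := ℚ) hGP hHE hSO hLO hDC hEX ∅ (fun _ => ψ) hsub
    (fun _ => AV ψ) (by simp) {a} ⟨a, Finset.mem_singleton_self a⟩ e he (gen_single hed hdeg) ε hε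
    (fun _ => AV ψ) (fun _ _ => rfl) (fun _ => rfl)
  have hC1 : 0 ≤ Real.log (1 + ‖ψ a‖) :=
    Real.log_nonneg (by have := norm_nonneg (ψ a); linarith)
  refine ⟨|C0| + e ^ 2 * Real.log (1 + ‖ψ a‖), by positivity, fun g hg hge => ?_⟩
  obtain ⟨L, i1, i2, i3, x, hx, hfin, hmin⟩ := exists_field (k := ℚ) g hg
  have hc : (C g.leadingCoeff⁻¹ : ℚ[X]) ≠ 0 := by
    rw [Ne, C_eq_zero, inv_eq_zero, leadingCoeff_eq_zero]
    exact hg.ne_zero
  have hr : ∀ f : AlgebraicClosure ℚ → ℝ, rsum (k := ℚ) f g = rsum (k := ℚ) f (minpoly ℚ x) := by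
    intro f
    rw [hmin, rsum_mul f hg.ne_zero hc, rsum_C, add_zero]
  have hax : ∀ b ∈ ({a} : Finset (AlgebraicClosure ℚ)), ∀ σ : L →ₐ[ℚ] AlgebraicClosure ℚ, b ≠ σ x := by
    intro b hb σ h
    rw [Finset.mem_singleton] at hb
    subst hb
    have h1 : aeval (σ x) (minpoly ℚ x) = 0 := by
      rw [aeval_algHom_apply, minpoly.aeval, map_zero]
    rw [← h] at h1
    have hint : IsIntegral ℚ x := IsIntegral.of_finite ℚ x
    have h2 := deg_le (k := ℚ) (minpoly.ne_zero hint) h1
    obtain ⟨-, h3, -⟩ := exists_enum (k := ℚ) x hx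
    rw [h3, hfin, hge] at h2
    have h4 : e ≤ d ^ 2 := hed.trans (Nat.le_self_pow (by norm_num) d)
    omega
  have h := hC0 L x hx (hfin.trans hge) hax
  rw [Finset.sum_disjSum, Finset.sum_empty, add_zero] at h
  have h5 : ∑ w : InfinitePlace ℚ, (w.mult : ℝ) = 1 := by
    have := InfinitePlace.sum_mult_eq (K := ℚ)
    rw [finrank_self] at this
    exact_mod_cast this
  have h6 : ∑ w : InfinitePlace ℚ, (w.mult : ℝ) *
      (minSum (k := ℚ) (AV ψ) {a} x + lamSum (k := ℚ) (AV ψ) {a} x) ≤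
      2 * (e + 1) * (1 + ε) * logHeight₁ x + C0 := h
  rw [← Finset.sum_mul, h5, one_mul] at h6
  have h7 := minSum_ge (k := ℚ) (AV ψ) a (fun z => lw_ge ψ a z) x hx hC1
  rw [hfin, hge] at h7
  have h8 : lamSum (k := ℚ) (AV ψ) {a} x = rsum (k := ℚ) (lw ψ a) g := by
    rw [hr, rsum_minpoly x hx]
    unfold lamSum
    simp only [Finset.sum_singleton]
    rfl
  have h9 : logHeight₁ x = rsum (k := ℚ) ht g := by
    rw [hr, ← sum_height_eq x hx]
    rfl
  rw [h8] at h6 h7
  rw [h9] at h6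
  have h10 : C0 ≤ |C0| := le_abs_self _
  have h11 : 0 ≤ |C0| := abs_nonneg _
  have h12 : 0 ≤ (e : ℝ) ^ 2 * Real.log (1 + ‖ψ a‖) := by positivity
  nlinarith

theorem ub_prod (hGP : S_GP) (hHE : S_HE) (hSO : S_SO) (hLO : S_LO) (hDC : S_DC) (hEX : S_EX)
    (ψ : AlgebraicClosure ℚ →+* ℂ) (a : AlgebraicClosure ℚ) {d : ℕ}
    (hdeg : d ^ 2 < (minpoly (Ad0 ℚ) a).natDegree) {ε : ℝ} (hε : 0 < ε) :
    ∃ C : ℝ, 0 ≤ C ∧ ∀ m ≤ d, ∀ f : ℚ[X], f ≠ 0 → (∀ g, Irreducible g → g ∣ f → g.natDegree ≤ m) →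
      rsum (lw ψ a) f ≤ (m + 1) * (1 + ε) * rsum ht f + f.natDegree * C := by
  classical
  have hall : ∀ e : ℕ, ∃ C : ℝ, 0 ≤ C ∧ (0 < e → e ≤ d → ∀ g : ℚ[X], Irreducible g →
      g.natDegree = e → rsum (lw ψ a) g ≤ (e + 1) * (1 + ε) * rsum ht g + C) := by
    intro e
    by_cases he : 0 < e ∧ e ≤ d
    · obtain ⟨C, h0, h⟩ := ub_deg hGP hHE hSO hLO hDC hEX ψ a he.1 he.2 hdeg hε
      exact ⟨C, h0, fun _ _ => h⟩
    · exact ⟨0, le_rfl, fun h1 h2 => absurd ⟨h1, h2⟩ he⟩
  choose C hC0 hC using hall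
  refine ⟨∑ e ∈ Finset.range (d + 1), C e, Finset.sum_nonneg fun e _ => hC0 e, ?_⟩
  intro m hm f
  refine UniqueFactorizationMonoid.induction_on_prime f ?_ ?_ ?_
  · intro h
    exact absurd rfl h
  · intro x hx hx0 _
    obtain ⟨c, -, rfl⟩ := Polynomial.isUnit_iff.1 hx
    rw [rsum_C, rsum_C, natDegree_C]
    simp
  · intro q p hq hp ih hpq hdiv
    have hirr : Irreducible p := hp.irreducible
    have h1 := ih hq fun g hg hgq => hdiv g hg (hgq.mul_left p)
    have h2 : p.natDegree ≤ m := hdiv p hirr (Dvd.intro q rfl)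
    have h3 := hC p.natDegree hirr.natDegree_pos (h2.trans hm) p hirr rfl
    have h4 : C p.natDegree ≤ ∑ e ∈ Finset.range (d + 1), C e :=
      Finset.single_le_sum (f := C) (fun e _ => hC0 e) (Finset.mem_range.2 (by omega))
    have h5 : 0 ≤ rsum (k := ℚ) ht p := rsum_nonneg ht_nonneg p
    have h6 : (p.natDegree : ℝ) ≤ m := by exact_mod_cast h2
    have h7 : (1 : ℝ) ≤ p.natDegree := by exact_mod_cast hirr.natDegree_pos
    have h8 : 0 ≤ ∑ e ∈ Finset.range (d + 1), C e := Finset.sum_nonneg fun e _ => hC0 e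
    rw [rsum_mul _ hp.ne_zero hq, rsum_mul _ hp.ne_zero hq, natDegree_mul hp.ne_zero hq]
    push_cast
    have h9 : ((p.natDegree : ℝ) + 1) * (1 + ε) * rsum (k := ℚ) ht p ≤
        (m + 1) * (1 + ε) * rsum (k := ℚ) ht p := by gcongr
    nlinarith

end

end Pool.Agent.Run7.h860.Hd
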