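import Pool.Agent.Run7.h860.Nk.Fin
import Pool.Agent.Run7.h860.Hd.Stm

/-!
The subspace theorem for all choices of bases in a finite family of forms.
-/

set_option autoImplicit false

open Finset Polynomial Module

namespace Pool.Agent.Run7.h860.Hd

open NumberField IsDedekindDomain Height
open Pool.Agent.W180.OP (Pl av wt nrm le_nrm nrm_pos nrm_nonneg exists_nrm wt_nonneg
  fv_support_finite)
open Pool.Agent.R405 (Good exists_good logHeight_sum nrm_finite sch projH)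

variable {k : Type} [Field k] [NumberField k]

theorem sub_forms {t : ℕ} (ht : 0 < t) (S : Finset (Pl k)) {K : Type} [Field K] [NumberField K]
    [Algebra k K] [IsGalois ℚ K] (hi : ∃ z : K, z ^ 2 = -1) (f : Pl k → AbsoluteValue K ℝ)
    (hgood : ∀ v ∈ S, Good v (f v)) {ι : Type} [Fintype ι] [DecidableEq ι] (c : ι → Fin t → K)
    (ε : ℝ) (hε : 0 < ε) :
    ∃ (Z : Finset (Fin t → K)) (C0 : ℝ), 0 ≤ C0 ∧ (∀ q ∈ Z, q ≠ 0) ∧
      ∀ u : Fin t → k, (∀ q ∈ Z, ∑ j, q j * algebraMap k K (u j) ≠ 0) →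
        (∀ i, c i ≠ 0 → ∑ j, c i j * algebraMap k K (u j) ≠ 0) ∧
        ∀ β : Pl k → Fin t → ι, (∀ v ∈ S, (Matrix.of fun a => c (β v a)).det ≠ 0) →
          ∑ v ∈ S, wt v * ∑ a, (Real.log (nrm (av v) u) -
            Real.log (f v (∑ j, c (β v a) j * algebraMap k K (u j)))) ≤
          ((t : ℝ) + ε) * logHeight u + C0 := by
  classical
  set Bm : (↥S → Fin t → ι) → Pl k → Fin t → Fin t → K :=
    fun γ v a => if h : v ∈ S then c (γ ⟨v, h⟩ a) else 0 with hBm
  have hsub : ∀ γ : ↥S → Fin t → ι,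
      ∃ (Z : Finset (Fin t → K)) (C0 : ℝ), (∀ q ∈ Z, q ≠ 0) ∧
      ((∀ v ∈ S, (Matrix.of (Bm γ v)).det ≠ 0) → ∀ x : Fin t → k,
      (∀ q ∈ Z, ∑ j, q j * algebraMap k K (x j) ≠ 0) →
      ∑ v ∈ S, wt v * ∑ a, (Real.log (nrm (av v) x) -
        Real.log (f v (∑ j, Bm γ v a j * algebraMap k K (x j)))) ≤
        ((t : ℝ) + ε) * logHeight x + C0) := by
    intro γ
    by_cases hdet : ∀ v ∈ S, (Matrix.of (Bm γ v)).det ≠ 0
    · obtain ⟨Z, C0, h1, h2⟩ := sch hi ht S f hgood (Bm γ) hdet ε hε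
      exact ⟨Z, C0, h1, fun _ => h2⟩
    · exact ⟨∅, 0, by simp, fun h => absurd h hdet⟩
  choose Zs Cs hZs hCs using hsub
  refine ⟨(Finset.univ.biUnion Zs) ∪ ((Finset.univ.image c).filter fun q => q ≠ 0),
    ∑ γ, |Cs γ|, Finset.sum_nonneg fun _ _ => abs_nonneg _, ?_, ?_⟩
  · intro q hq
    rcases Finset.mem_union.1 hq with hq | hq
    · obtain ⟨γ, -, hγ⟩ := Finset.mem_biUnion.1 hq
      exact hZs γ q hγ
    · exact (Finset.mem_filter.1 hq).2
  · intro u hq
    refine ⟨fun i hi0 => hq (c i) (Finset.mem_union_right _ (Finset.mem_filter.2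
        ⟨Finset.mem_image_of_mem _ (Finset.mem_univ i), hi0⟩)), ?_⟩
    intro β hβ
    set γ : ↥S → Fin t → ι := fun v => β v.1 with hγ
    have hBγ : ∀ v ∈ S, Bm γ v = fun a => c (β v a) := by
      intro v hv
      funext a
      simp only [hBm, hγ, dif_pos hv]
    have h1 := hCs γ (fun v hv => by rw [hBγ v hv]; exact hβ v hv) u
      (fun q hq' => hq q (Finset.mem_union_left _
        (Finset.mem_biUnion.2 ⟨γ, Finset.mem_univ _, hq'⟩)))
    have h2 : Cs γ ≤ ∑ γ, |Cs γ| := (le_abs_self _).trans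
      (Finset.single_le_sum (f := fun γ => |Cs γ|) (fun _ _ => abs_nonneg _) (Finset.mem_univ γ))
    have h3 : ∑ v ∈ S, wt v * ∑ a, (Real.log (nrm (av v) u) -
        Real.log (f v (∑ j, c (β v a) j * algebraMap k K (u j)))) =
        ∑ v ∈ S, wt v * ∑ a, (Real.log (nrm (av v) u) -
        Real.log (f v (∑ j, Bm γ v a j * algebraMap k K (u j)))) := by
      refine Finset.sum_congr rfl fun v hv => ?_
      rw [hBγ v hv]
    rw [h3]
    linarith

end Pool.Agent.Run7.h860.Hd
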