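import Pool.Agent.Run7.h860.Hd.Loc
import Pool.Agent.Run7.h860.Hd.Sub

/-!
The inequality outside finitely many subspaces.
-/

set_option autoImplicit false

open Finset Polynomial Module

namespace Pool.Agent.Run7.h860.Hd

open NumberField IsDedekindDomain Height
open Pool.Agent.W180.OP (Pl av wt nrm le_nrm nrm_pos nrm_nonneg exists_nrm wt_nonneg
  fv_support_finite)
open Pool.Agent.R405 (Good exists_good logHeight_sum nrm_finite sch projH)
open Pool.Agent.Run7.h860.Nk (toP toP_coeff toP_natDegree_le toP_self colMap frmMap)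

section Alg

variable {k A : Type} [Field k] [Field A] [Algebra k A]

theorem hasseDeriv_map' (f : k[X]) (j : ℕ) :
    (hasseDeriv j f).map (algebraMap k A) = hasseDeriv j (f.map (algebraMap k A)) := by
  ext n
  rw [coeff_map, hasseDeriv_coeff, hasseDeriv_coeff, coeff_map, map_mul, map_natCast]

theorem aeval_hd (f : k[X]) (j : ℕ) (a : A) :
    aeval a (hasseDeriv j f) = (hasseDeriv j (f.map (algebraMap k A))).eval a := by
  rw [← hasseDeriv_map', eval_map, aeval_def]

/-- the Taylor coefficients as linear forms on the space with basis `e` -/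
noncomputable def cf {d t : ℕ} (e : Fin t → Fin (d + 1) → k) (a : A) (j : ℕ) (l : Fin t) : A :=
  aeval a (hasseDeriv j (toP (e l)))

theorem sum_toP {d t : ℕ} (e : Fin t → Fin (d + 1) → k) (f : k[X]) (hf : f.natDegree ≤ d)
    (u : Fin t → k) (hu : ∀ l : Fin (d + 1), f.coeff l = ∑ j, u j * e j l) :
    f = ∑ j, u j • toP (e j) := by
  ext n
  rw [finsetSum_coeff]
  simp only [coeff_smul, smul_eq_mul]
  rcases Nat.lt_or_ge n (d + 1) with h | h
  · have h1 := hu ⟨n, h⟩
    have h2 : ∀ j, (toP (e j)).coeff n = e j ⟨n, h⟩ := fun j => toP_coeff (e j) ⟨n, h⟩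
    simp only [h2]
    exact h1
  · rw [coeff_eq_zero_of_natDegree_lt (by omega)]
    refine (Finset.sum_eq_zero fun j _ => ?_).symm
    rw [coeff_eq_zero_of_natDegree_lt ((toP_natDegree_le (e j)).trans_lt (by omega)), mul_zero]

theorem cf_sum {d t : ℕ} (e : Fin t → Fin (d + 1) → k) (f : k[X]) (hf : f.natDegree ≤ d)
    (u : Fin t → k) (hu : ∀ l : Fin (d + 1), f.coeff l = ∑ j, u j * e j l) (a : A) (j : ℕ) :
    ∑ l, cf e a j l * algebraMap k A (u l) =
      (hasseDeriv j (f.map (algebraMap k A))).eval a := by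
  rw [← aeval_hd, sum_toP e f hf u hu, map_sum, map_sum]
  refine Finset.sum_congr rfl fun l _ => ?_
  rw [map_smul, map_smul, Algebra.smul_def, mul_comm]
  rfl

theorem toP_li {d t : ℕ} (e : Fin t → Fin (d + 1) → k) (P : Fin t → Fin (d + 1) → k)
    (hP : ∀ i j, ∑ l, P i l * e j l = if i = j then 1 else 0) :
    LinearIndependent k (fun l => toP (e l)) := by
  rw [Fintype.linearIndependent_iff]
  intro y hy i
  have h1 : ∀ m : Fin (d + 1), ∑ l, y l * e l m = 0 := by
    intro m
    have h2 := congrArg (fun p : k[X] => p.coeff (m : ℕ)) hy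
    simp only [finsetSum_coeff, coeff_smul, smul_eq_mul, toP_coeff, coeff_zero] at h2
    exact h2
  have h5 : ∑ m, P i m * ∑ l, y l * e l m = y i := by
    calc ∑ m, P i m * ∑ l, y l * e l m = ∑ l, y l * ∑ m, P i m * e l m := by
          simp only [Finset.mul_sum]
          rw [Finset.sum_comm]
          refine Finset.sum_congr rfl fun l _ => Finset.sum_congr rfl fun m _ => by ring
      _ = y i := by
          simp only [hP, mul_ite, mul_one, mul_zero]
          rw [Finset.sum_ite_eq]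
          simp
  rw [← h5]
  exact Finset.sum_eq_zero fun m _ => by rw [h1 m, mul_zero]

theorem ker_all (hGP : S_GP) (hHE : S_HE) [CharZero k] [Algebra.IsAlgebraic k A]
    (D : Finset A) {d t : ℕ} (hgen : GenPos k A D d) (htd : t ≤ d + 1)
    (e : Fin t → Fin (d + 1) → k) (P : Fin t → Fin (d + 1) → k)
    (hP : ∀ i j, ∑ l, P i l * e j l = if i = j then 1 else 0) :
    ∀ ν : ↥D → ℕ, ∑ a, ν a = t → ∀ y : Fin t → A,
      (∀ a, ∀ j : Fin (d + 1), (j : ℕ) < ν a → ∑ i, cf e a.1 (j : ℕ) i * y i = 0) → y = 0 := by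
  classical
  intro ν hν y hy
  set ν' : A → ℕ := fun a => if h : a ∈ D then ν ⟨a, h⟩ else 0 with hν'
  have hsum : ∑ a ∈ D, ν' a = t := by
    rw [← hν, ← Finset.sum_coe_sort D]
    refine Finset.sum_congr rfl fun a _ => ?_
    simp only [hν', dif_pos a.2]
  have hle : ∀ a, ν a ≤ t := fun a => by
    rw [← hν]
    exact Finset.single_le_sum (fun _ _ => Nat.zero_le _) (Finset.mem_univ a)
  have hy' : ∀ a ∈ D, ∀ j < ν' a, ∑ i, y i * aeval a (hasseDeriv j (toP (e i))) = 0 := by
    intro a ha j hj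
    simp only [hν', dif_pos ha] at hj
    have h1 := hle ⟨a, ha⟩
    have h2 := hy ⟨a, ha⟩ ⟨j, by omega⟩ hj
    rw [← h2]
    exact Finset.sum_congr rfl fun i _ => mul_comm _ _
  rcases Nat.lt_or_ge d t with h | h
  · have hc : CharZero A := charZero_of_injective_algebraMap (algebraMap k A).injective
    have htd' : t = d + 1 := by omega
    set f : Polynomial A := ∑ i, C (y i) * (toP (e i)).map (algebraMap k A) with hf
    have hf0 : f = 0 := by
      refine hHE A D d f ?_ ν' (by rw [hsum, htd']) ?_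
      · refine natDegree_sum_le_of_forall_le _ _ fun i _ => ?_
        refine (natDegree_C_mul_le _ _).trans ?_
        rw [natDegree_map]
        exact toP_natDegree_le _
      · intro a ha j hj
        rw [← hy' a ha j hj, hf, map_sum, eval_finsetSum]
        refine Finset.sum_congr rfl fun i _ => ?_
        rw [aeval_hd, ← smul_eq_C_mul, map_smul, eval_smul, smul_eq_mul]
    have h1 : ∀ m : Fin (d + 1), ∑ l, y l * algebraMap k A (e l m) = 0 := by
      intro m
      have h2 := congrArg (fun p : Polynomial A => p.coeff (m : ℕ)) hf0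
      simp only [hf, finsetSum_coeff, coeff_C_mul, coeff_map, toP_coeff, coeff_zero] at h2
      exact h2
    funext i
    have h5 : ∑ m, algebraMap k A (P i m) * ∑ l, y l * algebraMap k A (e l m) = y i := by
      calc ∑ m, algebraMap k A (P i m) * ∑ l, y l * algebraMap k A (e l m) =
            ∑ l, y l * algebraMap k A (∑ m, P i m * e l m) := by
            simp only [Finset.mul_sum, map_sum, map_mul]
            rw [Finset.sum_comm]
            refine Finset.sum_congr rfl fun l _ => Finset.sum_congr rfl fun m _ => by ring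
        _ = y i := by
            simp only [hP]
            rw [Finset.sum_eq_single i]
            · simp
            · intro l _ hl
              rw [if_neg (Ne.symm hl), map_zero, mul_zero]
            · intro h
              exact absurd (Finset.mem_univ _) h
    rw [← h5]
    exact Finset.sum_eq_zero fun m _ => by rw [h1 m, mul_zero]
  · exact hGP k A D d hgen t (fun l => toP (e l)) h (toP_li e P hP)
      (fun l => toP_natDegree_le _) ν' hsum y hy'

end Alg

variable {k : Type} [Field k] [NumberField k]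

/-- the local statement: a basis among the Taylor coefficients with large weight -/
def LocS {A : Type} [Field A] (F : AbsoluteValue A ℝ) (d t : ℕ) (D : Finset A)
    (c : ↥D × Fin (d + 1) → Fin t → A) (κ : ℝ) (X : (Fin d → A) → ℝ) : Prop :=
  ∃ C0 : ℝ, ∀ (z : Fin d → A) (N : ℝ), 0 < N →
      (∀ j, F ((∏ i, (Polynomial.X - C (z i))).coeff j) ≤ N) → (∀ a ∈ D, ∀ i, a ≠ z i) →
      (∀ p : ↥D × Fin (d + 1), c p ≠ 0 →
        (hasseDeriv (p.2 : ℕ) (∏ i, (Polynomial.X - C (z i)))).eval p.1.1 ≠ 0) →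
      ∃ s : Fin t → ↥D × Fin (d + 1), (Matrix.of fun a => c (s a)).det ≠ 0 ∧
        (t : ℝ) * X z ≤ κ * (max t d : ℕ) * ∑ i, (Real.log N -
          Real.log (F ((hasseDeriv ((s i).2 : ℕ)
            (∏ i, (Polynomial.X - C (z i)))).eval (s i).1.1))) + C0

theorem step2 {d t : ℕ} (ht : 0 < t) (htd : t ≤ d + 1) (T : Finset (HeightOneSpectrum (𝓞 k)))
    (F : Pl k → AbsoluteValue (AlgebraicClosure k) ℝ)
    (hF : ∀ v ∈ (Finset.univ : Finset (InfinitePlace k)).disjSum T, ∀ x : k,
      F v (algebraMap k (AlgebraicClosure k) x) = av v x)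
    (D : Finset (AlgebraicClosure k)) (hne : D.Nonempty)
    (κ : ℝ) (hκ : 0 ≤ κ) (W : AbsoluteValue (AlgebraicClosure k) ℝ →
      (Fin d → AlgebraicClosure k) → ℝ)
    (e : Fin t → Fin (d + 1) → k) (P : Fin t → Fin (d + 1) → k)
    (hP : ∀ i j, ∑ l, P i l * e j l = if i = j then 1 else 0)
    (hloc : ∀ G : AbsoluteValue (AlgebraicClosure k) ℝ,
      LocS G d t D (fun p l => cf e p.1.1 (p.2 : ℕ) l) κ (W G))
    {K : Type} [Field K] [NumberField K] [Algebra k K] [IsGalois ℚ K] (hi : ∃ z : K, z ^ 2 = -1)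
    (φ : K →ₐ[k] AlgebraicClosure k)
    (hgood : ∀ v ∈ (Finset.univ : Finset (InfinitePlace k)).disjSum T,
      Good v ((F v).comp (φ : K →+* AlgebraicClosure k).injective))
    (hDK : ∀ a ∈ D, ∃ y : K, φ y = a) (ε : ℝ) (hε : 0 < ε) :
    ∃ (Z : Finset (Fin t → K)) (C0 : ℝ), (∀ q ∈ Z, q ≠ 0) ∧
      ∀ (f : k[X]) (u : Fin t → k) (z : Fin d → AlgebraicClosure k),
        f.Monic → f.natDegree = d →
        (∀ l : Fin (d + 1), f.coeff l = ∑ j, u j * e j l) →
        f.map (algebraMap k (AlgebraicClosure k)) = ∏ i, (X - C (z i)) →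
        (∀ a ∈ D, ∀ i, a ≠ z i) →
        (∀ q ∈ Z, ∑ j, q j * algebraMap k K (u j) ≠ 0) →
        ∑ v ∈ (Finset.univ : Finset (InfinitePlace k)).disjSum T, wt v * W (F v) z ≤
          κ * (d + 1) * (1 + ε) * logHeight (fun l : Fin (d + 1) => f.coeff l) + C0 := by
  classical
  set S : Finset (Pl k) := (Finset.univ : Finset (InfinitePlace k)).disjSum T with hS
  choose yD hyD using fun a : ↥D => hDK a.1 a.2
  set cK : ↥D × Fin (d + 1) → Fin t → K := fun p l => cf e (yD p.1) (p.2 : ℕ) l with hcK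
  set cA : ↥D × Fin (d + 1) → Fin t → AlgebraicClosure k :=
    fun p l => cf e p.1.1 (p.2 : ℕ) l with hcA
  have hφc : ∀ p l, φ (cK p l) = cA p l := by
    intro p l
    simp only [hcK, hcA, cf]
    rw [← aeval_algHom_apply, hyD]
  choose Cl hCl using fun v : Pl k => hloc (F v)
  obtain ⟨Z, Cs, hCs0, hZ, hsub⟩ := sub_forms ht S hi
    (fun v => (F v).comp (φ : K →+* AlgebraicClosure k).injective) hgood cK ε hε
  obtain ⟨CP, hCP0, hCP⟩ := projH P S
  obtain ⟨CP', hCP'0, hCP'⟩ := projH P (∅ : Finset (Pl k))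
  have ht0 : (0 : ℝ) < t := by exact_mod_cast ht
  have ht1 : (1 : ℝ) ≤ t := by exact_mod_cast ht
  have hmx0 : (0 : ℝ) ≤ (max t d : ℕ) := Nat.cast_nonneg _
  have hmx1 : ((max t d : ℕ) : ℝ) ≤ d + 1 := by
    exact_mod_cast max_le htd (Nat.le_succ d)
  refine ⟨Z, (∑ v ∈ S, wt v * |Cl v| + κ * (max t d : ℕ) *
    (ε * CP' + t * CP + Cs)) / t, hZ, ?_⟩
  intro f u z hmon hfd hfu hfz hz hq
  obtain ⟨hnzK, hβ⟩ := hsub u hq
  set fv : Fin (d + 1) → k := fun l => f.coeff l with hfv
  have hlast : fv (Fin.last d) = 1 := by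
    show f.coeff d = 1
    rw [← hfd]
    exact hmon
  have hfv0 : fv ≠ 0 := by
    intro h
    rw [h] at hlast
    exact zero_ne_one hlast
  have hPu : (fun i => ∑ j, P i j * fv j) = u := by
    funext i
    have h1 : ∀ l, fv l = ∑ j, u j * e j l := hfu
    calc ∑ l, P i l * fv l = ∑ l, P i l * ∑ j, u j * e j l :=
          Finset.sum_congr rfl fun l _ => by rw [h1]
      _ = ∑ j, u j * ∑ l, P i l * e j l := by
          simp only [Finset.mul_sum]
          rw [Finset.sum_comm]
          refine Finset.sum_congr rfl fun l _ => Finset.sum_congr rfl fun j _ => by ring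
      _ = u i := by
          simp only [hP, mul_ite, mul_one, mul_zero]
          rw [Finset.sum_ite_eq]
          simp
  have hu0 : u ≠ 0 := by
    intro h
    have h1 := hfu (Fin.last d)
    rw [h] at h1
    simp only [Pi.zero_apply, zero_mul, Finset.sum_const_zero] at h1
    exact one_ne_zero (hlast.symm.trans h1)
  have hval : ∀ p, ∑ l, cA p l * algebraMap k (AlgebraicClosure k) (u l) =
      (hasseDeriv (p.2 : ℕ) (∏ i, (X - C (z i)))).eval p.1.1 := by
    intro p
    rw [← hfz]
    exact cf_sum e f hfd.le u hfu p.1.1 (p.2 : ℕ)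
  have hvalK : ∀ p, φ (∑ l, cK p l * algebraMap k K (u l)) =
      (hasseDeriv (p.2 : ℕ) (∏ i, (X - C (z i)))).eval p.1.1 := by
    intro p
    rw [← hval, map_sum]
    refine Finset.sum_congr rfl fun l _ => ?_
    rw [map_mul, hφc, φ.commutes]
  have hnz : ∀ p : ↥D × Fin (d + 1), cA p ≠ 0 →
      (hasseDeriv (p.2 : ℕ) (∏ i, (X - C (z i)))).eval p.1.1 ≠ 0 := by
    intro p hp h0
    rw [← hvalK] at h0
    refine hnzK p ?_ ((map_eq_zero φ).1 h0)
    intro h1
    apply hp
    funext l
    rw [← hφc, h1]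
    simp
  have hcoef : ∀ v ∈ S, ∀ j, F v ((∏ i, (X - C (z i))).coeff j) ≤ nrm (av v) fv := by
    intro v hv j
    rw [← hfz, coeff_map, hF v hv]
    rcases Nat.lt_or_ge j (d + 1) with h | h
    · exact le_nrm (av v) fv ⟨j, h⟩
    · rw [coeff_eq_zero_of_natDegree_lt (by omega), map_zero]
      exact nrm_nonneg _ _
  have hNpos : ∀ v, 0 < nrm (av v) fv := fun v => by
    have h1 := le_nrm (av v) fv (Fin.last d)
    rw [hlast, map_one] at h1
    linarith
  have hex : ∀ v : Pl k, ∃ s : Fin t → ↥D × Fin (d + 1), v ∈ S →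
      (Matrix.of fun a => cA (s a)).det ≠ 0 ∧
      (t : ℝ) * W (F v) z ≤ κ * (max t d : ℕ) * ∑ i, (Real.log (nrm (av v) fv) -
        Real.log (F v ((hasseDeriv ((s i).2 : ℕ) (∏ i, (X - C (z i)))).eval (s i).1.1))) +
        Cl v := by
    intro v
    by_cases hv : v ∈ S
    · obtain ⟨s, h1, h2⟩ := hCl v z (nrm (av v) fv) (hNpos v) (hcoef v hv) hz hnz
      exact ⟨s, fun _ => ⟨h1, h2⟩⟩
    · obtain ⟨a0, ha0⟩ := hne
      exact ⟨fun _ => (⟨a0, ha0⟩, 0), fun h => absurd h hv⟩
  choose β hβ1 using hex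
  have hdet : ∀ v ∈ S, (Matrix.of fun a => cK (β v a)).det ≠ 0 := by
    intro v hv h0
    apply (hβ1 v hv).1
    have h1 : (Matrix.of fun a => cA (β v a)) =
        (φ : K →+* AlgebraicClosure k).mapMatrix (Matrix.of fun a => cK (β v a)) := by
      ext a j
      simp only [Matrix.of_apply, RingHom.mapMatrix_apply, Matrix.map_apply, RingHom.coe_coe]
      rw [hφc]
    rw [h1, ← RingHom.map_det, h0, map_zero]
  have h1 := hβ β hdet
  have h2 := hCP fv (by rw [hPu]; exact hu0)
  have h3 := hCP' fv (by rw [hPu]; exact hu0)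
  rw [hPu] at h2 h3
  rw [Finset.sum_empty, add_zero] at h3
  have hh0 : 0 ≤ logHeight fv := logHeight_nonneg _
  have hhu0 : 0 ≤ logHeight u := logHeight_nonneg _
  have h4 : ∑ v ∈ S, wt v * ∑ i, (Real.log (nrm (av v) fv) -
      Real.log (F v ((hasseDeriv ((β v i).2 : ℕ) (∏ i, (X - C (z i)))).eval (β v i).1.1))) =
      ∑ v ∈ S, wt v * ∑ a, (Real.log (nrm (av v) u) -
        Real.log ((F v).comp (φ : K →+* AlgebraicClosure k).injective
          (∑ j, cK (β v a) j * algebraMap k K (u j)))) +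
      t * ∑ v ∈ S, wt v * (Real.log (nrm (av v) fv) - Real.log (nrm (av v) u)) := by
    rw [Finset.mul_sum, ← Finset.sum_add_distrib]
    refine Finset.sum_congr rfl fun v hv => ?_
    have h5 : ∀ i, (F v).comp (φ : K →+* AlgebraicClosure k).injective
        (∑ j, cK (β v i) j * algebraMap k K (u j)) =
        F v ((hasseDeriv ((β v i).2 : ℕ) (∏ i, (X - C (z i)))).eval (β v i).1.1) := by
      intro i
      rw [← hvalK]
      rfl
    simp only [h5, Finset.sum_sub_distrib, Finset.sum_const, Finset.card_univ, Fintype.card_fin,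
      nsmul_eq_mul]
    ring
  have h6 : (t : ℝ) * ∑ v ∈ S, wt v * W (F v) z ≤ κ * (max t d : ℕ) *
      ∑ v ∈ S, wt v * ∑ i, (Real.log (nrm (av v) fv) -
      Real.log (F v ((hasseDeriv ((β v i).2 : ℕ) (∏ i, (X - C (z i)))).eval (β v i).1.1))) +
      ∑ v ∈ S, wt v * |Cl v| := by
    rw [Finset.mul_sum, Finset.mul_sum, ← Finset.sum_add_distrib]
    refine Finset.sum_le_sum fun v hv => ?_
    have h7 := (hβ1 v hv).2
    have h8 := le_abs_self (Cl v)
    have h9 := mul_le_mul_of_nonneg_left (h7.trans (add_le_add le_rfl h8)) (wt_nonneg v)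
    calc (t : ℝ) * (wt v * W (F v) z) = wt v * ((t : ℝ) * W (F v) z) := by ring
      _ ≤ _ := h9
      _ = _ := by ring
  rw [h4] at h6
  have h7 : ∑ v ∈ S, wt v * ∑ a, (Real.log (nrm (av v) u) -
        Real.log ((F v).comp (φ : K →+* AlgebraicClosure k).injective
          (∑ j, cK (β v a) j * algebraMap k K (u j)))) +
      t * ∑ v ∈ S, wt v * (Real.log (nrm (av v) fv) - Real.log (nrm (av v) u)) ≤
      (t + ε) * logHeight fv + (ε * CP' + t * CP + Cs) := by
    have h8 : ε * logHeight u ≤ ε * (logHeight fv + CP') := mul_le_mul_of_nonneg_left h3 hε.le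
    have h9 : (t : ℝ) * ∑ v ∈ S, wt v * (Real.log (nrm (av v) fv) - Real.log (nrm (av v) u)) ≤
        t * (logHeight fv + CP - logHeight u) :=
      mul_le_mul_of_nonneg_left (by linarith) ht0.le
    nlinarith
  have h8 := h6.trans (add_le_add (mul_le_mul_of_nonneg_left h7
    (by positivity : (0 : ℝ) ≤ κ * (max t d : ℕ))) le_rfl)
  have h9 : ∑ v ∈ S, wt v * W (F v) z ≤ (κ * (max t d : ℕ) * ((t + ε) * logHeight fv +
      (ε * CP' + t * CP + Cs)) + ∑ v ∈ S, wt v * |Cl v|) / t := by
    rw [le_div_iff₀ ht0, mul_comm]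
    exact h8
  refine h9.trans ?_
  have h10 : (κ * ((max t d : ℕ) : ℝ) * ((t + ε) * logHeight fv +
      (ε * CP' + t * CP + Cs)) + ∑ v ∈ S, wt v * |Cl v|) / t =
      κ * (max t d : ℕ) * (1 + ε / t) * logHeight fv +
      (∑ v ∈ S, wt v * |Cl v| + κ * (max t d : ℕ) * (ε * CP' + t * CP + Cs)) / t := by
    field_simp
    ring
  rw [h10]
  refine add_le_add ?_ le_rfl
  have h11 : ε / t ≤ ε := div_le_self hε.le ht1
  have h12 : 0 ≤ ε / t := by positivity
  gcongr

end Pool.Agent.Run7.h860.Hd
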